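import Mathlib

/-!
Definitions for MP_740c6d_ag (graded sequences of ideals and valuations computing their log
canonical threshold) at the origin of the affine space `A^3` over a field `k` of characteristic
zero.  `(A^3, 0)` is smooth, so with `Δ = 0` it is a klt singularity.
-/

namespace Run7.h405.E

open MvPolynomial Filter
open scoped ENNReal

/-- `Val_{X,x}` for `X = A^3`, `x` the origin: the real valuations (written additively) of the
function field `k(x₁,x₂,x₃)`, trivial on `k`, centred at the origin.  Such a valuation is given by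
its values on the nonzero polynomials (and `v(f/g) = v(f) - v(g)`); being centred at the origin
means that the coordinates have positive values.  (The value of `v` at `0` is irrelevant.) -/
structure Val (k : Type*) [Field k] where
  v : MvPolynomial (Fin 3) k → ℝ
  map_mul : ∀ f g, f ≠ 0 → g ≠ 0 → v (f * g) = v f + v g
  map_add : ∀ f g, f ≠ 0 → g ≠ 0 → f + g ≠ 0 → min (v f) (v g) ≤ v (f + g)
  map_C : ∀ c : k, c ≠ 0 → v (C c) = 0
  pos : ∀ i, 0 < v (X i)

/-- Jacobian determinant of three polynomials: `df₁ ∧ df₂ ∧ df₃ = jac f · dx₁ ∧ dx₂ ∧ dx₃`. -/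
noncomputable def jac {k : Type*} [Field k] (f : Fin 3 → MvPolynomial (Fin 3) k) :
    MvPolynomial (Fin 3) k :=
  Matrix.det (fun i j => pderiv j (f i))

/-- The log discrepancy of `w` over `A^3` (characteristic zero): the supremum of
`w(f₁) + w(f₂) + w(f₃) - w(jac f)` over the triples of polynomials with `jac f ≠ 0`.

This is the usual log discrepancy, by the description of `A(w)` as the Kähler norm of the form
`dx₁ ∧ dx₂ ∧ dx₃` (Temkin, residue characteristic zero).  Directly: write `ℓ(f)` for
`w(f₁) + w(f₂) + w(f₃) - w(jac f)`, also for triples of nonzero rational functions.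

* If `y` is a regular system of parameters at a point of a log smooth model `Y`, whose boundary
  supports the relative canonical divisor `K`, and `w` is quasi-monomial in `y`, then
  `jac y` is the inverse of a local equation of `K`, so `ℓ(y) = ∑ w(yᵢ) (1 + ord_{Eᵢ} K)`, which
  is the definition of the log discrepancy of a quasi-monomial `w`.
* If moreover the `fᵢ` are monomials in `y` times units, then
  `dlog f₁ ∧ dlog f₂ ∧ dlog f₃ = h · dlog y₁ ∧ dlog y₂ ∧ dlog y₃` with `h` regular, so
  `ℓ(f) = ℓ(y) - w(h) ≤ ℓ(y)`.  As `A(w)` is the supremum of `A` over the retractions of `w` to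
  all log smooth models, this gives `sup ℓ = A(w)` with the supremum over triples of rational
  functions.
* Polynomials suffice: `dlog (g / h) = dlog g - dlog h`, so `dlog f₁ ∧ dlog f₂ ∧ dlog f₃` is a
  sum of such forms for polynomials, and one of them has value at most that of the sum.

The supremum is positive (take the coordinates), so nothing is lost by `ENNReal.ofReal`. -/
noncomputable def logDisc {k : Type*} [Field k] (w : Val k) : ℝ≥0∞ :=
  ⨆ (f : Fin 3 → MvPolynomial (Fin 3) k) (_ : jac f ≠ 0),
    ENNReal.ofReal ((∑ i, w.v (f i)) - w.v (jac f))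

/-- Graded sequences `(a_m)_{m ≥ 1}` of ideals of `k[x₁,x₂,x₃]`, each `a_m` (`m ≥ 1`) primary to
the maximal ideal `(x₁,x₂,x₃)` of the origin, with `a_m a_l ⊆ a_{m+l}`.  (`a_0` is irrelevant.) -/
structure GradedSeq (k : Type*) [Field k] where
  a : ℕ → Ideal (MvPolynomial (Fin 3) k)
  mul_le : ∀ m l, 1 ≤ m → 1 ≤ l → a m * a l ≤ a (m + l)
  primary : ∀ m, 1 ≤ m → (a m).IsPrimary
  radical_eq : ∀ m, 1 ≤ m → (a m).radical = Ideal.span (Set.range X)

/-- `w(I)`, the minimum (written as infimum) of the values of the nonzero elements of `I`. -/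
noncomputable def Val.idl {k : Type*} [Field k] (w : Val k)
    (I : Ideal (MvPolynomial (Fin 3) k)) : ℝ :=
  sInf (w.v '' {f | f ∈ I ∧ f ≠ 0})

/-- `w(a) = lim w(a_m)/m` (the limit exists because `m ↦ w(a_m)` is subadditive). -/
noncomputable def Val.seq {k : Type*} [Field k] (w : Val k) (a : GradedSeq k) : ℝ :=
  limUnder atTop (fun m : ℕ => w.idl (a.a m) / m)

/-- The log canonical threshold of a graded sequence: `inf_w A(w) / w(a)`. -/
noncomputable def lct {k : Type*} [Field k] (a : GradedSeq k) : ℝ≥0∞ :=
  ⨅ w : Val k, logDisc w / ENNReal.ofReal (w.seq a)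

/-- The set of valuations computing the log canonical threshold: `lct = A(w) / w(a)`. -/
def LCP {k : Type*} [Field k] (a : GradedSeq k) : Set (Val k) :=
  {w | lct a = logDisc w / ENNReal.ofReal (w.seq a)}

/-- The Rees algebra `⨁_{r ≥ 0} {w ≥ r} t^r` of the valuation, the subalgebra of the ring
`⨁_{r ∈ ℝ} R t^r` generated by the `f t^r` with `w(f) ≥ r ≥ 0`. -/
noncomputable def Rees {k : Type*} [Field k] (w : Val k) :
    Subalgebra k (AddMonoidAlgebra (MvPolynomial (Fin 3) k) ℝ) :=
  Algebra.adjoin k {s | ∃ (r : ℝ) (f : MvPolynomial (Fin 3) k), 0 ≤ r ∧ f ≠ 0 ∧ r ≤ w.v f ∧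
    s = AddMonoidAlgebra.single r f}

/-- The Rees algebra as a type. -/
def ReesAlg {k : Type*} [Field k] (w : Val k) : Type _ := Rees w

noncomputable instance instReesRing {k : Type*} [Field k] (w : Val k) : CommRing (ReesAlg w) :=
  Subalgebra.toCommRing (Rees w)

noncomputable instance instReesAlg {k : Type*} [Field k] (w : Val k) : Algebra k (ReesAlg w) :=
  Subalgebra.algebra (Rees w)

/-- The ideal `⨁_{r ≥ 0} {w > r} t^r` of the Rees algebra, generated by the `f t^r` with
`w(f) > r ≥ 0`. -/
noncomputable def above {k : Type*} [Field k] (w : Val k) : Ideal (ReesAlg w) :=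
  Ideal.span {s | ∃ (r : ℝ) (f : MvPolynomial (Fin 3) k), 0 ≤ r ∧ f ≠ 0 ∧ r < w.v f ∧
    s.1 = AddMonoidAlgebra.single r f}

/-- The associated graded algebra `Gr_w R = ⨁_{r ≥ 0} {w ≥ r} / {w > r}`, as the quotient of
`⨁_r {w ≥ r} t^r` by `⨁_r {w > r} t^r`. -/
abbrev Gr {k : Type*} [Field k] (w : Val k) := ReesAlg w ⧸ above w

end Run7.h405.E
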