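import Mathlib
import Pool.Agent.Run7.h405.Stmt

/-!
The log discrepancy of `Stmt.lean` in birational charts: for every chart with parameters `y` it is
at least `∑ w(yᵢ) + w(Jacobian)`, with equality for valuations that are quasi-monomial in `y`.
-/

namespace Run7.h405.E

open MvPolynomial
open scoped ENNReal

variable {k : Type*} [Field k] {A : Type*} [CommRing A] [Algebra k A]

/-- chain rule -/
theorem deriv_phi (φ : MvPolynomial (Fin 3) k →ₐ[k] A) (δ : Derivation k A A)
    (f : MvPolynomial (Fin 3) k) :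
    δ (φ f) = ∑ j, δ (φ (X j)) * φ (pderiv j f) := by
  induction f using MvPolynomial.induction_on with
  | C a =>
    have h : φ (C a) = algebraMap k A a := by
      rw [← MvPolynomial.algebraMap_eq, AlgHom.commutes]
    rw [h, Derivation.map_algebraMap]
    simp
  | add p q hp hq =>
    rw [map_add, map_add, hp, hq, ← Finset.sum_add_distrib]
    refine Finset.sum_congr rfl fun j _ => ?_
    rw [map_add, map_add, mul_add]
  | mul_X p i hp =>
    rw [map_mul, Derivation.leibniz, hp, smul_eq_mul, smul_eq_mul]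
    have h1 : ∀ j, pderiv j (p * X i) = p * (if j = i then 1 else 0) + X i * pderiv j p := by
      intro j
      rw [Derivation.leibniz, pderiv_X, smul_eq_mul, smul_eq_mul]
      congr 2
      by_cases h : j = i
      · subst h; simp
      · simp [h]
    simp_rw [h1, map_add, map_mul, mul_add, Finset.sum_add_distrib]
    rw [Finset.mul_sum]
    congr 1
    · rw [Finset.sum_eq_single i]
      · simp; ring
      · intro b _ hb
        simp [hb]
      · simp
    · refine Finset.sum_congr rfl fun j _ => ?_
      ring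

/-- the Jacobian of a triple in a chart -/
theorem det_chart (φ : MvPolynomial (Fin 3) k →ₐ[k] A) (δ : Fin 3 → Derivation k A A)
    (f : Fin 3 → MvPolynomial (Fin 3) k) :
    Matrix.det (fun i j => δ i (φ (f j))) = Matrix.det (fun i j => δ i (φ (X j))) * φ (jac f) := by
  have hj : φ (jac f) = Matrix.det (fun i j => φ (pderiv j (f i))) := by
    unfold jac
    exact RingHom.map_det φ.toRingHom _
  rw [hj, Matrix.det_fin_three, Matrix.det_fin_three, Matrix.det_fin_three]
  simp only [fun i j => deriv_phi φ (δ i) (f j), Fin.sum_univ_three]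
  ring

theorem ne_zero_of_jac {f : Fin 3 → MvPolynomial (Fin 3) k} (h : jac f ≠ 0) (i : Fin 3) :
    f i ≠ 0 := by
  intro h0
  apply h
  unfold jac
  apply Matrix.det_eq_zero_of_row_eq_zero i
  intro j
  simp [h0]

/-- a determinant has value at least the sum of lower bounds of its columns -/
theorem le_val_det (u : AddValuation A (WithTop ℝ)) (b : Fin 3 → Fin 3 → A)
    (W : Fin 3 → WithTop ℝ) (h : ∀ i j, W j ≤ u (b i j)) :
    W 0 + W 1 + W 2 ≤ u (Matrix.det (fun i j => b i j)) := by
  have key : ∀ (p q r : Fin 3) (i j l : Fin 3), W p + W q + W r = W 0 + W 1 + W 2 →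
      W 0 + W 1 + W 2 ≤ u (b i p * b j q * b l r) := by
    intro p q r i j l e
    rw [AddValuation.map_mul, AddValuation.map_mul, ← e]
    exact add_le_add (add_le_add (h i p) (h j q)) (h l r)
  rw [Matrix.det_fin_three]
  refine AddValuation.map_le_sub _ (AddValuation.map_le_add _ (AddValuation.map_le_add _
    (AddValuation.map_le_sub _ (AddValuation.map_le_sub _ ?_ ?_) ?_) ?_) ?_) ?_
  · exact key 0 1 2 _ _ _ rfl
  · exact key 0 2 1 _ _ _ (by abel)
  · exact key 1 0 2 _ _ _ (by abel)
  · exact key 1 2 0 _ _ _ (by abel)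
  · exact key 2 0 1 _ _ _ (by abel)
  · exact key 2 1 0 _ _ _ (by abel)

/-- upper bound for quasi-monomial valuations -/
theorem logDisc_le_of_chart (w : Val k) (φ : MvPolynomial (Fin 3) k →ₐ[k] A)
    (u : AddValuation A (WithTop ℝ)) (hu : ∀ f, f ≠ 0 → u (φ f) = ((w.v f : ℝ) : WithTop ℝ))
    (y : Fin 3 → A) (δ : Fin 3 → Derivation k A A)
    (α : Fin 3 → ℝ) (hα : ∀ i, u (y i) = ((α i : ℝ) : WithTop ℝ))
    (c : ℝ) (hc : u (Matrix.det (fun i j => δ i (φ (X j)))) = ((c : ℝ) : WithTop ℝ))
    (hqm : ∀ i a, u a ≤ u (y i * δ i a)) :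
    logDisc w ≤ ENNReal.ofReal ((∑ i, α i) + c) := by
  refine iSup₂_le fun f hf => ENNReal.ofReal_le_ofReal ?_
  have h1 := le_val_det u (fun i j => y i * δ i (φ (f j))) (fun j => u (φ (f j)))
    (fun i j => hqm i _)
  have h2 : Matrix.det (fun i j => y i * δ i (φ (f j))) =
      y 0 * y 1 * y 2 * (Matrix.det (fun i j => δ i (φ (X j))) * φ (jac f)) := by
    rw [← det_chart φ δ f, Matrix.det_fin_three, Matrix.det_fin_three]
    ring
  rw [h2, AddValuation.map_mul, AddValuation.map_mul, AddValuation.map_mul,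
    AddValuation.map_mul, hα, hα, hα, hc, hu _ hf, hu _ (ne_zero_of_jac hf 0),
    hu _ (ne_zero_of_jac hf 1), hu _ (ne_zero_of_jac hf 2)] at h1
  have h3 : w.v (f 0) + w.v (f 1) + w.v (f 2) ≤ α 0 + α 1 + α 2 + (c + w.v (jac f)) := by
    exact_mod_cast h1
  rw [Fin.sum_univ_three, Fin.sum_univ_three]
  linarith

/-- lower bound for all valuations -/
theorem le_logDisc_of_chart (w : Val k) (φ : MvPolynomial (Fin 3) k →ₐ[k] A)
    (u : AddValuation A (WithTop ℝ)) (hu : ∀ f, f ≠ 0 → u (φ f) = ((w.v f : ℝ) : WithTop ℝ))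
    (y : Fin 3 → A) (δ : Fin 3 → Derivation k A A)
    (hδ : ∀ i j, δ i (y j) = if i = j then 1 else 0)
    (g : Fin 3 → MvPolynomial (Fin 3) k) (h : MvPolynomial (Fin 3) k) (hh : h ≠ 0)
    (hg : ∀ i, y i * φ h = φ (g i))
    (α : Fin 3 → ℝ) (hα : ∀ i, u (y i) = ((α i : ℝ) : WithTop ℝ))
    (c : ℝ) (hc : u (Matrix.det (fun i j => δ i (φ (X j)))) = ((c : ℝ) : WithTop ℝ)) :
    ENNReal.ofReal ((∑ i, α i) + c) ≤ logDisc w := by
  have hgne : ∀ i, g i ≠ 0 := by
    intro i h0
    have h1 := congrArg u (hg i)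
    rw [h0, map_zero, AddValuation.map_zero, AddValuation.map_mul, hα, hu h hh] at h1
    exact WithTop.coe_ne_top (a := α i + w.v h) (by exact_mod_cast h1)
  have hwg : ∀ i, w.v (g i) = α i + w.v h := by
    intro i
    have h1 := congrArg u (hg i)
    rw [AddValuation.map_mul, hα, hu h hh, hu _ (hgne i)] at h1
    exact_mod_cast h1.symm
  have hdg : ∀ i j, δ i (φ (g j)) = y j * δ i (φ h) + φ h * (if i = j then 1 else 0) := by
    intro i j
    rw [← hg, Derivation.leibniz, hδ, smul_eq_mul, smul_eq_mul]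
  set N : A := Matrix.det (fun i j => δ i (φ (X j))) with hN
  set T : MvPolynomial (Fin 3) k := h * jac g + -(g 0 * jac ![h, g 1, g 2]) +
    -(g 1 * jac ![g 0, h, g 2]) + -(g 2 * jac ![g 0, g 1, h]) with hT
  have hid : N * φ T = φ h ^ 4 := by
    have e0 := det_chart φ δ g
    have e1 := det_chart φ δ ![h, g 1, g 2]
    have e2 := det_chart φ δ ![g 0, h, g 2]
    have e3 := det_chart φ δ ![g 0, g 1, h]
    rw [← hN, Matrix.det_fin_three] at e0 e1 e2 e3
    simp only [hdg, Matrix.cons_val_zero, Matrix.cons_val_one, Matrix.cons_val] at e0 e1 e2 e3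
    have e : N * φ T = φ h * (N * φ (jac g)) - y 0 * φ h * (N * φ (jac ![h, g 1, g 2])) -
        y 1 * φ h * (N * φ (jac ![g 0, h, g 2])) - y 2 * φ h * (N * φ (jac ![g 0, g 1, h])) := by
      rw [hT, hg, hg, hg]
      simp only [map_add, map_neg, map_mul]
      ring
    rw [e, ← e0, ← e1, ← e2, ← e3]
    simp
    ring
  by_contra hlt
  rw [not_le] at hlt
  have hF : ∀ f : Fin 3 → MvPolynomial (Fin 3) k, jac f ≠ 0 →
      w.v (f 0) + w.v (f 1) + w.v (f 2) - w.v (jac f) < (∑ i, α i) + c := by
    intro f hf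
    have h1 : ENNReal.ofReal ((∑ i, w.v (f i)) - w.v (jac f)) ≤ logDisc w :=
      le_iSup₂ (f := fun (f : Fin 3 → MvPolynomial (Fin 3) k) (_ : jac f ≠ 0) =>
        ENNReal.ofReal ((∑ i, w.v (f i)) - w.v (jac f))) f hf
    have h2 := ENNReal.ofReal_lt_ofReal_iff'.1 (lt_of_le_of_lt h1 hlt)
    rw [Fin.sum_univ_three (f := fun i => w.v (f i))] at h2
    exact h2.1
  rw [Fin.sum_univ_three] at hF
  have hterm : ∀ (p q : MvPolynomial (Fin 3) k), p ≠ 0 →
      (q ≠ 0 → 4 * w.v h - c < w.v p + w.v q) →
      ((4 * w.v h - c : ℝ) : WithTop ℝ) < u (φ (p * q)) := by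
    intro p q hp hpq
    by_cases hq : q = 0
    · rw [hq, mul_zero, map_zero, AddValuation.map_zero]
      exact WithTop.coe_lt_top _
    · rw [map_mul, AddValuation.map_mul, hu p hp, hu q hq]
      exact_mod_cast hpq hq
  have hTlt : ((4 * w.v h - c : ℝ) : WithTop ℝ) < u (φ T) := by
    rw [hT]
    simp only [map_add, map_neg]
    refine AddValuation.map_lt_add _ (AddValuation.map_lt_add _ (AddValuation.map_lt_add _ ?_ ?_)
      ?_) ?_
    · refine hterm _ _ hh fun hj => ?_
      have := hF g hj
      rw [hwg, hwg, hwg] at this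
      linarith
    · rw [AddValuation.map_neg]
      refine hterm _ _ (hgne 0) fun hj => ?_
      have := hF _ hj
      simp only [Matrix.cons_val_zero, Matrix.cons_val_one, Matrix.cons_val] at this
      rw [hwg, hwg] at this
      rw [hwg]
      linarith
    · rw [AddValuation.map_neg]
      refine hterm _ _ (hgne 1) fun hj => ?_
      have := hF _ hj
      simp only [Matrix.cons_val_zero, Matrix.cons_val_one, Matrix.cons_val] at this
      rw [hwg, hwg] at this
      rw [hwg]
      linarith
    · rw [AddValuation.map_neg]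
      refine hterm _ _ (hgne 2) fun hj => ?_
      have := hF _ hj
      simp only [Matrix.cons_val_zero, Matrix.cons_val_one, Matrix.cons_val] at this
      rw [hwg, hwg] at this
      rw [hwg]
      linarith
  have h1 := congrArg u hid
  rw [AddValuation.map_mul, AddValuation.map_pow, hc, hu h hh] at h1
  have h2 : u (φ T) ≠ ⊤ := by
    intro h0
    rw [h0, WithTop.add_top] at h1
    have : ((4 • w.v h : ℝ) : WithTop ℝ) = ⊤ := by exact_mod_cast h1.symm
    exact WithTop.coe_ne_top this
  obtain ⟨t, ht⟩ := WithTop.ne_top_iff_exists.1 h2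
  rw [← ht] at h1 hTlt
  have h3 : c + t = 4 • w.v h := by exact_mod_cast h1
  have h4 : 4 * w.v h - c < t := by exact_mod_cast hTlt
  rw [nsmul_eq_mul] at h3
  push_cast at h3
  linarith

/-- The log discrepancy of a quasi-monomial valuation.  Here `φ : R → A` is a chart (for instance
`A` the local ring of a closed point of a log smooth model), `y` are parameters of `A` with dual
derivations `δᵢ = ∂/∂yᵢ`, the parameters are rational functions `g i / h` on `A^3`, and `w` is
quasi-monomial in `y`: the logarithmic derivations `yᵢ ∂/∂yᵢ` do not lower it. -/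
theorem logDisc_eq_of_chart (w : Val k) (φ : MvPolynomial (Fin 3) k →ₐ[k] A)
    (u : AddValuation A (WithTop ℝ)) (hu : ∀ f, f ≠ 0 → u (φ f) = ((w.v f : ℝ) : WithTop ℝ))
    (y : Fin 3 → A) (δ : Fin 3 → Derivation k A A)
    (hδ : ∀ i j, δ i (y j) = if i = j then 1 else 0)
    (g : Fin 3 → MvPolynomial (Fin 3) k) (h : MvPolynomial (Fin 3) k) (hh : h ≠ 0)
    (hg : ∀ i, y i * φ h = φ (g i))
    (α : Fin 3 → ℝ) (hα : ∀ i, u (y i) = ((α i : ℝ) : WithTop ℝ))
    (c : ℝ) (hc : u (Matrix.det (fun i j => δ i (φ (X j)))) = ((c : ℝ) : WithTop ℝ))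
    (hqm : ∀ i a, u a ≤ u (y i * δ i a)) :
    logDisc w = ENNReal.ofReal ((∑ i, α i) + c) :=
  le_antisymm (logDisc_le_of_chart w φ u hu y δ α hα c hc hqm)
    (le_logDisc_of_chart w φ u hu y δ hδ g h hh hg α hα c hc)

open Classical in
/-- the valuation on polynomials with value `⊤` at `0` -/
noncomputable def polV (w : Val k) : AddValuation (MvPolynomial (Fin 3) k) (WithTop ℝ) :=
  AddValuation.of (fun f => if f = 0 then ⊤ else ((w.v f : ℝ) : WithTop ℝ)) (by simp)
    (by
      have h := w.map_C 1 one_ne_zero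
      rw [map_one] at h
      simp [h])
    (by
      intro f g
      by_cases hf : f = 0
      · simp [hf]
      by_cases hg : g = 0
      · simp [hg]
      by_cases hfg : f + g = 0
      · simp [hfg]
      simp only [hf, hg, hfg, if_false]
      exact_mod_cast w.map_add f g hf hg hfg)
    (by
      intro f g
      by_cases hf : f = 0
      · simp [hf]
      by_cases hg : g = 0
      · simp [hg]
      simp only [hf, hg, mul_ne_zero hf hg, if_false]
      exact_mod_cast w.map_mul f g hf hg)

theorem polV_apply (w : Val k) {f : MvPolynomial (Fin 3) k} (hf : f ≠ 0) :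
    polV w f = ((w.v f : ℝ) : WithTop ℝ) := if_neg hf

theorem coeff_X_mul_pderiv (h : MvPolynomial (Fin 3) k) (m : Fin 3) (s : Fin 3 →₀ ℕ) :
    coeff s (X m * pderiv m h) = (s m : k) * coeff s h := by
  induction h using MvPolynomial.induction_on' with
  | monomial e c =>
    rw [pderiv_monomial]
    by_cases he : e m = 0
    · rw [he]
      simp only [coeff_monomial]
      split_ifs with h2
      · subst h2
        simp [he]
      · simp
    · rw [X, monomial_mul, one_mul]
      have h3 : Finsupp.single m 1 + (e - Finsupp.single m 1) = e := by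
        rw [add_tsub_cancel_of_le]
        rwa [Finsupp.single_le_iff, Nat.one_le_iff_ne_zero]
      rw [h3, coeff_monomial, coeff_monomial]
      split_ifs with h2
      · subst h2
        ring
      · simp
  | add p q hp hq =>
    rw [map_add, mul_add, coeff_add, coeff_add, hp, hq, mul_add]

/-- The log discrepancy of a monomial valuation is the sum of its weights. -/
theorem logDisc_monomial (w : Val k) (hw : ∀ f : MvPolynomial (Fin 3) k, f ≠ 0 →
      IsLeast ((fun s : Fin 3 →₀ ℕ => ∑ i, s i * w.v (X i)) '' (f.support : Set (Fin 3 →₀ ℕ)))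
        (w.v f)) :
    logDisc w = ENNReal.ofReal (∑ i, w.v (X i)) := by
  have h := logDisc_eq_of_chart w (AlgHom.id k _) (polV w) (fun f hf => polV_apply w hf) X
    (fun i => pderiv i) (fun i j => by
      rw [pderiv_X]
      by_cases hij : i = j
      · subst hij; simp
      · simp [hij])
    X 1 one_ne_zero (fun i => by simp) (fun i => w.v (X i)) (fun i => polV_apply w (X_ne_zero i))
    0 (by
      have : Matrix.det (fun i j => pderiv i ((AlgHom.id k (MvPolynomial (Fin 3) k)) (X j))) =
          (1 : MvPolynomial (Fin 3) k) := by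
        rw [Matrix.det_fin_three]
        simp [pderiv_X]
      rw [this, AddValuation.map_one]
      rfl)
    (by
      intro i f
      by_cases hf : f = 0
      · rw [hf]; simp
      by_cases hf' : X i * pderiv i f = 0
      · rw [hf', AddValuation.map_zero]; exact le_top
      rw [polV_apply w hf, polV_apply w hf']
      obtain ⟨s, hs, hs2⟩ := (hw _ hf').1
      have hs3 : s ∈ f.support := by
        rw [Finset.mem_coe, mem_support_iff, coeff_X_mul_pderiv] at hs
        exact mem_support_iff.2 (right_ne_zero_of_mul hs)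
      have h2 := (hw f hf).2 ⟨s, hs3, hs2⟩
      exact_mod_cast h2)
  rw [h, add_zero]

end Run7.h405.E
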