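import Mathlib

/-!
Working definitions for MP_740c6d_ag at the origin of the affine space `A^3` over a field `k` of
characteristic zero, with valuations on the function field.  The definitions used in the final
statement are those of `Stmt.lean`; `Bridge.lean` compares the two.
-/

namespace Run7.h405

open MvPolynomial Filter Topology
open scoped ENNReal NNReal

/-- The coordinate ring of affine 3-space. -/
abbrev R3 (k : Type*) [Field k] := MvPolynomial (Fin 3) k

/-- The function field of affine 3-space. -/
abbrev K3 (k : Type*) [Field k] := FractionRing (MvPolynomial (Fin 3) k)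

/-- `Val_{X,x}` for `X = A^3`, `x` the origin: real valuations (written additively) of the
function field of `A^3`, trivial on `k`, centred at the origin, i.e. with all three coordinates
of positive value. -/
structure Val (k : Type*) [Field k] where
  v : AddValuation (K3 k) (WithTop ℝ)
  triv : ∀ c : k, c ≠ 0 → v (algebraMap (R3 k) (K3 k) (C c)) = 0
  pos : ∀ i : Fin 3, 0 < v (algebraMap (R3 k) (K3 k) (X i))

/-- The (finite) value of a nonzero polynomial. -/
noncomputable def Val.val {k : Type*} [Field k] (w : Val k) (f : R3 k) : ℝ :=
  (w.v (algebraMap (R3 k) (K3 k) f)).untopD 0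

/-- Jacobian determinant of three polynomials: `df₁ ∧ df₂ ∧ df₃ = jac f · dx₁ ∧ dx₂ ∧ dx₃`. -/
noncomputable def jac {k : Type*} [Field k] (f : Fin 3 → R3 k) : R3 k :=
  Matrix.det (Matrix.of fun i j => pderiv j (f i))

/-- The log discrepancy of `w` over `A^3` (characteristic zero): the supremum of
`w(f₁) + w(f₂) + w(f₃) - w(jac f)` over the triples of polynomials with `jac f ≠ 0`.

This is the usual log discrepancy, by the description of `A(w)` as the Kähler norm of the form
`dx₁ ∧ dx₂ ∧ dx₃` (Temkin, residue characteristic zero).  Directly: write `ℓ(f)` for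
`w(f₁) + w(f₂) + w(f₃) - w(jac f)`, also for triples of nonzero rational functions.

* If `y` is a regular system of parameters at a point of a log smooth model `Y`, whose boundary
  supports the relative canonical divisor `K`, and `w` is quasi-monomial in `y`, then
  `jac y` is the inverse of a local equation of `K`, so `ℓ(y) = ∑ w(yᵢ) (1 + ord_{Eᵢ} K)`, which
  is the definition of the log discrepancy of a quasi-monomial `w`.
* If moreover the `fᵢ` are monomials in `y` times units, then
  `dlog f₁ ∧ dlog f₂ ∧ dlog f₃ = h · dlog y₁ ∧ dlog y₂ ∧ dlog y₃` with `h` regular, so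
  `ℓ(f) = ℓ(y) - w(h) ≤ ℓ(y)`.  As `A(w)` is the supremum of `A` over the retractions of `w` to
  all log smooth models, this gives `sup ℓ = A(w)` with the supremum over triples of rational
  functions.
* Polynomials suffice: `dlog (g / h) = dlog g - dlog h`, so `dlog f₁ ∧ dlog f₂ ∧ dlog f₃` is a
  sum of such forms for polynomials, and one of them has value at most that of the sum.

The supremum is positive (take the coordinates), so nothing is lost by `ENNReal.ofReal`. -/
noncomputable def logDisc {k : Type*} [Field k] (w : Val k) : ℝ≥0∞ :=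
  ⨆ (f : Fin 3 → R3 k) (_ : jac f ≠ 0), ENNReal.ofReal ((∑ i, w.val (f i)) - w.val (jac f))

/-- Graded sequences `(a_m)_{m ≥ 1}` of ideals of `k[x₁,x₂,x₃]`, each `a_m` (`m ≥ 1`) primary to
the maximal ideal `(x₁,x₂,x₃)` of the origin, with `a_m a_l ⊆ a_{m+l}`.  (`a_0` is irrelevant.) -/
structure GradedSeq (k : Type*) [Field k] where
  a : ℕ → Ideal (R3 k)
  mul_le : ∀ m l, 1 ≤ m → 1 ≤ l → a m * a l ≤ a (m + l)
  primary : ∀ m, 1 ≤ m → (a m).IsPrimary ∧ (a m).radical = Ideal.span (Set.range X)

/-- `w(I)`, the minimum (written as infimum) of the values of the nonzero elements of `I`. -/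
noncomputable def Val.idl {k : Type*} [Field k] (w : Val k) (I : Ideal (R3 k)) : ℝ :=
  sInf (w.val '' {f | f ∈ I ∧ f ≠ 0})

/-- `w(a) = lim w(a_m)/m` (the limit exists because `m ↦ w(a_m)` is subadditive). -/
noncomputable def Val.seq {k : Type*} [Field k] (w : Val k) (a : GradedSeq k) : ℝ :=
  limUnder atTop (fun m : ℕ => w.idl (a.a m) / m)

/-- The log canonical threshold of a graded sequence: `inf_w A(w) / w(a)`. -/
noncomputable def lct {k : Type*} [Field k] (a : GradedSeq k) : ℝ≥0∞ :=
  ⨅ w : Val k, logDisc w / ENNReal.ofReal (w.seq a)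

/-- The set of valuations computing the log canonical threshold:
`A(w) / w(a) = lct`. -/
def LCP {k : Type*} [Field k] (a : GradedSeq k) : Set (Val k) :=
  {w | lct a = logDisc w / ENNReal.ofReal (w.seq a)}

end Run7.h405
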