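import Mathlib
import Pool.Agent.Run7.h405.Defs

/-! Base definitions for the disproof of MP_740c6d_ag Q1. -/

namespace Run7.h405

open MvPolynomial Filter Topology Asymptotics
open scoped ENNReal NNReal

/-- degrees -/
def D : ℕ → ℕ
  | 0 => 3
  | 1 => 1
  | 2 => 1
  | (n+3) => 4 * D (n+1) * D (n+2) - D n

/-- exponents of `x` -/
def pp : ℕ → ℤ
  | 0 => 1
  | 1 => 1
  | 2 => 0
  | (n+3) => 4 * D (n+2) * pp (n+1) - pp n

/-- exponents of `y` -/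
def qq : ℕ → ℤ
  | 0 => 1
  | 1 => 0
  | 2 => 1
  | (n+3) => 4 * D (n+2) * qq (n+1) - qq n

/-- value of `G n` -/
def gg (a b : ℝ) (n : ℕ) : ℝ := pp n * a + qq n * b

/-- The properties of the weights `(a,b)`. -/
structure Wt (a b : ℝ) : Prop where
  apos : 0 < a
  bpos : 0 < b
  incr : ∀ n, 0 < (D n : ℝ) * gg a b (n+1) - D (n+1) * gg a b n
  lim : Tendsto (fun n => 4 * gg a b n / D n) atTop (𝓝 1)

abbrev MP := MvPolynomial (Fin 3) ℚ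

/-- variables: `0 = λ`, `1 = U` of weight `α`, `2 = V` of weight `β`. -/
structure Good (α β : ℕ) (P : MP) : Prop where
  hom : ∀ s ∈ P.support, s 0 + α * s 1 + β * s 2 = α * β
  e1 : aeval ![(X 0 : MP), X 1, 0] P = (X 0 ^ α + X 1) ^ β
  e2 : aeval ![(X 0 : MP), 0, X 2] P = (X 0 ^ β + X 2) ^ α
  c1 : P.coeff (Finsupp.single 1 β) = 1
  c2 : P.coeff (Finsupp.single 2 α) = 1
  pos : ∀ l u v : ℝ, 0 ≤ l → 0 ≤ u → 0 ≤ v → ¬ (l = 0 ∧ u = 0 ∧ v = 0) →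
    0 < aeval ![l, u, v] P

structure PSys (P : ℕ → MP) : Prop where
  p0 : P 0 = X 0 + X 1 + X 2
  p1 : P 1 = X 0 + X 1 + X 2
  p2 : P 2 = (X 0 + X 1) ^ 3 + X 2
  good : ∀ n, Good (D (n+1)) (D (n+2)) (P n)
  key : ∀ n, ∀ (S : Type) [CommRing S] [Algebra ℚ S] (l u u' a v : S),
    u * u' = (l ^ D (n+2) + a) ^ (4 * D (n+3)) →
    v * a = (l ^ D (n+4) + u) ^ (4 * D (n+3)) →
    (l ^ D (n+2) + a) ^ D (n+1) * (l ^ D (n+4) + u) ^ D (n+2) * aeval ![l, u, v] (P (n+3)) =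
      v ^ D (n+4) * u ^ D (n+2) * aeval ![l, u', a] (P n)

/-- `λ = xyz - x^4 - y^4 - z^4` -/
noncomputable def lam (A : Type*) [CommRing A] : MvPolynomial (Fin 3) A :=
  X 0 * X 1 * X 2 - X 0 ^ 4 - X 1 ^ 4 - X 2 ^ 4

structure GSys (P G : ℕ → MP) : Prop where
  g0 : G 0 = X 0 * X 1 - X 2 ^ 3
  g1 : G 1 = X 0
  g2 : G 2 = X 1
  g3 : G 3 = X 2
  ne : ∀ n, G n ≠ 0
  rel : ∀ n, G (n+3) * G n = aeval ![lam ℚ, G (n+1) ^ 4, G (n+2) ^ 4] (P n)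
  deg : ∀ n, (G n).totalDegree ≤ D n

end Run7.h405
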