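import Mathlib
import Pool.Agent.Run7.h405.Base

/-! Monomiality of a valuation from the inequality `A(w) ≤ w(λ)`. -/

namespace Run7.h405

open MvPolynomial

theorem coeff_X_mul_pderiv (h : MP) (m : Fin 3) (s : Fin 3 →₀ ℕ) :
    coeff s (X m * pderiv m h) = (s m : ℚ) * coeff s h := by
  induction h using MvPolynomial.induction_on' with
  | monomial u a =>
    rw [X_mul_pderiv_monomial, coeff_smul, coeff_monomial]
    split_ifs with hs
    · subst hs
      simp
    · simp
  | add p q hp hq =>
    rw [map_add, mul_add, coeff_add, coeff_add, hp, hq]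
    ring

theorem mono_of_key {K : Type*} [Field K] [CharZero K] (v : AddValuation K (WithTop ℝ))
    (hQ : ∀ c : ℚ, c ≠ 0 → v (algebraMap ℚ K c) = 0) (x : Fin 3 → K) (ω : Fin 3 → ℝ)
    (hx : ∀ i, v (x i) = (ω i : ℝ))
    (key : ∀ (h : MP) (m : Fin 3), aeval x (X m * pderiv m h) ≠ 0 →
      v (aeval x h) ≤ v (aeval x (X m * pderiv m h))) :
    ∀ (h : MP), ∀ s ∈ h.support, v (aeval x h) ≤ ((∑ i, s i * ω i : ℝ) : WithTop ℝ) := by
  intro h
  induction hn : h.support.card using Nat.strong_induction_on generalizing h with
  | _ n ih =>
    intro s hs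
    by_cases hr : ∃ r ∈ h.support, r ≠ s
    · obtain ⟨r, hr, hrs⟩ := hr
      obtain ⟨m, hm⟩ : ∃ m, r m ≠ s m := by
        by_contra hcon
        push Not at hcon
        exact hrs (Finsupp.ext hcon)
      set h' : MP := X m * pderiv m h - C (r m : ℚ) * h with hh'
      have hc : ∀ u, coeff u h' = ((u m : ℚ) - r m) * coeff u h := by
        intro u
        rw [hh', coeff_sub, coeff_X_mul_pderiv, coeff_C_mul]
        ring
      have hsub : h'.support ⊂ h.support := by
        rw [Finset.ssubset_iff_of_subset]
        · refine ⟨r, hr, ?_⟩
          rw [mem_support_iff, not_not, hc]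
          simp
        · intro u hu
          rw [mem_support_iff] at hu ⊢
          intro h0
          apply hu
          rw [hc, h0, mul_zero]
      have hs' : s ∈ h'.support := by
        rw [mem_support_iff, hc]
        rw [mem_support_iff] at hs
        apply mul_ne_zero _ hs
        rw [sub_ne_zero]
        exact_mod_cast fun h : s m = r m => hm h.symm
      have h1 := ih h'.support.card (hn ▸ Finset.card_lt_card hsub) h' rfl s hs'
      refine le_trans ?_ h1
      rw [hh', map_sub]
      have h2 : v (aeval x h) ≤ v (aeval x (X m * pderiv m h)) := by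
        by_cases h0 : aeval x (X m * pderiv m h) = 0
        · rw [h0, v.map_zero]; exact le_top
        · exact key h m h0
      have h3 : v (aeval x h) ≤ v (aeval x (C (r m : ℚ) * h)) := by
        rw [map_mul, v.map_mul]
        have : 0 ≤ v (aeval x (C (r m : ℚ) : MP)) := by
          rw [aeval_C]
          by_cases h0 : (r m : ℚ) = 0
          · rw [h0, map_zero, v.map_zero]; exact le_top
          · rw [hQ _ h0]
        calc v (aeval x h) = 0 + v (aeval x h) := (zero_add _).symm
          _ ≤ _ := add_le_add_left this _
      exact le_trans (le_min h2 h3) (v.map_sub _ _)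
    · push Not at hr
      have hsing : h.support = {s} := by
        ext u
        simp only [Finset.mem_singleton]
        exact ⟨hr u, fun hu => hu ▸ hs⟩
      have hh : h = monomial s (coeff s h) := by
        ext u
        rw [coeff_monomial]
        split_ifs with hu
        · rw [hu]
        · by_contra hne
          exact hu (hr u (mem_support_iff.2 hne)).symm
      rw [hh, aeval_monomial, v.map_mul, hQ _ (mem_support_iff.1 hs), zero_add]
      rw [Finsupp.prod_fintype _ _ (fun i => pow_zero _)]
      have : v (∏ i, x i ^ s i) = ∑ i, v (x i ^ s i) := by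
        rw [Fin.prod_univ_three, Fin.sum_univ_three, v.map_mul, v.map_mul]
      rw [this]
      push_cast
      apply le_of_eq
      apply Finset.sum_congr rfl
      intro i _
      rw [v.map_pow, hx, ← WithTop.coe_nsmul, nsmul_eq_mul]
      norm_cast

/-- chain rule -/
theorem pderiv_aeval_rat {k : Type*} [Field k] [CharZero k] (g : Fin 3 → R3 k) (m : Fin 3)
    (h : MP) : pderiv m (aeval g h) = ∑ r, aeval g (pderiv r h) * pderiv m (g r) := by
  induction h using MvPolynomial.induction_on with
  | C c =>
    rw [aeval_C]
    simp only [pderiv_C, map_zero, zero_mul, Finset.sum_const_zero]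
    rw [IsScalarTower.algebraMap_apply ℚ k (R3 k), MvPolynomial.algebraMap_eq, pderiv_C]
  | add p q hp hq =>
    simp only [map_add, hp, hq, add_mul, Finset.sum_add_distrib]
  | mul_X p i hp =>
    rw [map_mul, aeval_X, pderiv_mul, hp]
    simp only [pderiv_mul, map_add, map_mul, aeval_X, add_mul, Finset.sum_add_distrib]
    congr 1
    · rw [Finset.sum_mul]
      exact Finset.sum_congr rfl fun r _ => by ring
    · rw [Finset.sum_eq_single i]
      · simp
      · intro r _ hr
        simp [pderiv_X_of_ne hr.symm]
      · simp

end Run7.h405
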