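import Mathlib
import Pool.Agent.Run7.h405.Mono

/-! Charts and monomiality for valuations with `A(w) ≤ w(λ)`. -/

namespace Run7.h405

open MvPolynomial

variable {k : Type*} [Field k] [CharZero k]

/-- The embedding of polynomials in the function field. -/
noncomputable abbrev al (k : Type*) [Field k] : R3 k →+* K3 k := algebraMap (R3 k) (K3 k)

theorem al_inj (k : Type*) [Field k] : Function.Injective (al k) :=
  IsFractionRing.injective (R3 k) (K3 k)

theorem al_ne {k : Type*} [Field k] {f : R3 k} (hf : f ≠ 0) : al k f ≠ 0 :=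
  (map_ne_zero_iff _ (al_inj k)).2 hf

theorem v_ne_top {K : Type*} [Field K] (v : AddValuation K (WithTop ℝ)) {f : K} (hf : f ≠ 0) :
    v f ≠ ⊤ := by
  rwa [Ne, AddValuation.top_iff]

theorem v_real {K : Type*} [Field K] (v : AddValuation K (WithTop ℝ)) {f : K} (hf : f ≠ 0) :
    ∃ r : ℝ, v f = (r : WithTop ℝ) := by
  have := v_ne_top v hf
  exact ⟨(v f).untop this, (WithTop.coe_untop _ _).symm⟩

theorem al_aeval (g : Fin 3 → R3 k) (h : MP) :
    al k (aeval g h) = aeval (fun i => al k (g i)) h := by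
  rw [aeval_def, aeval_def, hom_eval₂]
  congr 1
  exact RingHom.ext_rat _ _

theorem jac_update (g : Fin 3 → R3 k) (h : MP) (m : Fin 3) :
    jac (Function.update g m (aeval g h)) = aeval g (pderiv m h) * jac g := by
  unfold jac
  rw [Matrix.det_fin_three, Matrix.det_fin_three]
  fin_cases m <;>
  · simp [Function.update, pderiv_aeval_rat, Fin.sum_univ_three]
    ring

/-- chart with last coordinate eliminated -/
noncomputable def cg (k : Type*) [Field k] (l : Fin 3) : Fin 3 → R3 k :=
  ![X (l + 1), X (l + 2), lam k]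

omit [CharZero k] in
theorem jac_cg (l : Fin 3) :
    jac (cg k l) = X (l + 1) * X (l + 2) - 4 * X l ^ 3 := by
  have e1 : (1 : Fin 3) + 1 = 2 := rfl
  have e2 : (1 : Fin 3) + 2 = 0 := rfl
  have e3 : (2 : Fin 3) + 1 = 0 := rfl
  have e4 : (2 : Fin 3) + 2 = 1 := rfl
  unfold jac cg
  rw [Matrix.det_fin_three]
  fin_cases l
  · simp [lam, pderiv_X]
    try ring
  · simp [lam, pderiv_X, e1, e2]
    try ring
  · simp [lam, pderiv_X, e3, e4]
    try ring

omit [CharZero k] in
theorem val_spec (w : Val k) {f : R3 k} (hf : f ≠ 0) :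
    w.v (al k f) = ((w.val f : ℝ) : WithTop ℝ) := by
  obtain ⟨r, hr⟩ := v_real w.v (al_ne hf)
  have : w.val f = r := by
    unfold Val.val
    change (w.v (al k f)).untopD 0 = r
    rw [hr]; rfl
  rw [this, hr]

omit [CharZero k] in
theorem val_X_pos (w : Val k) (i : Fin 3) : 0 < w.val (X i) := by
  have h := w.pos i
  change 0 < w.v (al k (X i)) at h
  rw [val_spec w (X_ne_zero i)] at h
  exact_mod_cast h

omit [CharZero k] in
theorem v_nonneg (w : Val k) (f : R3 k) : 0 ≤ w.v (al k f) := by
  induction f using MvPolynomial.induction_on with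
  | C c =>
    by_cases hc : c = 0
    · rw [hc, map_zero, map_zero, AddValuation.map_zero]; exact le_top
    · exact le_of_eq (w.triv c hc).symm
  | add p q hp hq =>
    rw [map_add]
    exact AddValuation.map_le_add _ hp hq
  | mul_X p i hp =>
    rw [map_mul, AddValuation.map_mul]
    exact add_nonneg hp (w.pos i).le

omit [CharZero k] in
theorem val_nonneg (w : Val k) (f : R3 k) : 0 ≤ w.val f := by
  by_cases hf : f = 0
  · subst hf
    unfold Val.val
    rw [map_zero, AddValuation.map_zero]
    exact le_refl _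
  · have := v_nonneg w f
    rw [val_spec w hf] at this
    exact_mod_cast this

omit [CharZero k] in
theorem val_mul (w : Val k) {f g : R3 k} (hf : f ≠ 0) (hg : g ≠ 0) :
    w.val (f * g) = w.val f + w.val g := by
  have h := val_spec w (mul_ne_zero hf hg)
  rw [map_mul, AddValuation.map_mul, val_spec w hf, val_spec w hg] at h
  exact_mod_cast h.symm

omit [CharZero k] in
theorem val_pow (w : Val k) {f : R3 k} (hf : f ≠ 0) (n : ℕ) :
    w.val (f ^ n) = n * w.val f := by
  have h := val_spec w (pow_ne_zero n hf)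
  rw [map_pow, AddValuation.map_pow, val_spec w hf, ← WithTop.coe_nsmul, nsmul_eq_mul] at h
  exact_mod_cast h.symm

omit [CharZero k] in
theorem lam_ne : lam k ≠ 0 := by
  intro h
  have := congrArg (eval ![1, 0, 0]) h
  simp [lam] at this

omit [CharZero k] in
theorem val_lam_pos (w : Val k) : 0 < w.val (lam k) := by
  have h : 0 < w.v (al k (lam k)) := by
    unfold lam
    simp only [map_sub]
    have hx : ∀ i : Fin 3, 0 < w.v (al k (X i ^ 4)) := by
      intro i
      rw [map_pow, AddValuation.map_pow]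
      have := w.pos i
      change 0 < w.v (al k (X i)) at this
      rw [val_spec w (X_ne_zero i)] at this ⊢
      rw [← WithTop.coe_nsmul]
      have h2 : (0 : ℝ) < w.val (X i) := by exact_mod_cast this
      have h3 : (0 : ℝ) < 4 • w.val (X i) := by rw [nsmul_eq_mul]; positivity
      exact_mod_cast h3
    have h0 : 0 < w.v (al k (X 0 * X 1 * X 2)) := by
      rw [map_mul (al k), map_mul (al k), AddValuation.map_mul, AddValuation.map_mul]
      exact lt_of_lt_of_le (w.pos 0) (le_trans (le_add_of_nonneg_right (w.pos 1).le)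
        (le_add_of_nonneg_right (w.pos 2).le))
    have hs : ∀ p q : K3 k, 0 < w.v p → 0 < w.v q → 0 < w.v (p - q) := fun p q hp hq =>
      lt_of_lt_of_le (lt_min hp hq) (w.v.map_sub p q)
    exact hs _ _ (hs _ _ (hs _ _ h0 (hx 0)) (hx 1)) (hx 2)
  rw [val_spec w lam_ne] at h
  exact_mod_cast h

omit [CharZero k] in
theorem chart_exists (w : Val k) :
    ∃ l : Fin 3, w.val (X (l + 1)) + w.val (X (l + 2)) < 3 * w.val (X l) := by
  by_contra hcon
  push Not at hcon
  have h0 := hcon 0
  have h1 := hcon 1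
  have h2 := hcon 2
  have e1 : (1 : Fin 3) + 1 = 2 := rfl
  have e2 : (1 : Fin 3) + 2 = 0 := rfl
  have e3 : (2 : Fin 3) + 1 = 0 := rfl
  have e4 : (2 : Fin 3) + 2 = 1 := rfl
  rw [e1, e2] at h1
  rw [e3, e4] at h2
  simp only [zero_add] at h0
  have p0 := val_X_pos w 0
  have p1 := val_X_pos w 1
  have p2 := val_X_pos w 2
  linarith

theorem v_jac_cg (w : Val k) (l : Fin 3)
    (h : w.val (X (l + 1)) + w.val (X (l + 2)) < 3 * w.val (X l)) :
    w.v (al k (jac (cg k l))) =
      ((w.val (X (l + 1)) + w.val (X (l + 2)) : ℝ) : WithTop ℝ) := by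
  rw [jac_cg, map_sub]
  have h1 : w.v (al k (X (l + 1) * X (l + 2))) =
      ((w.val (X (l + 1)) + w.val (X (l + 2)) : ℝ) : WithTop ℝ) := by
    rw [map_mul, AddValuation.map_mul, val_spec w (X_ne_zero _), val_spec w (X_ne_zero _)]
    norm_cast
  have h2 : w.v (al k (4 * X l ^ 3)) = ((3 * w.val (X l) : ℝ) : WithTop ℝ) := by
    have : (4 : R3 k) = C (4 : k) := (map_ofNat C 4).symm
    rw [map_mul, AddValuation.map_mul, this, w.triv 4 (by norm_num), map_pow,
      AddValuation.map_pow, zero_add, val_spec w (X_ne_zero _), ← WithTop.coe_nsmul, nsmul_eq_mul]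
    norm_cast
  rw [← h1]
  apply AddValuation.map_sub_eq_of_lt_left
  rw [h1, h2]
  exact_mod_cast h

theorem jac_cg_ne (w : Val k) (l : Fin 3)
    (h : w.val (X (l + 1)) + w.val (X (l + 2)) < 3 * w.val (X l)) : jac (cg k l) ≠ 0 := by
  intro h0
  have := v_jac_cg w l h
  rw [h0, map_zero, AddValuation.map_zero] at this
  exact WithTop.coe_ne_top this.symm

theorem lam_le_logDisc (w : Val k) : ENNReal.ofReal (w.val (lam k)) ≤ logDisc w := by
  obtain ⟨l, h⟩ := chart_exists w
  have hne := jac_cg_ne w l h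
  refine le_trans ?_ (le_iSup₂ (f := fun (f : Fin 3 → R3 k) (_ : jac f ≠ 0) =>
    ENNReal.ofReal (∑ i, w.val (f i) - w.val (jac f))) (cg k l) hne)
  apply ENNReal.ofReal_le_ofReal
  have h1 := v_jac_cg w l h
  rw [val_spec w hne] at h1
  have h2 : w.val (jac (cg k l)) = w.val (X (l + 1)) + w.val (X (l + 2)) := by
    exact_mod_cast h1
  rw [h2, Fin.sum_univ_three]
  simp only [cg, Matrix.cons_val_zero, Matrix.cons_val_one, Matrix.cons_val]
  linarith

/-- monomiality in a chart -/
theorem monomial_chart (w : Val k) (l : Fin 3)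
    (h : w.val (X (l + 1)) + w.val (X (l + 2)) < 3 * w.val (X l))
    (hA : ∀ f : Fin 3 → R3 k, jac f ≠ 0 →
      ∑ i, w.v (al k (f i)) ≤ w.v (al k (jac f)) + w.v (al k (lam k))) :
    ∀ p : MP, ∀ s ∈ p.support, w.v (aeval (fun i => al k (cg k l i)) p) ≤
      ((s 0 * w.val (X (l + 1)) + s 1 * w.val (X (l + 2)) + s 2 * w.val (lam k) : ℝ) :
        WithTop ℝ) := by
  have hne := jac_cg_ne w l h
  have hcg : ∀ i, cg k l i ≠ 0 := by
    intro i
    fin_cases i
    · exact X_ne_zero _
    · exact X_ne_zero _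
    · exact lam_ne
  have hsum : w.v (al k (jac (cg k l))) + w.v (al k (lam k)) = ∑ i, w.v (al k (cg k l i)) := by
    rw [v_jac_cg w l h, Fin.sum_univ_three]
    simp only [cg, Matrix.cons_val_zero, Matrix.cons_val_one, Matrix.cons_val]
    rw [val_spec w (X_ne_zero (l+1)), val_spec w (X_ne_zero (l+2))]
    norm_cast
  intro p s hs
  have := mono_of_key w.v (?_) (fun i => al k (cg k l i)) (fun i => w.val (cg k l i))
    (fun i => val_spec w (hcg i)) ?_ p s hs
  · refine le_trans this (le_of_eq ?_)
    rw [Fin.sum_univ_three]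
    simp only [cg, Matrix.cons_val_zero, Matrix.cons_val_one, Matrix.cons_val]
  · intro c hc
    have : algebraMap ℚ (K3 k) c = al k (C (c : k)) := by
      have h1 : (al k).comp ((C : k →+* R3 k).comp (algebraMap ℚ k)) = algebraMap ℚ (K3 k) :=
        RingHom.ext_rat _ _
      rw [← h1, RingHom.comp_apply, RingHom.comp_apply, eq_ratCast]
    rw [this]
    exact w.triv _ (by exact_mod_cast hc)
  · intro h' m h0
    rw [map_mul, aeval_X] at h0 ⊢
    rw [← al_aeval, ← al_aeval] at *
    have h1 : aeval (cg k l) (pderiv m h') ≠ 0 := by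
      intro h2
      apply h0
      rw [h2, map_zero, mul_zero]
    have h2 : jac (Function.update (cg k l) m (aeval (cg k l) h')) ≠ 0 := by
      rw [jac_update]
      exact mul_ne_zero h1 hne
    have h3 := hA _ h2
    rw [jac_update, map_mul, AddValuation.map_mul, add_assoc, hsum] at h3
    have h4 : ∑ i, w.v (al k (Function.update (cg k l) m (aeval (cg k l) h') i)) =
        w.v (al k (aeval (cg k l) h')) + ∑ i ∈ Finset.univ.erase m, w.v (al k (cg k l i)) := by
      rw [← Finset.add_sum_erase _ _ (Finset.mem_univ m)]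
      congr 1
      · simp
      · apply Finset.sum_congr rfl
        intro i hi
        rw [Function.update_of_ne (Finset.ne_of_mem_erase hi)]
    rw [h4, ← Finset.add_sum_erase _ _ (Finset.mem_univ m), ← add_assoc] at h3
    have h5 : ∑ i ∈ Finset.univ.erase m, w.v (al k (cg k l i)) ≠ ⊤ := by
      rw [WithTop.sum_ne_top]
      intro i _
      exact v_ne_top _ (al_ne (hcg i))
    have h6 := (WithTop.add_le_add_iff_right h5).1 h3
    rw [AddValuation.map_mul, add_comm (w.v (al k (cg k l m)))]
    exact h6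

end Run7.h405
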