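import Mathlib
import Pool.Agent.Run7.h405.Stmt
import Pool.Agent.Run7.h405.Chart

/-! Comparison of the definitions of `Stmt.lean` with the working definitions of `Defs.lean`. -/

namespace Run7.h405

open MvPolynomial Filter
open scoped ENNReal

variable {k : Type*} [Field k]

/-- `w` and `u` take the same values on nonzero polynomials -/
def Same (w : E.Val k) (u : Val k) : Prop := ∀ f : R3 k, f ≠ 0 → w.v f = u.val f

/-- restriction to polynomials -/
noncomputable def ofOld (u : Val k) : E.Val k where
  v := u.val
  map_mul := fun f g hf hg => val_mul u hf hg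
  map_add := by
    intro f g hf hg hfg
    have h := u.v.map_add (al k f) (al k g)
    rw [← map_add, val_spec u hf, val_spec u hg, val_spec u hfg] at h
    exact_mod_cast h
  map_C := by
    intro c hc
    have h := u.triv c hc
    change u.v (al k (C c)) = 0 at h
    rw [val_spec u (by simpa using hc)] at h
    exact_mod_cast h
  pos := fun i => val_X_pos u i

theorem same_ofOld (u : Val k) : Same (ofOld u) u := fun _ _ => rfl

open Classical in
/-- the valuation on polynomials with value `⊤` at `0` -/
noncomputable def polV (w : E.Val k) : AddValuation (R3 k) (WithTop ℝ) :=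
  AddValuation.of (fun f => if f = 0 then ⊤ else ((w.v f : ℝ) : WithTop ℝ)) (by simp)
    (by
      have h := w.map_C 1 one_ne_zero
      rw [map_one] at h
      simp [h])
    (by
      intro f g
      by_cases hf : f = 0
      · simp [hf]
      by_cases hg : g = 0
      · simp [hg]
      by_cases hfg : f + g = 0
      · simp [hfg]
      simp only [hf, hg, hfg, if_false]
      exact_mod_cast w.map_add f g hf hg hfg)
    (by
      intro f g
      by_cases hf : f = 0
      · simp [hf]
      by_cases hg : g = 0
      · simp [hg]
      simp only [hf, hg, mul_ne_zero hf hg, if_false]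
      exact_mod_cast w.map_mul f g hf hg)

theorem polV_apply (w : E.Val k) {f : R3 k} (hf : f ≠ 0) :
    polV w f = ((w.v f : ℝ) : WithTop ℝ) := if_neg hf

theorem exists_ext (w : E.Val k) :
    ∃ u : AddValuation (K3 k) (WithTop ℝ), ∀ f : R3 k, f ≠ 0 →
      u (al k f) = ((w.v f : ℝ) : WithTop ℝ) := by
  have hS : nonZeroDivisors (R3 k) ≤ (AddValuation.toValuation (polV w)).supp.primeCompl := by
    intro f hf
    have hf0 : f ≠ 0 := nonZeroDivisors.ne_zero hf
    change f ∉ (AddValuation.toValuation (polV w)).supp
    rw [Valuation.mem_supp_iff]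
    intro h
    have h1 : polV w f = ⊤ := h
    rw [polV_apply w hf0] at h1
    exact WithTop.coe_ne_top h1
  refine ⟨AddValuation.ofValuation ((AddValuation.toValuation (polV w)).extendToLocalization hS
    (K3 k)), ?_⟩
  intro f hf
  have h := (AddValuation.toValuation (polV w)).extendToLocalization_apply_map_apply hS (K3 k) f
  rw [← polV_apply w hf]
  exact h

/-- extension to the function field -/
noncomputable def toOld (w : E.Val k) : Val k where
  v := (exists_ext w).choose
  triv := by
    intro c hc
    have h := (exists_ext w).choose_spec (C c) (by simpa using hc)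
    rw [w.map_C c hc] at h
    exact h
  pos := by
    intro i
    have h := (exists_ext w).choose_spec (X i) (X_ne_zero i)
    change 0 < (exists_ext w).choose (al k (X i))
    rw [h]
    exact_mod_cast w.pos i

theorem toOld_v (w : E.Val k) {f : R3 k} (hf : f ≠ 0) :
    (toOld w).v (al k f) = ((w.v f : ℝ) : WithTop ℝ) := (exists_ext w).choose_spec f hf

theorem same_toOld (w : E.Val k) : Same w (toOld w) := by
  intro f hf
  have h := toOld_v w hf
  rw [val_spec _ hf] at h
  exact_mod_cast h.symm

theorem jac_eq (f : Fin 3 → R3 k) : E.jac f = jac f := rfl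

theorem ne_zero_of_jac' {f : Fin 3 → R3 k} (h : jac f ≠ 0) (i : Fin 3) : f i ≠ 0 := by
  intro h0
  apply h
  unfold jac
  apply Matrix.det_eq_zero_of_row_eq_zero i
  intro j
  simp [h0]

theorem Same.logDisc {w : E.Val k} {u : Val k} (h : Same w u) :
    E.logDisc w = Run7.h405.logDisc u := by
  unfold E.logDisc Run7.h405.logDisc
  refine iSup_congr fun f => iSup_congr fun hf => ?_
  rw [jac_eq] at hf
  rw [jac_eq, h _ hf, Finset.sum_congr rfl (fun i _ => h (f i) (ne_zero_of_jac' hf i))]

theorem Same.idl {w : E.Val k} {u : Val k} (h : Same w u) (I : Ideal (R3 k)) :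
    w.idl I = u.idl I := by
  unfold E.Val.idl Val.idl
  congr 1
  apply Set.image_congr
  intro f hf
  exact h f hf.2

/-- graded sequences in the other format -/
def seqOf (a : GradedSeq k) : E.GradedSeq k where
  a := a.a
  mul_le := a.mul_le
  primary := fun m hm => (a.primary m hm).1
  radical_eq := fun m hm => (a.primary m hm).2

theorem Same.seq {w : E.Val k} {u : Val k} (h : Same w u) (a : GradedSeq k) :
    w.seq (seqOf a) = u.seq a := by
  unfold E.Val.seq Val.seq
  congr 1
  funext m
  rw [h.idl]
  rfl

theorem lct_seqOf (a : GradedSeq k) : E.lct (seqOf a) = lct a := by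
  unfold E.lct lct
  apply le_antisymm
  · refine le_iInf fun u => iInf_le_of_le (ofOld u) ?_
    rw [(same_ofOld u).logDisc, (same_ofOld u).seq]
  · refine le_iInf fun w => iInf_le_of_le (toOld w) ?_
    rw [(same_toOld w).logDisc, (same_toOld w).seq]

theorem Same.mem_LCP {w : E.Val k} {u : Val k} (h : Same w u) (a : GradedSeq k) :
    w ∈ E.LCP (seqOf a) ↔ u ∈ LCP a := by
  unfold E.LCP LCP
  rw [Set.mem_setOf_eq, Set.mem_setOf_eq, lct_seqOf, h.logDisc, h.seq]

end Run7.h405
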