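import Mathlib
import Pool.Agent.Run7.h405.Bridge

/-! Finite generation of the graded algebra bounds the value semigroup. -/

namespace Run7.h405

open MvPolynomial

variable {k : Type*} [Field k]

/-- the elements `∑ f_r t^r` with `v(f_r) ≥ r` -/
noncomputable def bdd (u : Val k) : Subalgebra k (AddMonoidAlgebra (R3 k) ℝ) where
  carrier := {s | ∀ r : ℝ, ((r : WithTop ℝ)) ≤ u.v (al k (s.coeff r))}
  mul_mem' := by
    intro s t hs ht r
    classical
    rw [AddMonoidAlgebra.coeff_mul, Finsupp.sum, map_sum]
    apply AddValuation.map_le_sum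
    intro i _
    rw [Finsupp.sum, map_sum]
    apply AddValuation.map_le_sum
    intro j _
    split_ifs with h
    · rw [map_mul, AddValuation.map_mul, ← h]
      push_cast
      exact add_le_add (hs i) (ht j)
    · simp
  add_mem' := by
    intro s t hs ht r
    rw [AddMonoidAlgebra.coeff_add, Finsupp.add_apply, map_add]
    exact AddValuation.map_le_add _ (hs r) (ht r)
  algebraMap_mem' := by
    intro c r
    rw [AddMonoidAlgebra.coe_algebraMap, Function.comp_apply, AddMonoidAlgebra.coeff_single,
      Finsupp.single_apply]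
    split_ifs with h
    · subst h
      by_cases hc : c = 0
      · simp [hc]
      · rw [MvPolynomial.algebraMap_eq, u.triv c hc]
        simp
    · simp

theorem Rees_le (w : E.Val k) : E.Rees w ≤ bdd (toOld w) := by
  classical
  apply Algebra.adjoin_le
  rintro s ⟨r, f, hr, hf, hrf, rfl⟩ r'
  rw [AddMonoidAlgebra.coeff_single, Finsupp.single_apply]
  split_ifs with h
  · subst h
    rw [toOld_v w hf]
    exact_mod_cast hrf
  · rw [map_zero, AddValuation.map_zero]
    exact le_top

theorem rees_bound (w : E.Val k) (s : E.ReesAlg w) (r : ℝ) :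
    (r : WithTop ℝ) ≤ (toOld w).v (al k (s.1.coeff r)) := Rees_le w s.2 r

theorem above_bound (w : E.Val k) (s : E.ReesAlg w) (hs : s ∈ E.above w) :
    ∀ r : ℝ, (r : WithTop ℝ) < (toOld w).v (al k (s.1.coeff r)) := by
  classical
  unfold E.above at hs
  induction hs using Submodule.span_induction with
  | mem s hs =>
    obtain ⟨r, f, hr, hf, hrf, hs⟩ := hs
    intro r'
    rw [hs, AddMonoidAlgebra.coeff_single, Finsupp.single_apply]
    split_ifs with h
    · subst h
      rw [toOld_v w hf]
      exact_mod_cast hrf
    · rw [map_zero, AddValuation.map_zero]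
      exact WithTop.coe_lt_top _
  | zero =>
    intro r
    have h0 : ((0 : E.ReesAlg w)).1 = 0 := rfl
    rw [h0]
    simp
  | add s t _ _ hs ht =>
    intro r
    have h0 : (s + t).1 = s.1 + t.1 := rfl
    rw [h0, AddMonoidAlgebra.coeff_add, Finsupp.add_apply, map_add]
    exact AddValuation.map_lt_add _ (hs r) (ht r)
  | smul s t _ ht =>
    intro r
    have h0 : (s • t).1 = s.1 * t.1 := rfl
    rw [h0, AddMonoidAlgebra.coeff_mul, Finsupp.sum, map_sum]
    apply AddValuation.map_lt_sum _ (WithTop.coe_ne_top)
    intro i _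
    rw [Finsupp.sum, map_sum]
    apply AddValuation.map_lt_sum _ (WithTop.coe_ne_top)
    intro j _
    split_ifs with h
    · rw [map_mul, AddValuation.map_mul, ← h]
      push_cast
      exact WithTop.add_lt_add_of_le_of_lt (WithTop.coe_ne_top) (rees_bound w s i) (ht j)
    · simp

/-- elements whose essential degrees lie in `M` -/
noncomputable def AME (w : E.Val k) (M : AddSubmonoid ℝ) : Subalgebra k (E.ReesAlg w) where
  carrier := {s | ∀ r : ℝ, ((r : WithTop ℝ)) < (toOld w).v (al k (s.1.coeff r)) ∨ r ∈ M}
  mul_mem' := by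
    intro s t hs ht r
    classical
    by_cases hr : r ∈ M
    · exact Or.inr hr
    left
    have h0 : (s * t).1 = s.1 * t.1 := rfl
    rw [h0, AddMonoidAlgebra.coeff_mul, Finsupp.sum, map_sum]
    apply AddValuation.map_lt_sum _ (WithTop.coe_ne_top)
    intro i _
    rw [Finsupp.sum, map_sum]
    apply AddValuation.map_lt_sum _ (WithTop.coe_ne_top)
    intro j _
    split_ifs with h
    · rw [map_mul, AddValuation.map_mul, ← h]
      push_cast
      rcases hs i with hi | hi
      · exact WithTop.add_lt_add_of_lt_of_le (WithTop.coe_ne_top) hi (rees_bound w t j)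
      rcases ht j with hj | hj
      · exact WithTop.add_lt_add_of_le_of_lt (WithTop.coe_ne_top) (rees_bound w s i) hj
      · exfalso
        apply hr
        rw [← h]
        exact M.add_mem hi hj
    · simp
  add_mem' := by
    intro s t hs ht r
    rcases hs r with h1 | h1
    · rcases ht r with h2 | h2
      · left
        have h := AddValuation.map_lt_add (toOld w).v h1 h2
        rw [← map_add] at h
        exact h
      · exact Or.inr h2
    · exact Or.inr h1
  algebraMap_mem' := by
    classical
    intro c r
    by_cases h : r = 0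
    · right
      rw [h]
      exact M.zero_mem
    · left
      have : ((algebraMap k (E.ReesAlg w) c : E.ReesAlg w)).1 =
          algebraMap k (AddMonoidAlgebra (R3 k) ℝ) c := rfl
      rw [this, AddMonoidAlgebra.coe_algebraMap, Function.comp_apply,
        AddMonoidAlgebra.coeff_single, Finsupp.single_apply, if_neg (Ne.symm h), map_zero,
        AddValuation.map_zero]
      exact WithTop.coe_lt_top _

theorem gr_valuesE (w : E.Val k) (hft : Algebra.FiniteType k (E.Gr w)) :
    ∃ S : Finset (R3 k), (∀ h ∈ S, h ≠ 0) ∧ ∀ f : R3 k, f ≠ 0 →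
      w.v f ∈ AddSubmonoid.closure (w.v '' (S : Set (R3 k))) := by
  classical
  obtain ⟨T0, hT0⟩ := hft.out
  have hsurj : Function.Surjective (Ideal.Quotient.mkₐ k (E.above w)) :=
    Ideal.Quotient.mkₐ_surjective k (E.above w)
  set lift : E.Gr w → E.ReesAlg w := Function.surjInv hsurj with hlift
  set T : Finset (E.ReesAlg w) := T0.image lift with hT
  set S : Finset (R3 k) := T.biUnion (fun t => t.1.coeff.support.image (fun r => t.1.coeff r))
    with hS
  refine ⟨S, ?_, ?_⟩
  · intro h hh
    rw [hS, Finset.mem_biUnion] at hh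
    obtain ⟨t, _, ht⟩ := hh
    rw [Finset.mem_image] at ht
    obtain ⟨r, hr, rfl⟩ := ht
    exact Finsupp.mem_support_iff.1 hr
  set M := AddSubmonoid.closure (w.v '' (S : Set (R3 k))) with hM
  have hTA : ∀ t ∈ T, t ∈ AME w M := by
    intro t ht r
    by_cases h0 : t.1.coeff r = 0
    · left
      rw [h0, map_zero, AddValuation.map_zero]
      exact WithTop.coe_lt_top _
    · have h1 := rees_bound w t r
      rw [toOld_v w h0] at h1
      rcases lt_or_eq_of_le h1 with h2 | h2
      · left
        rw [toOld_v w h0]
        exact h2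
      · right
        have h3 : r = w.v (t.1.coeff r) := by exact_mod_cast h2
        rw [h3]
        apply AddSubmonoid.subset_closure
        refine ⟨_, ?_, rfl⟩
        rw [Finset.mem_coe, hS, Finset.mem_biUnion]
        exact ⟨t, ht, Finset.mem_image.2 ⟨r, Finsupp.mem_support_iff.2 h0, rfl⟩⟩
  have htop : (AME w M).map (Ideal.Quotient.mkₐ k (E.above w)) = ⊤ := by
    rw [eq_top_iff, ← hT0]
    apply Algebra.adjoin_le
    intro g hg
    refine ⟨lift g, hTA _ ?_, Function.surjInv_eq hsurj g⟩
    rw [hT, Finset.mem_image]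
    exact ⟨g, hg, rfl⟩
  have hall : ∀ s : E.ReesAlg w, s ∈ AME w M := by
    intro s
    have h1 : Ideal.Quotient.mkₐ k (E.above w) s ∈
        (AME w M).map (Ideal.Quotient.mkₐ k (E.above w)) := by
      rw [htop]; trivial
    obtain ⟨s', hs', hss⟩ := h1
    have h2 : s - s' ∈ E.above w := by
      rw [← Ideal.Quotient.eq]
      exact hss.symm
    have h3 : s - s' ∈ AME w M := fun r => Or.inl (above_bound w _ h2 r)
    have h5 := (AME w M).add_mem h3 hs'
    have e : (s - s') + s' = s := sub_add_cancel s s'
    convert h5 using 1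
    exact e.symm
  intro f hf
  have hnn : 0 ≤ w.v f := by
    rw [same_toOld w f hf]
    exact val_nonneg _ f
  have hmem : AddMonoidAlgebra.single (w.v f) f ∈ E.Rees w :=
    Algebra.subset_adjoin ⟨w.v f, f, hnn, hf, le_refl _, rfl⟩
  rcases hall ⟨_, hmem⟩ (w.v f) with h | h
  · exfalso
    rw [AddMonoidAlgebra.coeff_single, Finsupp.single_apply, if_pos rfl, toOld_v w hf] at h
    exact lt_irrefl _ h
  · exact h

end Run7.h405
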