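import Mathlib

/-! Representatives of `ℤ²` modulo a sublattice. -/

namespace Run7.h405

/-- `(α,β) ↦ α P + β Q` -/
def latMap (P1 P2 Q1 Q2 : ℤ) : (Fin 2 → ℤ) →ₗ[ℤ] (Fin 2 → ℤ) :=
  Matrix.toLin' !![P1, Q1; P2, Q2]

theorem latMap_apply (P1 P2 Q1 Q2 : ℤ) (u : Fin 2 → ℤ) :
    latMap P1 P2 Q1 Q2 u = ![u 0 * P1 + u 1 * Q1, u 0 * P2 + u 1 * Q2] := by
  unfold latMap
  ext i
  rw [Matrix.toLin'_apply]
  fin_cases i <;> simp [Matrix.mulVec, dotProduct, Fin.sum_univ_two] <;> ring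

theorem latMap_inj {P1 P2 Q1 Q2 : ℤ} (h : P1 * Q2 - P2 * Q1 ≠ 0) :
    Function.Injective (latMap P1 P2 Q1 Q2) := by
  rw [injective_iff_map_eq_zero]
  intro u hu
  rw [latMap_apply] at hu
  have h0 := congrFun hu 0
  have h1 := congrFun hu 1
  simp at h0 h1
  have e0 : u 0 * (P1 * Q2 - P2 * Q1) = 0 := by linear_combination Q2 * h0 - Q1 * h1
  have e1 : u 1 * (P1 * Q2 - P2 * Q1) = 0 := by linear_combination P1 * h1 - P2 * h0
  have f0 := (mul_eq_zero.1 e0).resolve_right h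
  have f1 := (mul_eq_zero.1 e1).resolve_right h
  ext i
  fin_cases i
  · exact f0
  · exact f1

theorem latMap_card {P1 P2 Q1 Q2 : ℤ} (h : P1 * Q2 - P2 * Q1 ≠ 0) :
    Nat.card ((Fin 2 → ℤ) ⧸ LinearMap.range (latMap P1 P2 Q1 Q2)) =
      (P1 * Q2 - P2 * Q1).natAbs := by
  have h1 := Submodule.natAbs_det_equiv (LinearMap.range (latMap P1 P2 Q1 Q2))
    (LinearEquiv.ofInjective (latMap P1 P2 Q1 Q2) (latMap_inj h))
  rw [← h1]
  congr 1
  have h2 : ((LinearMap.range (latMap P1 P2 Q1 Q2)).subtype ∘ₗ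
      AddMonoidHom.toIntLinearMap
        ((LinearEquiv.ofInjective (latMap P1 P2 Q1 Q2) (latMap_inj h)) :
          (Fin 2 → ℤ) →+ LinearMap.range (latMap P1 P2 Q1 Q2))) = latMap P1 P2 Q1 Q2 := by
    ext u
    rfl
  rw [h2]
  unfold latMap
  rw [LinearMap.det_toLin', Matrix.det_fin_two]
  simp
  ring

theorem mem_range_of_dvd {P1 P2 Q1 Q2 : ℤ} {m : ℕ}
    (hm : (P1 * Q2 - P2 * Q1).natAbs = m) (w : Fin 2 → ℤ) :
    (fun i => (m : ℤ) * w i) ∈ LinearMap.range (latMap P1 P2 Q1 Q2) := by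
  have key : (fun i => (P1 * Q2 - P2 * Q1) * w i) ∈ LinearMap.range (latMap P1 P2 Q1 Q2) := by
    refine ⟨![w 0 * Q2 - w 1 * Q1, P1 * w 1 - P2 * w 0], ?_⟩
    rw [latMap_apply]
    ext i
    fin_cases i
    · simp; ring
    · simp; ring
  rcases Int.natAbs_eq (P1 * Q2 - P2 * Q1) with h | h
  · rw [hm] at h
    rw [← h]
    exact key
  · rw [hm] at h
    have h2 := (LinearMap.range (latMap P1 P2 Q1 Q2)).neg_mem key
    convert h2 using 1
    ext i
    simp only [Pi.neg_apply]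
    rw [h]; ring

theorem reps (P1 P2 Q1 Q2 : ℤ) (m : ℕ) (hm0 : 0 < m)
    (hm : (P1 * Q2 - P2 * Q1).natAbs = m) :
    ∃ r : Fin m → ℕ × ℕ, (∀ c, (r c).1 < m ∧ (r c).2 < m) ∧
      ∀ c c' (α β α' β' : ℤ),
        ((r c).1 : ℤ) + α * P1 + β * Q1 = (r c').1 + α' * P1 + β' * Q1 →
        ((r c).2 : ℤ) + α * P2 + β * Q2 = (r c').2 + α' * P2 + β' * Q2 →
        c = c' ∧ α = α' ∧ β = β' := by
  have hdet : P1 * Q2 - P2 * Q1 ≠ 0 := by
    intro h; rw [h] at hm; simp at hm; omega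
  have hcard := latMap_card hdet
  rw [hm] at hcard
  have : Finite ((Fin 2 → ℤ) ⧸ LinearMap.range (latMap P1 P2 Q1 Q2)) :=
    Nat.finite_of_card_ne_zero (by omega)
  let e := Finite.equivFinOfCardEq hcard
  let u : Fin m → Fin 2 → ℤ := fun c => Quotient.out (e.symm c)
  have hu : ∀ c, Submodule.Quotient.mk (u c) = e.symm c := fun c => Quotient.out_eq _
  have hmZ : (0 : ℤ) < m := by exact_mod_cast hm0
  have hnn : ∀ c i, 0 ≤ u c i % m := fun c i => Int.emod_nonneg _ hmZ.ne'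
  have hlt : ∀ c i, u c i % m < m := fun c i => Int.emod_lt_of_pos _ hmZ
  refine ⟨fun c => ((u c 0 % m).toNat, (u c 1 % m).toNat), ?_, ?_⟩
  · intro c
    have := hlt c 0
    have := hlt c 1
    constructor <;> simp only <;> omega
  · intro c c' α β α' β' h1 h2
    simp only at h1 h2
    rw [Int.toNat_of_nonneg (hnn c 0), Int.toNat_of_nonneg (hnn c' 0)] at h1
    rw [Int.toNat_of_nonneg (hnn c 1), Int.toNat_of_nonneg (hnn c' 1)] at h2
    have hcc : c = c' := by
      apply e.symm.injective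
      rw [← hu c, ← hu c', Submodule.Quotient.eq]
      have e1 : u c - u c' = (fun i => (m : ℤ) * (fun i => u c i / m - u c' i / m) i) +
          latMap P1 P2 Q1 Q2 ![α' - α, β' - β] := by
        rw [latMap_apply]
        ext i
        have d1 := Int.emod_add_mul_ediv (u c i) m
        have d2 := Int.emod_add_mul_ediv (u c' i) m
        fin_cases i
        · simp only [Fin.zero_eta, Pi.sub_apply, Pi.add_apply, Matrix.cons_val_zero,
            Matrix.cons_val_one] at *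
          linear_combination d2 - d1 + h1
        · simp only [Fin.mk_one, Pi.sub_apply, Pi.add_apply, Matrix.cons_val_zero,
            Matrix.cons_val_one] at *
          linear_combination d2 - d1 + h2
      rw [e1]
      exact Submodule.add_mem _ (mem_range_of_dvd hm _) (LinearMap.mem_range_self _ _)
    subst hcc
    refine ⟨rfl, ?_, ?_⟩
    · have : (α - α') * (P1 * Q2 - P2 * Q1) = 0 := by linear_combination Q2 * h1 - Q1 * h2
      have := (mul_eq_zero.1 this).resolve_right hdet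
      omega
    · have : (β - β') * (P1 * Q2 - P2 * Q1) = 0 := by linear_combination P1 * h2 - P2 * h1
      have := (mul_eq_zero.1 this).resolve_right hdet
      omega

end Run7.h405
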