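import Mathlib
import Pool.Agent.Run7.h405.Chart

/-! Domination of valuations with the same monomial restriction. -/

namespace Run7.h405

open MvPolynomial

/-- `k[x,y,λ] → k[x,y,z]` -/
noncomputable def phi (k : Type*) [Field k] : R3 k →ₐ[k] R3 k :=
  aeval ![X 0, X 1, lam k]

theorem phi_integral (k : Type*) [Field k] (f : R3 k) :
    (phi k : R3 k →+* R3 k).IsIntegralElem f := by
  induction f using MvPolynomial.induction_on with
  | C c =>
    have : (C c : R3 k) = (phi k : R3 k →+* R3 k) (C c) := by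
      simp [phi]
    rw [this]
    exact RingHom.isIntegralElem_map _
  | add p q hp hq => exact hp.add _ hq
  | mul_X p i hp =>
    apply hp.mul
    fin_cases i
    · have : (X 0 : R3 k) = (phi k : R3 k →+* R3 k) (X 0) := by simp [phi]
      change (phi k : R3 k →+* R3 k).IsIntegralElem (X 0)
      rw [this]
      exact RingHom.isIntegralElem_map _
    · have : (X 1 : R3 k) = (phi k : R3 k →+* R3 k) (X 1) := by simp [phi]
      change (phi k : R3 k →+* R3 k).IsIntegralElem (X 1)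
      rw [this]
      exact RingHom.isIntegralElem_map _
    · change (phi k : R3 k →+* R3 k).IsIntegralElem (X 2)
      refine ⟨Polynomial.X ^ 4 + (Polynomial.C (-(X 0 * X 1) : R3 k) * Polynomial.X +
        Polynomial.C (X 2 + X 0 ^ 4 + X 1 ^ 4)), ?_, ?_⟩
      · apply Polynomial.monic_X_pow_add
        refine lt_of_le_of_lt (Polynomial.degree_add_le _ _) ?_
        apply max_lt
        · exact lt_of_le_of_lt (Polynomial.degree_C_mul_X_le _) (by norm_num)
        · exact lt_of_le_of_lt Polynomial.degree_C_le (by norm_num)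
      · rw [Polynomial.eval₂_add, Polynomial.eval₂_add, Polynomial.eval₂_mul,
          Polynomial.eval₂_pow, Polynomial.eval₂_X, Polynomial.eval₂_C, Polynomial.eval₂_C]
        simp [phi, lam]
        ring

theorem exists_mul_phi (k : Type*) [Field k] {f : R3 k} (hf : f ≠ 0) :
    ∃ g h : R3 k, h ≠ 0 ∧ f * g = phi k h := by
  obtain ⟨p, hp, hp0⟩ := phi_integral k f
  have h1 := Ideal.comap_ne_bot_of_root_mem (f := (phi k : R3 k →+* R3 k))
    (I := Ideal.span {f}) hf (Ideal.mem_span_singleton_self f) hp.ne_zero hp0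
  obtain ⟨h, hh, hne⟩ := Submodule.exists_mem_ne_zero_of_ne_bot h1
  rw [Ideal.mem_comap, Ideal.mem_span_singleton] at hh
  obtain ⟨g, hg⟩ := hh
  exact ⟨g, h, hne, hg.symm⟩

/-- value of a monomial -/
noncomputable def mv (ω : Fin 3 → ℝ) (s : Fin 3 →₀ ℕ) : ℝ := ∑ i, s i * ω i

theorem v_monomial {k : Type*} [Field k] {K : Type*} [Field K] [Algebra k K]
    (v : AddValuation K (WithTop ℝ))
    (hv : ∀ c : k, c ≠ 0 → v (algebraMap k K c) = 0) (x : Fin 3 → K) (ω : Fin 3 → ℝ)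
    (hx : ∀ i, v (x i) = (ω i : ℝ)) (s : Fin 3 →₀ ℕ) {c : k} (hc : c ≠ 0) :
    v (aeval x (monomial s c)) = (mv ω s : ℝ) := by
  rw [aeval_monomial, v.map_mul, hv _ hc, zero_add]
  rw [Finsupp.prod_fintype _ _ (fun i => pow_zero _)]
  have : v (∏ i, x i ^ s i) = ∑ i, v (x i ^ s i) := by
    rw [Fin.prod_univ_three, Fin.sum_univ_three, v.map_mul, v.map_mul]
  rw [this]
  unfold mv
  push_cast
  apply Finset.sum_congr rfl
  intro i _
  rw [v.map_pow, hx, ← WithTop.coe_nsmul, nsmul_eq_mul]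
  norm_cast

theorem v_indep {k : Type*} [Field k] {K : Type*} [Field K] [Algebra k K]
    (v : AddValuation K (WithTop ℝ))
    (hv : ∀ c : k, c ≠ 0 → v (algebraMap k K c) = 0) (x : Fin 3 → K) (ω : Fin 3 → ℝ)
    (hx : ∀ i, v (x i) = (ω i : ℝ)) (hind : ∀ s t : Fin 3 →₀ ℕ, mv ω s = mv ω t → s = t)
    {h : R3 k} (s : Fin 3 →₀ ℕ) (hs : s ∈ h.support) (hmin : ∀ t ∈ h.support, mv ω s ≤ mv ω t) :
    v (aeval x h) = (mv ω s : ℝ) := by
  classical
  have h1 : h = monomial s (coeff s h) + (h - monomial s (coeff s h)) := by ring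
  rw [h1, map_add]
  have h2 := v_monomial v hv x ω hx s (mem_support_iff.1 hs)
  rw [← h2]
  apply AddValuation.map_add_eq_of_lt_left
  rw [h2, (h - monomial s (coeff s h)).as_sum, map_sum]
  apply AddValuation.map_lt_sum v (WithTop.coe_ne_top)
  intro t ht
  rw [mem_support_iff] at ht
  rw [v_monomial v hv x ω hx t ht]
  rw [coeff_sub, coeff_monomial] at ht
  have hst : s ≠ t := by
    rintro rfl
    simp at ht
  rw [if_neg hst, sub_zero] at ht
  have h3 := hmin t (mem_support_iff.2 ht)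
  have h4 : mv ω s ≠ mv ω t := fun h => hst (hind s t h)
  exact_mod_cast lt_of_le_of_ne h3 h4

theorem mv_three (ω : Fin 3 → ℝ) (s : Fin 3 →₀ ℕ) :
    mv ω s = s 0 * ω 0 + s 1 * ω 1 + s 2 * ω 2 := by
  unfold mv
  rw [Fin.sum_univ_three]

theorem mv_indep {a b : ℝ}
    (hind : ∀ l m n : ℤ, (l : ℝ) + m * a + n * b = 0 → l = 0 ∧ m = 0 ∧ n = 0)
    (s t : Fin 3 →₀ ℕ) (h : mv ![a, b, 1] s = mv ![a, b, 1] t) : s = t := by
  rw [mv_three, mv_three] at h
  simp only [Matrix.cons_val_zero, Matrix.cons_val_one, Matrix.cons_val] at h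
  have h1 := hind ((s 2 : ℤ) - t 2) ((s 0 : ℤ) - t 0) ((s 1 : ℤ) - t 1) (by
    push_cast
    linarith)
  ext i
  fin_cases i
  · have := h1.2.1
    simp only [Fin.zero_eta]
    omega
  · have := h1.2.2
    simp only [Fin.mk_one]
    omega
  · have := h1.1
    simp only [Fin.reduceFinMk]
    omega

theorem al_aeval_k {k : Type*} [Field k] (g : Fin 3 → R3 k) (h : R3 k) :
    al k (aeval g h) = aeval (fun i => al k (g i)) h := by
  have := aeval_algebraMap_apply (R := k) (A := R3 k) (K3 k) g h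
  rw [← this]
  rfl

theorem exists_min (ω : Fin 3 → ℝ) {k : Type*} [Field k] {h : R3 k} (hh : h ≠ 0) :
    ∃ s ∈ h.support, ∀ t ∈ h.support, mv ω s ≤ mv ω t := by
  have : h.support.Nonempty := by
    rw [Finset.nonempty_iff_ne_empty, Ne, support_eq_empty]
    exact hh
  exact h.support.exists_min_image (mv ω) this

/-- value on `k[x,y,λ]` -/
theorem v_phi {k : Type*} [Field k] (v : AddValuation (K3 k) (WithTop ℝ))
    (hv : ∀ c : k, c ≠ 0 → v (al k (C c)) = 0) (ω : Fin 3 → ℝ)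
    (hx : ∀ i, v (al k ((![X 0, X 1, lam k] : Fin 3 → R3 k) i)) = (ω i : ℝ))
    (hind : ∀ s t : Fin 3 →₀ ℕ, mv ω s = mv ω t → s = t) {h : R3 k} {s : Fin 3 →₀ ℕ}
    (hs : s ∈ h.support) (hmin : ∀ t ∈ h.support, mv ω s ≤ mv ω t) :
    v (al k (phi k h)) = (mv ω s : ℝ) := by
  unfold phi
  rw [al_aeval_k]
  apply v_indep v _ _ ω hx hind s hs hmin
  intro c hc
  have := hv c hc
  rwa [← MvPolynomial.algebraMap_eq, ← IsScalarTower.algebraMap_apply k (R3 k) (K3 k)] at this

theorem eq_of_weights {k : Type*} [Field k] (v w : AddValuation (K3 k) (WithTop ℝ))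
    (hv : ∀ c : k, c ≠ 0 → v (al k (C c)) = 0) (hw : ∀ c : k, c ≠ 0 → w (al k (C c)) = 0)
    (ω : Fin 3 → ℝ)
    (hx : ∀ i, v (al k ((![X 0, X 1, lam k] : Fin 3 → R3 k) i)) = (ω i : ℝ))
    (hx' : ∀ i, w (al k ((![X 0, X 1, lam k] : Fin 3 → R3 k) i)) = (ω i : ℝ))
    (hind : ∀ s t : Fin 3 →₀ ℕ, mv ω s = mv ω t → s = t)
    (hge : ∀ f : R3 k, v (al k f) ≤ w (al k f)) (f : R3 k) : w (al k f) = v (al k f) := by
  by_cases hf : f = 0
  · rw [hf, map_zero, AddValuation.map_zero, AddValuation.map_zero]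
  obtain ⟨g, h, hh, hfg⟩ := exists_mul_phi k hf
  obtain ⟨s, hs, hmin⟩ := exists_min ω hh
  have h1 := v_phi v hv ω hx hind hs hmin
  have h2 := v_phi w hw ω hx' hind hs hmin
  rw [← hfg, map_mul (al k), AddValuation.map_mul] at h1 h2
  have hg : g ≠ 0 := by
    rintro rfl
    rw [map_zero, AddValuation.map_zero, add_top] at h1
    exact WithTop.coe_ne_top h1.symm
  have h3 := hge f
  have h4 := hge g
  obtain ⟨a1, e1⟩ := v_real v (al_ne hf)
  obtain ⟨a2, e2⟩ := v_real v (al_ne hg)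
  obtain ⟨a3, e3⟩ := v_real w (al_ne hf)
  obtain ⟨a4, e4⟩ := v_real w (al_ne hg)
  rw [e1, e2] at h1
  rw [e3, e4] at h2
  rw [e1, e3] at h3
  rw [e2, e4] at h4
  rw [e1, e3]
  norm_cast at h1 h2 h3 h4 ⊢
  linarith

end Run7.h405
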