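import Mathlib
import Pool.Agent.Run7.h405.Extend

/-! Counting lattice points and dimension bound. -/

namespace Run7.h405

open MvPolynomial

/-- lattice points of the tetrahedron -/
def T3 (N : ℕ) : Finset (Σ _ : ℕ, Σ _ : ℕ, ℕ) :=
  (Finset.range (N+1)).sigma fun i => (Finset.range (N+1-i)).sigma fun j =>
    Finset.range (N+1-i-j)

theorem mem_T3 {N i j l : ℕ} : (⟨i, ⟨j, l⟩⟩ : Σ _ : ℕ, Σ _ : ℕ, ℕ) ∈ T3 N ↔ i + j + l ≤ N := by
  simp only [T3, Finset.mem_sigma, Finset.mem_range]
  omega

theorem sum_sub (n : ℕ) : 2 * ∑ j ∈ Finset.range n, (n - j) = n * (n + 1) := by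
  induction n with
  | zero => simp
  | succ n ih =>
    rw [Finset.sum_range_succ']
    simp only [Nat.sub_zero]
    have : ∑ j ∈ Finset.range n, (n + 1 - (j + 1)) = ∑ j ∈ Finset.range n, (n - j) := by
      apply Finset.sum_congr rfl
      intro j _
      omega
    rw [this, mul_add, ih]
    ring

theorem card_T3 (N : ℕ) : 6 * (T3 N).card = (N + 1) * (N + 2) * (N + 3) := by
  have h1 : (T3 N).card = ∑ i ∈ Finset.range (N+1), ∑ j ∈ Finset.range (N+1-i), (N+1-i-j) := by
    simp [T3, Finset.card_sigma]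
  rw [h1]
  have key : ∀ n : ℕ, 6 * ∑ i ∈ Finset.range n, ∑ j ∈ Finset.range (n-i), (n-i-j) =
      n * (n+1) * (n+2) := by
    intro n
    induction n with
    | zero => simp
    | succ n ih =>
      rw [Finset.sum_range_succ']
      have e : ∑ i ∈ Finset.range n, ∑ j ∈ Finset.range (n+1-(i+1)), (n+1-(i+1)-j) =
          ∑ i ∈ Finset.range n, ∑ j ∈ Finset.range (n-i), (n-i-j) := by
        apply Finset.sum_congr rfl
        intro i _
        rw [show n + 1 - (i + 1) = n - i by omega]
      rw [e, mul_add, ih]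
      simp only [Nat.sub_zero]
      have h2 := sum_sub (n+1)
      nlinarith
  rw [key (N+1)]

/-- exponent vector -/
noncomputable def fs (i j l : ℕ) : Fin 3 →₀ ℕ := Finsupp.equivFunOnFinite.symm ![i, j, l]

theorem card_le_T3 {k : Type*} [Field k] {ι : Type*} [Fintype ι] (g : ι → R3 k)
    (hli : LinearIndependent k g) (N : ℕ) (hdeg : ∀ i, (g i).totalDegree ≤ N) :
    Fintype.card ι ≤ (T3 N).card := by
  classical
  let Φ : R3 k →ₗ[k] (T3 N → k) :=
    LinearMap.pi fun s => MvPolynomial.lcoeff k (fs s.1.1 s.1.2.1 s.1.2.2)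
  have hΦ : ∀ p : R3 k, p.totalDegree ≤ N → Φ p = 0 → p = 0 := by
    intro p hp h0
    ext s
    rw [coeff_zero]
    by_contra hne
    have hs : s ∈ p.support := mem_support_iff.2 hne
    have hd : s.sum (fun _ e => e) ≤ N := le_trans (le_totalDegree hs) hp
    rw [Finsupp.sum_fintype _ _ (fun _ => rfl), Fin.sum_univ_three] at hd
    have h1 := congrFun h0 ⟨⟨s 0, ⟨s 1, s 2⟩⟩, mem_T3.2 hd⟩
    apply hne
    have h2 : fs (s 0) (s 1) (s 2) = s := by
      ext i
      fin_cases i <;> rfl
    rw [← h2]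
    exact h1
  have hli2 : LinearIndependent k (fun i => Φ (g i)) := by
    rw [Fintype.linearIndependent_iff] at hli ⊢
    intro c hc
    apply hli c
    apply hΦ
    · refine le_trans (totalDegree_finsetSum _ _) ?_
      apply Finset.sup_le
      intro i _
      exact le_trans (totalDegree_smul_le _ _) (hdeg i)
    · rw [map_sum, ← hc]
      apply Finset.sum_congr rfl
      intro i _
      rw [map_smul]
  have := hli2.fintype_card_le_finrank
  rwa [Module.finrank_fintype_fun_eq_card, Fintype.card_coe] at this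

theorem li_of_values {k : Type*} [Field k] {ι : Type*} [Fintype ι]
    (v : AddValuation (K3 k) (WithTop ℝ))
    (triv : ∀ c : k, c ≠ 0 → v (al k (C c)) = 0) (g : ι → R3 k) (hg : ∀ i, g i ≠ 0)
    (hinj : ∀ i j, v (al k (g i)) = v (al k (g j)) → i = j) : LinearIndependent k g := by
  classical
  rw [Fintype.linearIndependent_iff]
  intro c hc
  by_contra hcon
  push Not at hcon
  obtain ⟨i1, hi1⟩ := hcon
  let s : Finset ι := Finset.univ.filter (fun i => c i ≠ 0)
  have hs : s.Nonempty := ⟨i1, by simp [s, hi1]⟩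
  obtain ⟨i0, hi0, hmin⟩ := s.exists_min_image (fun i => v (al k (g i))) hs
  have hc0 : c i0 ≠ 0 := by simpa [s] using hi0
  have hvc : ∀ i, c i ≠ 0 → v (al k (c i • g i)) = v (al k (g i)) := by
    intro i hi
    rw [MvPolynomial.smul_eq_C_mul, map_mul, AddValuation.map_mul, triv _ hi, zero_add]
  have h1 : al k (c i0 • g i0) + ∑ i ∈ Finset.univ.erase i0, al k (c i • g i) = 0 := by
    rw [Finset.add_sum_erase _ (fun i => al k (c i • g i)) (Finset.mem_univ i0), ← map_sum, hc,
      map_zero]
  have h2 : v (al k (c i0 • g i0)) < v (∑ i ∈ Finset.univ.erase i0, al k (c i • g i)) := by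
    apply AddValuation.map_lt_sum v
    · rw [hvc i0 hc0]
      exact v_ne_top v (al_ne (hg i0))
    · intro i hi
      by_cases hci : c i = 0
      · rw [hci, zero_smul, map_zero, AddValuation.map_zero, hvc i0 hc0]
        exact lt_top_iff_ne_top.2 (v_ne_top v (al_ne (hg i0)))
      · rw [hvc i0 hc0, hvc i hci]
        apply lt_of_le_of_ne (hmin i (by simp [s, hci]))
        intro h
        exact Finset.ne_of_mem_erase hi (hinj i0 i h).symm
  have h3 := AddValuation.map_add_eq_of_lt_left v h2
  rw [h1, AddValuation.map_zero, hvc i0 hc0] at h3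
  exact v_ne_top v (al_ne (hg i0)) h3.symm

end Run7.h405
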