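import Mathlib
import Pool.Agent.Run7.h405.CountA
import Pool.Agent.Run7.h405.CountB

/-! Families of polynomials with distinct values. -/

namespace Run7.h405

open MvPolynomial

theorem v_pow_real {K : Type*} [Field K] (v : AddValuation K (WithTop ℝ)) {f : K} {x : ℝ}
    (h : v f = (x : ℝ)) (n : ℕ) : v (f ^ n) = ((n * x : ℝ) : WithTop ℝ) := by
  rw [v.map_pow, h, ← WithTop.coe_nsmul, nsmul_eq_mul]

theorem v_mul_real {K : Type*} [Field K] (v : AddValuation K (WithTop ℝ)) {f g : K} {x y : ℝ}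
    (hf : v f = (x : ℝ)) (hg : v g = (y : ℝ)) : v (f * g) = ((x + y : ℝ) : WithTop ℝ) := by
  rw [v.map_mul, hf, hg]; norm_cast

theorem euclid_unique {n a o a' o' : ℕ} (ho : o < n) (ho' : o' < n)
    (h : a * n + o = a' * n + o') : a = a' ∧ o = o' := by
  have hn : 0 < n := by omega
  have h1 : (a * n + o) / n = a := by
    rw [Nat.mul_comm, Nat.mul_add_div hn, Nat.div_eq_of_lt ho, add_zero]
  have h2 : (a' * n + o') / n = a' := by
    rw [Nat.mul_comm, Nat.mul_add_div hn, Nat.div_eq_of_lt ho', add_zero]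
  have h3 : a = a' := by rw [← h1, ← h2, h]
  subst h3
  exact ⟨rfl, by omega⟩

theorem totalDegree_lam (k : Type*) [Field k] : (lam k).totalDegree ≤ 4 := by
  have hX : ∀ i : Fin 3, (X i ^ 4 : R3 k).totalDegree ≤ 4 := by
    intro i
    refine le_trans (totalDegree_pow _ _) ?_
    rw [totalDegree_X]
  have h3 : (X 0 * X 1 * X 2 : R3 k).totalDegree ≤ 4 := by
    refine le_trans (totalDegree_mul _ _) ?_
    have h1 := totalDegree_mul (X 0 : R3 k) (X 1)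
    rw [totalDegree_X, totalDegree_X] at h1
    rw [totalDegree_X]
    omega
  unfold lam
  refine le_trans (totalDegree_sub _ _) (max_le ?_ (hX 2))
  refine le_trans (totalDegree_sub _ _) (max_le ?_ (hX 1))
  exact le_trans (totalDegree_sub _ _) (max_le h3 (hX 0))

theorem totalDegree_pow_le {k : Type*} [Field k] {f : R3 k} {d : ℕ} (h : f.totalDegree ≤ d)
    (n : ℕ) : (f ^ n).totalDegree ≤ d * n := by
  refine le_trans (totalDegree_pow _ _) ?_
  rw [mul_comm]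
  exact Nat.mul_le_mul_right _ h

theorem family {k : Type*} [Field k] (a b : ℝ)
    (v : AddValuation (K3 k) (WithTop ℝ))
    (hx : v (al k (X 0)) = (a : ℝ)) (hy : v (al k (X 1)) = (b : ℝ))
    (hl : v (al k (lam k)) = (1 : ℝ))
    (p q : R3 k) (p0 p1 p2 q0 q1 q2 : ℤ)
    (hp : v (al k p) = (((p0 : ℝ) + p1 * a + p2 * b : ℝ) : WithTop ℝ))
    (hq : v (al k q) = (((q0 : ℝ) + q1 * a + q2 * b : ℝ) : WithTop ℝ))
    (dp dq : ℕ) (hp' : p.totalDegree ≤ dp) (hq' : q.totalDegree ≤ dq)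
    (m : ℕ) (hm0 : 0 < m) (hm : (p1 * q2 - p2 * q1).natAbs = m) (B K' : ℕ) :
    ∃ (ι : Type) (_ : Fintype ι) (g : ι → R3 k) (E : ι → ℤ × ℤ × ℤ),
      Fintype.card ι = m * (T3 K').card * ((dp * dq) * (4 * dq) * (4 * dp)) ∧
      (∀ i, (g i).totalDegree ≤ 2 * m + dq * B + 4 * dp * dq * (K' + 3)) ∧
      (∀ i, v (al k (g i)) =
        ((((E i).1 : ℝ) + (E i).2.1 * a + (E i).2.2 * b : ℝ) : WithTop ℝ)) ∧
      Function.Injective E ∧
      ∀ i, ∃ r1 r2 α β : ℕ, r1 < m ∧ r2 < m ∧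
        (E i).2.1 = r1 + α * p1 + (β + B) * q1 ∧ (E i).2.2 = r2 + α * p2 + (β + B) * q2 := by
  obtain ⟨r, hr1, hr2⟩ := reps p1 p2 q1 q2 m hm0 hm
  let L : (T3 K') × Fin (dp * dq) → ℕ := fun t => t.1.1.1 * (dp * dq) + t.2
  let Al : (T3 K') × Fin (4 * dq) → ℕ := fun t => t.1.1.2.1 * (4 * dq) + t.2
  let Be : (T3 K') × Fin (4 * dp) → ℕ := fun t => t.1.1.2.2 * (4 * dp) + t.2
  let ι := (Fin m × (T3 K')) × ((Fin (dp * dq) × Fin (4 * dq)) × Fin (4 * dp))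
  refine ⟨ι, inferInstance,
    fun i => X 0 ^ (r i.1.1).1 * X 1 ^ (r i.1.1).2 * lam k ^ L (i.1.2, i.2.1.1) *
      p ^ Al (i.1.2, i.2.1.2) * q ^ (Be (i.1.2, i.2.2) + B),
    fun i => ((L (i.1.2, i.2.1.1) : ℤ) + Al (i.1.2, i.2.1.2) * p0 +
        (Be (i.1.2, i.2.2) + B) * q0,
      (r i.1.1).1 + Al (i.1.2, i.2.1.2) * p1 + (Be (i.1.2, i.2.2) + B) * q1,
      (r i.1.1).2 + Al (i.1.2, i.2.1.2) * p2 + (Be (i.1.2, i.2.2) + B) * q2),
    ?_, ?_, ?_, ?_, ?_⟩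
  · simp [ι, Fintype.card_prod]
  · rintro ⟨⟨c, t⟩, ⟨⟨o1, o2⟩, o3⟩⟩
    simp only
    have ht : t.1.1 + t.1.2.1 + t.1.2.2 ≤ K' := mem_T3.1 t.2
    refine le_trans (totalDegree_mul _ _) ?_
    have h5 := totalDegree_pow_le hq' (Be (t, o3) + B)
    have h4 := totalDegree_pow_le hp' (Al (t, o2))
    have h3 := totalDegree_pow_le (totalDegree_lam k) (L (t, o1))
    have h1 : (X 0 ^ (r c).1 : R3 k).totalDegree ≤ (r c).1 := by
      simp
    have h2 : (X 1 ^ (r c).2 : R3 k).totalDegree ≤ (r c).2 := by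
      simp
    have h6 := totalDegree_mul (X 0 ^ (r c).1 : R3 k) (X 1 ^ (r c).2)
    have h7 := totalDegree_mul (X 0 ^ (r c).1 * X 1 ^ (r c).2 : R3 k) (lam k ^ L (t, o1))
    have h8 := totalDegree_mul (X 0 ^ (r c).1 * X 1 ^ (r c).2 * lam k ^ L (t, o1) : R3 k)
      (p ^ Al (t, o2))
    have hrc := hr1 c
    have hL : 4 * L (t, o1) ≤ 4 * dp * dq * (t.1.1 + 1) := by
      have := o1.2
      simp only [L]
      nlinarith
    have hAl : dp * Al (t, o2) ≤ 4 * dp * dq * (t.1.2.1 + 1) := by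
      have h9 : Al (t, o2) ≤ (4 * dq) * (t.1.2.1 + 1) := by
        have := o2.2
        simp only [Al]
        nlinarith
      calc dp * Al (t, o2) ≤ dp * ((4 * dq) * (t.1.2.1 + 1)) := Nat.mul_le_mul_left _ h9
        _ = _ := by ring
    have hBe : dq * Be (t, o3) ≤ 4 * dp * dq * (t.1.2.2 + 1) := by
      have h9 : Be (t, o3) ≤ (4 * dp) * (t.1.2.2 + 1) := by
        have := o3.2
        simp only [Be]
        nlinarith
      calc dq * Be (t, o3) ≤ dq * ((4 * dp) * (t.1.2.2 + 1)) := Nat.mul_le_mul_left _ h9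
        _ = _ := by ring
    have hsum : 4 * dp * dq * (t.1.1 + 1) + 4 * dp * dq * (t.1.2.1 + 1) +
        4 * dp * dq * (t.1.2.2 + 1) ≤ 4 * dp * dq * (K' + 3) := by
      rw [← mul_add, ← mul_add]
      exact Nat.mul_le_mul_left _ (by omega)
    rw [mul_add dq] at h5
    omega
  · rintro ⟨⟨c, t⟩, ⟨⟨o1, o2⟩, o3⟩⟩
    simp only
    have h := v_mul_real v (v_mul_real v (v_mul_real v (v_mul_real v
      (v_pow_real v hx (r c).1) (v_pow_real v hy (r c).2)) (v_pow_real v hl (L (t, o1))))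
      (v_pow_real v hp (Al (t, o2)))) (v_pow_real v hq (Be (t, o3) + B))
    simp only [map_mul, map_pow]
    rw [h]
    congr 1
    push_cast
    ring
  · rintro ⟨⟨c, t⟩, ⟨⟨o1, o2⟩, o3⟩⟩ ⟨⟨c', t'⟩, ⟨⟨o1', o2'⟩, o3'⟩⟩ heq
    simp only [Prod.mk.injEq] at heq
    obtain ⟨e0, e1, e2⟩ := heq
    obtain ⟨hc, hα, hβ⟩ := hr2 c c' _ _ _ _ e1 e2
    rw [hα, hβ] at e0
    have hL : L (t, o1) = L (t', o1') := by
      have : (L (t, o1) : ℤ) = L (t', o1') := by linarith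
      exact_mod_cast this
    have hA : Al (t, o2) = Al (t', o2') := by exact_mod_cast hα
    have hB : Be (t, o3) = Be (t', o3') := by
      have : (Be (t, o3) : ℤ) = Be (t', o3') := by linarith
      exact_mod_cast this
    obtain ⟨l1, l2⟩ := euclid_unique o1.2 o1'.2 hL
    obtain ⟨a1, a2⟩ := euclid_unique o2.2 o2'.2 hA
    obtain ⟨b1, b2⟩ := euclid_unique o3.2 o3'.2 hB
    have ht : t = t' := by
      apply Subtype.ext
      rcases t with ⟨⟨x1, ⟨x2, x3⟩⟩, hx⟩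
      rcases t' with ⟨⟨y1, ⟨y2, y3⟩⟩, hy⟩
      simp only at l1 a1 b1
      subst l1 a1 b1
      rfl
    have e3 : o1 = o1' := Fin.ext l2
    have e4 : o2 = o2' := Fin.ext a2
    have e5 : o3 = o3' := Fin.ext b2
    rw [hc, ht, e3, e4, e5]
  · rintro ⟨⟨c, t⟩, ⟨⟨o1, o2⟩, o3⟩⟩
    exact ⟨(r c).1, (r c).2, Al (t, o2), Be (t, o3), (hr1 c).1, (hr1 c).2, rfl, rfl⟩

end Run7.h405
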