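import Mathlib
import Pool.Agent.Run7.h405.CountC

/-! The two-cones inequality. -/

namespace Run7.h405

open MvPolynomial Filter Topology

theorem cubic_limit (A B a b H C : ℝ)
    (h : ∀ K : ℕ, 3 ≤ K → A * (a * K - 2) ^ 3 + B * (b * K - 2) ^ 3 ≤ (H * K + C) ^ 3) :
    A * a ^ 3 + B * b ^ 3 ≤ H ^ 3 := by
  have h0 : Tendsto (fun K : ℕ => (2 : ℝ) / K) atTop (𝓝 0) :=
    tendsto_const_div_atTop_nhds_zero_nat 2
  have hC : Tendsto (fun K : ℕ => C / (K : ℝ)) atTop (𝓝 0) :=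
    tendsto_const_div_atTop_nhds_zero_nat C
  have h1 : Tendsto (fun K : ℕ => A * (a - 2 / K) ^ 3 + B * (b - 2 / (K : ℝ)) ^ 3) atTop
      (𝓝 (A * (a - 0) ^ 3 + B * (b - 0) ^ 3)) :=
    (((tendsto_const_nhds.sub h0).pow 3).const_mul A).add
      (((tendsto_const_nhds.sub h0).pow 3).const_mul B)
  have h2 : Tendsto (fun K : ℕ => (H + C / (K : ℝ)) ^ 3) atTop (𝓝 ((H + 0) ^ 3)) :=
    (tendsto_const_nhds.add hC).pow 3
  rw [sub_zero, sub_zero] at h1
  rw [add_zero] at h2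
  apply le_of_tendsto_of_tendsto h1 h2
  filter_upwards [eventually_ge_atTop 3] with K hK
  have hKpos : (0 : ℝ) < K := by
    have : 0 < K := by omega
    exact_mod_cast this
  have h3 := h K hK
  have e1 : a - 2 / K = (a * K - 2) / K := by field_simp
  have e2 : b - 2 / K = (b * K - 2) / K := by field_simp
  have e3 : H + C / K = (H * K + C) / K := by field_simp
  rw [e1, e2, e3, div_pow, div_pow, div_pow, ← mul_div_assoc, ← mul_div_assoc, ← add_div]
  exact div_le_div_of_nonneg_right h3 (by positivity)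

theorem two_cones {k : Type*} [Field k] (a b : ℝ)
    (hind : ∀ l m n : ℤ, (l : ℝ) + m * a + n * b = 0 → l = 0 ∧ m = 0 ∧ n = 0)
    (v : AddValuation (K3 k) (WithTop ℝ))
    (triv : ∀ c : k, c ≠ 0 → v (algebraMap (R3 k) (K3 k) (C c)) = 0)
    (hx : v (algebraMap (R3 k) (K3 k) (X 0)) = (a : ℝ))
    (hy : v (algebraMap (R3 k) (K3 k) (X 1)) = (b : ℝ))
    (hl : v (algebraMap (R3 k) (K3 k) (lam k)) = (1 : ℝ))
    (p q f : R3 k) (p0 p1 p2 q0 q1 q2 f0 f1 f2 : ℤ)
    (hp : v (algebraMap (R3 k) (K3 k) p) = (((p0 : ℝ) + p1 * a + p2 * b : ℝ) : WithTop ℝ))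
    (hq : v (algebraMap (R3 k) (K3 k) q) = (((q0 : ℝ) + q1 * a + q2 * b : ℝ) : WithTop ℝ))
    (hf : v (algebraMap (R3 k) (K3 k) f) = (((f0 : ℝ) + f1 * a + f2 * b : ℝ) : WithTop ℝ))
    (dp dq df : ℕ) (hdp : 0 < dp) (hdq : 0 < dq) (hdf : 0 < df)
    (hp' : p.totalDegree ≤ dp) (hq' : q.totalDegree ≤ dq) (hf' : f.totalDegree ≤ df)
    (hdet : (p1 * q2 - p2 * q1) * (p1 * f2 - p2 * f1) < 0) :
    |p1 * q2 - p2 * q1| * df + |p1 * f2 - p2 * f1| * dq ≤ 4 * dp * dq * df := by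
  classical
  set m : ℕ := (p1 * q2 - p2 * q1).natAbs with hm
  set e : ℕ := (p1 * f2 - p2 * f1).natAbs with he
  have hd1 : p1 * q2 - p2 * q1 ≠ 0 := by
    intro h; rw [h, zero_mul] at hdet; exact lt_irrefl _ hdet
  have hd2 : p1 * f2 - p2 * f1 ≠ 0 := by
    intro h; rw [h, mul_zero] at hdet; exact lt_irrefl _ hdet
  have hm0 : 0 < m := Int.natAbs_pos.2 hd1
  have he0 : 0 < e := Int.natAbs_pos.2 hd2
  set B : ℕ := (p1.natAbs + p2.natAbs) * (m + e) + 1 with hB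
  have main : ∀ K : ℕ, 3 ≤ K →
      m * (T3 (df * K - 3)).card * ((dp * dq) * (4 * dq) * (4 * dp)) +
      e * (T3 (dq * K - 3)).card * ((dp * df) * (4 * df) * (4 * dp)) ≤
        (T3 (4 * dp * dq * df * K + (2 * m + 2 * e + df * B))).card := by
    intro K hK
    have hK1 : 3 ≤ df * K := le_trans hK (Nat.le_mul_of_pos_left _ hdf)
    have hK2 : 3 ≤ dq * K := le_trans hK (Nat.le_mul_of_pos_left _ hdq)
    obtain ⟨ι₁, _, g₁, E₁, hc₁, hd₁, hv₁, hi₁, hs₁⟩ := family a b v hx hy hl p q p0 p1 p2 q0 q1 q2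
      hp hq dp dq hp' hq' m hm0 hm.symm 0 (df * K - 3)
    obtain ⟨ι₂, _, g₂, E₂, hc₂, hd₂, hv₂, hi₂, hs₂⟩ := family a b v hx hy hl p f p0 p1 p2 f0 f1 f2
      hp hf dp df hp' hf' e he0 he.symm B (dq * K - 3)
    have hv : ∀ i : ι₁ ⊕ ι₂, v (al k (Sum.elim g₁ g₂ i)) =
        ((((Sum.elim E₁ E₂ i).1 : ℝ) + (Sum.elim E₁ E₂ i).2.1 * a +
          (Sum.elim E₁ E₂ i).2.2 * b : ℝ) : WithTop ℝ) := by
      rintro (i | i)
      · exact hv₁ i
      · exact hv₂ i
    have hcross : ∀ i j, E₁ i ≠ E₂ j := by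
      intro i j hij
      obtain ⟨r1, r2, α, β, h1, h2, h3, h4⟩ := hs₁ i
      obtain ⟨r1', r2', α', β', h1', h2', h3', h4'⟩ := hs₂ j
      rw [hij] at h3 h4
      rw [h3] at h3'
      rw [h4] at h4'
      have key : (β : ℤ) * (p1 * q2 - p2 * q1) - (β' + B) * (p1 * f2 - p2 * f1) =
          p1 * ((r2' : ℤ) - r2) - p2 * ((r1' : ℤ) - r1) := by
        push_cast at h3' h4'
        linear_combination p1 * h4' - p2 * h3'
      have hb2 : |(r2' : ℤ) - r2| ≤ m + e := by rw [abs_le]; constructor <;> omega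
      have hb1 : |(r1' : ℤ) - r1| ≤ m + e := by rw [abs_le]; constructor <;> omega
      have hR : |p1 * ((r2' : ℤ) - r2) - p2 * ((r1' : ℤ) - r1)| < B := by
        calc |p1 * ((r2' : ℤ) - r2) - p2 * ((r1' : ℤ) - r1)|
            ≤ |p1 * ((r2' : ℤ) - r2)| + |p2 * ((r1' : ℤ) - r1)| := abs_sub _ _
          _ = |p1| * |(r2' : ℤ) - r2| + |p2| * |(r1' : ℤ) - r1| := by rw [abs_mul, abs_mul]
          _ ≤ |p1| * (m + e) + |p2| * (m + e) := by
              gcongr
          _ < B := by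
              rw [hB]; push_cast
              rw [Int.natCast_natAbs, Int.natCast_natAbs]
              linarith
      rw [← key, abs_lt] at hR
      have hβ : (0 : ℤ) ≤ β := Int.natCast_nonneg _
      have hβ' : (0 : ℤ) ≤ β' := Int.natCast_nonneg _
      have hB0 : (0 : ℤ) < B := by rw [hB]; push_cast; positivity
      rcases lt_or_gt_of_ne hd1 with hneg | hpos
      · have h5 : 0 < p1 * f2 - p2 * f1 := by
          by_contra hcon
          push Not at hcon
          have := mul_nonneg_of_nonpos_of_nonpos hneg.le hcon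
          linarith
        have h6 : (β : ℤ) * (p1 * q2 - p2 * q1) ≤ 0 := mul_nonpos_of_nonneg_of_nonpos hβ hneg.le
        have h7 : (B : ℤ) ≤ (β' + B) * (p1 * f2 - p2 * f1) := by nlinarith
        linarith [hR.1]
      · have h5 : p1 * f2 - p2 * f1 < 0 := by
          by_contra hcon
          push Not at hcon
          have := mul_nonneg hpos.le hcon
          linarith
        have h6 : 0 ≤ (β : ℤ) * (p1 * q2 - p2 * q1) := mul_nonneg hβ hpos.le
        have h7 : (β' + B) * (p1 * f2 - p2 * f1) ≤ -(B : ℤ) := by nlinarith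
        linarith [hR.2]
    have hEinj : Function.Injective (Sum.elim E₁ E₂) :=
      Function.Injective.sumElim hi₁ hi₂ hcross
    have hli : LinearIndependent k (Sum.elim g₁ g₂) := by
      apply li_of_values v triv
      · intro i h0
        have := hv i
        rw [h0, map_zero, AddValuation.map_zero] at this
        exact WithTop.coe_ne_top this.symm
      · intro i j hij
        rw [hv i, hv j] at hij
        have h1 : ((Sum.elim E₁ E₂ i).1 : ℝ) + (Sum.elim E₁ E₂ i).2.1 * a +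
          (Sum.elim E₁ E₂ i).2.2 * b = ((Sum.elim E₁ E₂ j).1 : ℝ) +
          (Sum.elim E₁ E₂ j).2.1 * a + (Sum.elim E₁ E₂ j).2.2 * b := by exact_mod_cast hij
        have h2 := hind ((Sum.elim E₁ E₂ i).1 - (Sum.elim E₁ E₂ j).1)
          ((Sum.elim E₁ E₂ i).2.1 - (Sum.elim E₁ E₂ j).2.1)
          ((Sum.elim E₁ E₂ i).2.2 - (Sum.elim E₁ E₂ j).2.2) (by push_cast; linarith)
        apply hEinj
        ext
        · linarith [h2.1]
        · linarith [h2.2.1]
        · linarith [h2.2.2]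
    have hcard := card_le_T3 (Sum.elim g₁ g₂) hli
      (4 * dp * dq * df * K + (2 * m + 2 * e + df * B)) (by
      rintro (i | i)
      · refine le_trans (hd₁ i) ?_
        rw [show df * K - 3 + 3 = df * K by omega]
        have : 4 * dp * dq * (df * K) = 4 * dp * dq * df * K := by ring
        rw [this]
        omega
      · refine le_trans (hd₂ i) ?_
        rw [show dq * K - 3 + 3 = dq * K by omega]
        have : 4 * dp * df * (dq * K) = 4 * dp * dq * df * K := by ring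
        rw [this]
        omega)
    rw [Fintype.card_sum, hc₁, hc₂] at hcard
    exact hcard
  have main2 : ∀ K : ℕ, 3 ≤ K →
      (m * 16 * dp ^ 2 * dq ^ 2 : ℝ) * (df * K - 2) ^ 3 +
      (e * 16 * dp ^ 2 * df ^ 2 : ℝ) * (dq * K - 2) ^ 3 ≤
        ((4 * dp * dq * df : ℝ) * K + ((2 * m + 2 * e + df * B : ℕ) + 3 : ℝ)) ^ 3 := by
    intro K hK
    have hK1 : 3 ≤ df * K := le_trans hK (Nat.le_mul_of_pos_left _ hdf)
    have hK2 : 3 ≤ dq * K := le_trans hK (Nat.le_mul_of_pos_left _ hdq)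
    have h1 := main K hK
    have c1 := card_T3 (df * K - 3)
    have c2 := card_T3 (dq * K - 3)
    have c3 := card_T3 (4 * dp * dq * df * K + (2 * m + 2 * e + df * B))
    obtain ⟨n1, hn1⟩ := Nat.exists_eq_add_of_le hK1
    obtain ⟨n2, hn2⟩ := Nat.exists_eq_add_of_le hK2
    rw [hn1, Nat.add_sub_cancel_left] at c1
    rw [hn2, Nat.add_sub_cancel_left] at c2
    rw [hn1, hn2, Nat.add_sub_cancel_left, Nat.add_sub_cancel_left] at h1
    set N3 := 4 * dp * dq * df * K + (2 * m + 2 * e + df * B) with hN3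
    have r1 : (df : ℝ) * K = 3 + n1 := by exact_mod_cast hn1
    have r2 : (dq : ℝ) * K = 3 + n2 := by exact_mod_cast hn2
    have c1' : 6 * ((T3 n1).card : ℝ) = (n1 + 1) * (n1 + 2) * (n1 + 3) := by exact_mod_cast c1
    have c2' : 6 * ((T3 n2).card : ℝ) = (n2 + 1) * (n2 + 2) * (n2 + 3) := by exact_mod_cast c2
    have c3' : 6 * ((T3 N3).card : ℝ) = (N3 + 1) * (N3 + 2) * (N3 + 3) := by exact_mod_cast c3
    have h1' : (m : ℝ) * (T3 n1).card * ((dp * dq) * (4 * dq) * (4 * dp)) +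
      e * (T3 n2).card * ((dp * df) * (4 * df) * (4 * dp)) ≤ (T3 N3).card := by exact_mod_cast h1
    rw [r1, r2]
    have hN3' : (4 * dp * dq * df : ℝ) * K + ((2 * m + 2 * e + df * B : ℕ) + 3 : ℝ) = N3 + 3 := by
      rw [hN3]; push_cast; ring
    rw [hN3']
    have b1 : ((3 : ℝ) + n1 - 2) ^ 3 ≤ 6 * ((T3 n1).card : ℝ) := by
      rw [c1']
      have : (0 : ℝ) ≤ n1 := Nat.cast_nonneg _
      nlinarith [mul_nonneg this this]
    have b2 : ((3 : ℝ) + n2 - 2) ^ 3 ≤ 6 * ((T3 n2).card : ℝ) := by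
      rw [c2']
      have : (0 : ℝ) ≤ n2 := Nat.cast_nonneg _
      nlinarith [mul_nonneg this this]
    have b3 : 6 * ((T3 N3).card : ℝ) ≤ ((N3 : ℝ) + 3) ^ 3 := by
      rw [c3']
      have : (0 : ℝ) ≤ N3 := Nat.cast_nonneg _
      nlinarith [mul_nonneg this this]
    calc (m * 16 * dp ^ 2 * dq ^ 2 : ℝ) * ((3 : ℝ) + n1 - 2) ^ 3 +
          (e * 16 * dp ^ 2 * df ^ 2 : ℝ) * ((3 : ℝ) + n2 - 2) ^ 3
        ≤ (m * 16 * dp ^ 2 * dq ^ 2 : ℝ) * (6 * ((T3 n1).card : ℝ)) +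
          (e * 16 * dp ^ 2 * df ^ 2 : ℝ) * (6 * ((T3 n2).card : ℝ)) := by gcongr
      _ = 6 * ((m : ℝ) * (T3 n1).card * ((dp * dq) * (4 * dq) * (4 * dp)) +
          e * (T3 n2).card * ((dp * df) * (4 * df) * (4 * dp))) := by ring
      _ ≤ 6 * ((T3 N3).card : ℝ) := by linarith
      _ ≤ _ := b3
  have h3 := cubic_limit _ _ _ _ _ _ main2
  have hmZ : |p1 * q2 - p2 * q1| = (m : ℤ) := by rw [hm, Int.natCast_natAbs]
  have heZ : |p1 * f2 - p2 * f1| = (e : ℤ) := by rw [he, Int.natCast_natAbs]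
  rw [hmZ, heZ]
  have hpos : (0 : ℝ) < 16 * dp ^ 2 * dq ^ 2 * df ^ 2 := by positivity
  have h4 : (16 * dp ^ 2 * dq ^ 2 * df ^ 2 : ℝ) * (m * df + e * dq) ≤
      (16 * dp ^ 2 * dq ^ 2 * df ^ 2 : ℝ) * (4 * dp * dq * df) := by
    nlinarith [h3]
  have h5 := le_of_mul_le_mul_left h4 hpos
  exact_mod_cast h5

end Run7.h405
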