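import Mathlib
import Pool.Agent.Run7.h405.Chart

/-! The graded sequence of valuation ideals. -/

namespace Run7.h405

open MvPolynomial

variable {k : Type*} [Field k]

theorem span_X_eq_ker : Ideal.span (Set.range (X : Fin 3 → R3 k)) =
    RingHom.ker (constantCoeff : R3 k →+* k) := by
  apply le_antisymm
  · rw [Ideal.span_le]
    rintro _ ⟨i, rfl⟩
    simp
  · intro f hf
    have key : ∀ f : R3 k, f - C (constantCoeff f) ∈ Ideal.span (Set.range (X : Fin 3 → R3 k)) := by
      intro f
      induction f using MvPolynomial.induction_on with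
      | C c => simp
      | add p q hp hq =>
        have : p + q - C (constantCoeff (p + q)) =
            (p - C (constantCoeff p)) + (q - C (constantCoeff q)) := by
          rw [map_add, C_add]; ring
        rw [this]
        exact Ideal.add_mem _ hp hq
      | mul_X p i _ =>
        have : p * X i - C (constantCoeff (p * X i)) = p * X i := by simp
        rw [this]
        exact Ideal.mul_mem_left _ _ (Ideal.subset_span ⟨i, rfl⟩)
    have h1 := key f
    rw [RingHom.mem_ker] at hf
    rwa [hf, map_zero, sub_zero] at h1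

theorem pos_of_mem (w : Val k) {f : R3 k} (hf : f ∈ Ideal.span (Set.range (X : Fin 3 → R3 k))) :
    0 < w.v (al k f) := by
  induction hf using Submodule.span_induction with
  | mem x hx =>
    obtain ⟨i, rfl⟩ := hx
    exact w.pos i
  | zero => rw [map_zero, AddValuation.map_zero]; exact WithTop.coe_lt_top _
  | add x y _ _ hx hy => rw [map_add]; exact AddValuation.map_lt_add _ hx hy
  | smul r x _ hx =>
    rw [smul_eq_mul, map_mul, AddValuation.map_mul]
    exact lt_of_lt_of_le hx (le_add_of_nonneg_left (v_nonneg w r))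

theorem mem_of_pos (w : Val k) {f : R3 k} (hf : 0 < w.v (al k f)) :
    f ∈ Ideal.span (Set.range (X : Fin 3 → R3 k)) := by
  by_contra hcon
  rw [span_X_eq_ker, RingHom.mem_ker] at hcon
  have h1 : f - C (constantCoeff f) ∈ Ideal.span (Set.range (X : Fin 3 → R3 k)) := by
    rw [span_X_eq_ker, RingHom.mem_ker]; simp
  have h2 := pos_of_mem w h1
  have h3 : w.v (al k (C (constantCoeff f))) = 0 := w.triv _ hcon
  have h4 : C (constantCoeff f) = f - (f - C (constantCoeff f)) := by ring
  rw [h4, map_sub] at h3
  have := lt_of_lt_of_le (lt_min hf h2) (AddValuation.map_sub w.v _ _)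
  rw [h3] at this
  exact lt_irrefl _ this

/-- valuation ideals -/
def vIdeal (w : Val k) (m : ℕ) : Ideal (R3 k) where
  carrier := {f | (((m : ℝ) : WithTop ℝ)) ≤ w.v (al k f)}
  add_mem' := by
    intro f g hf hg
    change (((m : ℝ) : WithTop ℝ)) ≤ w.v (al k (f + g))
    rw [map_add]
    exact AddValuation.map_le_add _ hf hg
  zero_mem' := by
    change (((m : ℝ) : WithTop ℝ)) ≤ w.v (al k 0)
    rw [map_zero, AddValuation.map_zero]
    exact le_top
  smul_mem' := by
    intro r f hf
    change (((m : ℝ) : WithTop ℝ)) ≤ w.v (al k (r • f))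
    rw [smul_eq_mul, map_mul, AddValuation.map_mul]
    exact le_trans hf (le_add_of_nonneg_left (v_nonneg w r))

theorem mem_vIdeal (w : Val k) (m : ℕ) (f : R3 k) :
    f ∈ vIdeal w m ↔ (((m : ℝ) : WithTop ℝ)) ≤ w.v (al k f) := Iff.rfl

theorem vIdeal_radical (w : Val k) {m : ℕ} (hm : 1 ≤ m) :
    (vIdeal w m).radical = Ideal.span (Set.range (X : Fin 3 → R3 k)) := by
  ext f
  constructor
  · rintro ⟨n, hn⟩
    rw [mem_vIdeal] at hn
    apply mem_of_pos w
    by_contra hcon
    have h0 : w.v (al k f) = 0 := le_antisymm (not_lt.1 hcon) (v_nonneg w f)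
    rw [map_pow, AddValuation.map_pow, h0, smul_zero] at hn
    have : (m : ℝ) ≤ 0 := by exact_mod_cast hn
    have : (1 : ℝ) ≤ m := by exact_mod_cast hm
    linarith
  · intro hf
    have h1 := pos_of_mem w hf
    by_cases h0 : f = 0
    · rw [h0]; exact Ideal.zero_mem _
    rw [val_spec w h0] at h1
    have h2 : 0 < w.val f := by exact_mod_cast h1
    obtain ⟨n, hn⟩ := exists_nat_ge ((m : ℝ) / w.val f)
    refine ⟨n, ?_⟩
    rw [mem_vIdeal, val_spec w (pow_ne_zero n h0), val_pow w h0]
    rw [div_le_iff₀ h2] at hn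
    exact_mod_cast hn

/-- the graded sequence of valuation ideals of `w` -/
def vSeq (w : Val k) : GradedSeq k where
  a := vIdeal w
  mul_le := by
    intro m l _ _
    rw [Ideal.mul_le]
    intro f hf g hg
    rw [mem_vIdeal] at *
    rw [map_mul, AddValuation.map_mul]
    push_cast
    exact add_le_add hf hg
  primary := by
    intro m hm
    have h1 := vIdeal_radical w hm
    refine ⟨?_, h1⟩
    apply Ideal.isPrimary_of_isMaximal_radical
    rw [h1, span_X_eq_ker]
    exact RingHom.ker_isMaximal_of_surjective _ (fun c => ⟨C c, by simp⟩)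

end Run7.h405
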