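import Mathlib
import Pool.Agent.Run7.h405.Primary

/-! The lct of the sequence of valuation ideals. -/

namespace Run7.h405

open MvPolynomial Filter Topology
open scoped ENNReal

variable {k : Type*} [Field k]

theorem vIdeal_nonempty (w w₀ : Val k) (m : ℕ) :
    (w.val '' {f | f ∈ vIdeal w₀ m ∧ f ≠ 0}).Nonempty := by
  obtain ⟨n, hn⟩ := exists_nat_ge ((m : ℝ) / w₀.val (lam k))
  refine ⟨_, lam k ^ n, ⟨?_, pow_ne_zero _ lam_ne⟩, rfl⟩
  rw [mem_vIdeal, val_spec w₀ (pow_ne_zero n lam_ne), val_pow w₀ lam_ne]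
  rw [div_le_iff₀ (val_lam_pos w₀)] at hn
  exact_mod_cast hn

theorem vIdeal_bdd (w w₀ : Val k) (m : ℕ) :
    BddBelow (w.val '' {f | f ∈ vIdeal w₀ m ∧ f ≠ 0}) := by
  refine ⟨0, ?_⟩
  rintro _ ⟨f, _, rfl⟩
  exact val_nonneg w f

theorem idl_le (w w₀ : Val k) (m : ℕ) {f : R3 k} (hf : f ∈ vIdeal w₀ m) (h0 : f ≠ 0) :
    w.idl (vIdeal w₀ m) ≤ w.val f :=
  csInf_le (vIdeal_bdd w w₀ m) ⟨f, ⟨hf, h0⟩, rfl⟩

theorem le_idl (w w₀ : Val k) (m : ℕ) {c : ℝ}
    (h : ∀ f ∈ vIdeal w₀ m, f ≠ 0 → c ≤ w.val f) : c ≤ w.idl (vIdeal w₀ m) := by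
  apply le_csInf (vIdeal_nonempty w w₀ m)
  rintro _ ⟨f, hf, rfl⟩
  exact h f hf.1 hf.2

theorem idl_nonneg (w w₀ : Val k) (m : ℕ) : 0 ≤ w.idl (vIdeal w₀ m) :=
  le_idl w w₀ m fun f _ _ => val_nonneg w f

theorem idl_subadd (w w₀ : Val k) : Subadditive (fun m => w.idl (vIdeal w₀ m)) := by
  intro m n
  have h1 : ∀ f ∈ vIdeal w₀ m, f ≠ 0 → ∀ g ∈ vIdeal w₀ n, g ≠ 0 →
      w.idl (vIdeal w₀ (m + n)) ≤ w.val f + w.val g := by
    intro f hf hf0 g hg hg0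
    rw [← val_mul w hf0 hg0]
    apply idl_le _ _ _ _ (mul_ne_zero hf0 hg0)
    rw [mem_vIdeal] at *
    rw [map_mul, AddValuation.map_mul]
    push_cast
    exact add_le_add hf hg
  have h2 : ∀ f ∈ vIdeal w₀ m, f ≠ 0 →
      w.idl (vIdeal w₀ (m + n)) - w.val f ≤ w.idl (vIdeal w₀ n) := by
    intro f hf hf0
    apply le_idl
    intro g hg hg0
    linarith [h1 f hf hf0 g hg hg0]
  have h3 : w.idl (vIdeal w₀ (m + n)) - w.idl (vIdeal w₀ n) ≤ w.idl (vIdeal w₀ m) := by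
    apply le_idl
    intro f hf hf0
    linarith [h2 f hf hf0]
  simp only
  linarith

theorem idl_div_bdd (w w₀ : Val k) :
    BddBelow (Set.range fun n : ℕ => w.idl (vIdeal w₀ n) / n) := by
  refine ⟨0, ?_⟩
  rintro _ ⟨n, rfl⟩
  exact div_nonneg (idl_nonneg w w₀ n) (Nat.cast_nonneg _)

theorem seq_eq (w w₀ : Val k) : w.seq (vSeq w₀) = (idl_subadd w w₀).lim :=
  ((idl_subadd w w₀).tendsto_lim (idl_div_bdd w w₀)).limUnder_eq

theorem seq_mul_le (w w₀ : Val k) (n : ℕ) :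
    n * w.seq (vSeq w₀) ≤ w.idl (vIdeal w₀ n) := by
  by_cases hn : n = 0
  · rw [hn]; simpa using idl_nonneg w w₀ 0
  · have h1 := (idl_subadd w w₀).lim_le_div (idl_div_bdd w w₀) hn
    rw [← seq_eq] at h1
    have h2 : (0 : ℝ) < n := by exact_mod_cast Nat.pos_of_ne_zero hn
    rw [le_div_iff₀ h2] at h1
    linarith

theorem seq_nonneg (w w₀ : Val k) : 0 ≤ w.seq (vSeq w₀) := by
  rw [seq_eq]
  apply ge_of_tendsto' ((idl_subadd w w₀).tendsto_lim (idl_div_bdd w w₀))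
  intro n
  exact div_nonneg (idl_nonneg w w₀ n) (Nat.cast_nonneg _)

theorem seq_le_lam (w w₀ : Val k) (h : w₀.val (lam k) = 1) :
    w.seq (vSeq w₀) ≤ w.val (lam k) := by
  have h1 := seq_mul_le w w₀ 1
  have h2 : w.idl (vIdeal w₀ 1) ≤ w.val (lam k) := by
    apply idl_le _ _ _ _ lam_ne
    rw [mem_vIdeal, val_spec w₀ lam_ne, h]
    norm_cast
  simp only [Nat.cast_one, one_mul] at h1
  linarith

theorem seq_mul_val_le (w w₀ : Val k) {f : R3 k} (hf : f ≠ 0) :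
    w.seq (vSeq w₀) * w₀.val f ≤ w.val f := by
  set c := w.seq (vSeq w₀) with hc
  have hc0 : 0 ≤ c := seq_nonneg w w₀
  have key : ∀ n : ℕ, n * (c * w₀.val f - w.val f) ≤ c := by
    intro n
    have h1 : f ^ n ∈ vIdeal w₀ ⌊n * w₀.val f⌋₊ := by
      rw [mem_vIdeal, val_spec w₀ (pow_ne_zero n hf), val_pow w₀ hf]
      have := Nat.floor_le (mul_nonneg (Nat.cast_nonneg n) (val_nonneg w₀ f))
      exact_mod_cast this
    have h2 := idl_le w w₀ _ h1 (pow_ne_zero n hf)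
    rw [val_pow w hf] at h2
    have h3 := seq_mul_le w w₀ ⌊n * w₀.val f⌋₊
    have h4 := Nat.lt_floor_add_one (n * w₀.val f)
    rw [← hc] at h3
    nlinarith
  by_contra hcon
  push Not at hcon
  obtain ⟨n, hn⟩ := exists_nat_gt (c / (c * w₀.val f - w.val f))
  rw [div_lt_iff₀ (by linarith)] at hn
  linarith [key n]

theorem seq_self (w₀ : Val k) (h : w₀.val (lam k) = 1) : w₀.seq (vSeq w₀) = 1 := by
  apply le_antisymm
  · rw [← h]
    exact seq_le_lam w₀ w₀ h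
  · rw [seq_eq]
    apply ge_of_tendsto ((idl_subadd w₀ w₀).tendsto_lim (idl_div_bdd w₀ w₀))
    filter_upwards [eventually_gt_atTop 0] with n hn
    have hn' : (0 : ℝ) < n := by exact_mod_cast hn
    rw [le_div_iff₀ hn', one_mul]
    apply le_idl
    intro f hf hf0
    rw [mem_vIdeal, val_spec w₀ hf0] at hf
    exact_mod_cast hf

variable [CharZero k]

theorem logDisc_ne_zero (w : Val k) : logDisc w ≠ 0 := by
  intro h
  have h1 := lam_le_logDisc w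
  rw [h] at h1
  have h2 := ENNReal.ofReal_pos.2 (val_lam_pos w)
  exact absurd h1 (not_le.2 h2)

theorem one_le_ratio (w w₀ : Val k) (h : w₀.val (lam k) = 1) :
    1 ≤ logDisc w / ENNReal.ofReal (w.seq (vSeq w₀)) := by
  by_cases h0 : ENNReal.ofReal (w.seq (vSeq w₀)) = 0
  · rw [h0, ENNReal.div_zero (logDisc_ne_zero w)]
    exact le_top
  · rw [ENNReal.le_div_iff_mul_le (Or.inl h0) (Or.inl ENNReal.ofReal_ne_top), one_mul]
    exact le_trans (ENNReal.ofReal_le_ofReal (seq_le_lam w w₀ h)) (lam_le_logDisc w)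

theorem lct_eq (w₀ : Val k) (h : w₀.val (lam k) = 1) (hA : logDisc w₀ ≤ 1) :
    lct (vSeq w₀) = 1 := by
  apply le_antisymm
  · refine le_trans (iInf_le _ w₀) ?_
    rw [seq_self w₀ h, ENNReal.ofReal_one, div_one]
    exact hA
  · exact le_iInf fun w => one_le_ratio w w₀ h

theorem self_mem_LCP (w₀ : Val k) (h : w₀.val (lam k) = 1) (hA : logDisc w₀ ≤ 1) :
    w₀ ∈ LCP (vSeq w₀) := by
  change lct (vSeq w₀) = _
  rw [lct_eq w₀ h hA]
  apply le_antisymm (one_le_ratio w₀ w₀ h)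
  rw [seq_self w₀ h, ENNReal.ofReal_one, div_one]
  exact hA

theorem LCP_char (w₀ : Val k) (h : w₀.val (lam k) = 1) (hA : logDisc w₀ ≤ 1) (w : Val k)
    (hw : w ∈ LCP (vSeq w₀)) : 0 < w.val (lam k) ∧
      (∀ f : R3 k, f ≠ 0 → w.val (lam k) * w₀.val f ≤ w.val f) ∧
      logDisc w ≤ ENNReal.ofReal (w.val (lam k)) := by
  refine ⟨val_lam_pos w, ?_⟩
  change lct (vSeq w₀) = _ at hw
  rw [lct_eq w₀ h hA] at hw
  have h0 : ENNReal.ofReal (w.seq (vSeq w₀)) ≠ 0 := by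
    intro h0
    rw [h0, ENNReal.div_zero (logDisc_ne_zero w)] at hw
    exact ENNReal.one_ne_top hw
  have h1 : logDisc w = ENNReal.ofReal (w.seq (vSeq w₀)) :=
     (ENNReal.div_eq_one_iff h0 ENNReal.ofReal_ne_top).1 hw.symm
  have h3 := seq_le_lam w w₀ h
  have h4 : w.val (lam k) ≤ w.seq (vSeq w₀) := by
    have h5 := lam_le_logDisc w
    rw [h1] at h5
    exact (ENNReal.ofReal_le_ofReal_iff (seq_nonneg w w₀)).1 h5
  have h5 : w.val (lam k) = w.seq (vSeq w₀) := le_antisymm h4 h3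
  constructor
  · intro f hf
    rw [h5]
    exact seq_mul_val_le w w₀ hf
  · rw [h1, h5]

end Run7.h405
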