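import Mathlib
import Pool.Agent.Run7.h405.Base

/-! Elementary facts on the sequences. -/

namespace Run7.h405

theorem D_aux (n : ℕ) : 0 < D n ∧ 0 < D (n+1) ∧ 0 < D (n+2) ∧ D (n+1) ≤ D (n+2) ∧
    D n ≤ 4 * D (n+1) * D (n+2) ∧ D n ≤ 3 * D (n+2) := by
  induction n with
  | zero => simp [D]
  | succ n ih =>
    obtain ⟨h0, h1, h2, h3, h4, h5⟩ := ih
    have hr : D (n+3) = 4 * D (n+1) * D (n+2) - D n := rfl
    have hmul : D (n+2) ≤ D (n+1) * D (n+2) := Nat.le_mul_of_pos_left _ h1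
    have hmul' : D (n+1) ≤ D (n+1) * D (n+2) := Nat.le_mul_of_pos_right _ h2
    have e : 4 * D (n+1) * D (n+2) = 4 * (D (n+1) * D (n+2)) := by ring
    rw [e] at hr h4
    have h6 : D (n+2) ≤ D (n+3) := by omega
    have h8 : D (n+2) ≤ D (n+2) * D (n+3) := Nat.le_mul_of_pos_right _ (by omega)
    have e' : 4 * D (n+2) * D (n+3) = 4 * (D (n+2) * D (n+3)) := by ring
    refine ⟨h1, h2, lt_of_lt_of_le h2 h6, h6, ?_, ?_⟩
    · rw [show n + 1 + 1 = n + 2 from rfl, show n + 1 + 2 = n + 3 from rfl, e']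
      omega
    · rw [show n + 1 + 2 = n + 3 from rfl]
      omega

theorem D_pos (n : ℕ) : 0 < D n := (D_aux n).1

theorem D_mono (n : ℕ) : D (n+1) ≤ D (n+2) := (D_aux n).2.2.2.1

theorem D_rec (n : ℕ) : D (n+3) + D n = 4 * D (n+1) * D (n+2) := by
  have hr : D (n+3) = 4 * D (n+1) * D (n+2) - D n := rfl
  rw [hr, Nat.sub_add_cancel (D_aux n).2.2.2.2.1]

theorem D_recZ (n : ℕ) : (D (n+3) : ℤ) + D n = 4 * D (n+1) * D (n+2) := by
  exact_mod_cast D_rec n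

theorem D_growth (n : ℕ) : 3 * D (n+3) ≤ D (n+4) := by
  have h1 := D_rec (n+1)
  rw [show n + 1 + 3 = n + 4 from rfl, show n + 1 + 1 = n + 2 from rfl,
    show n + 1 + 2 = n + 3 from rfl] at h1
  have h2 : D (n+1) ≤ D (n+3) := le_trans (D_mono n) (D_mono (n+1))
  have h3 : D (n+3) ≤ D (n+2) * D (n+3) := Nat.le_mul_of_pos_left _ (D_pos _)
  have e : 4 * D (n+2) * D (n+3) = 4 * (D (n+2) * D (n+3)) := by ring
  omega

theorem pp_rec (n : ℕ) : pp (n+3) = 4 * D (n+2) * pp (n+1) - pp n := rfl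
theorem qq_rec (n : ℕ) : qq (n+3) = 4 * D (n+2) * qq (n+1) - qq n := rfl

theorem det_aux (n : ℕ) :
    (pp n * qq (n+1) - pp (n+1) * qq n = (-1)^(n+1) * D (n+2)) ∧
    (pp (n+1) * qq (n+2) - pp (n+2) * qq (n+1) = (-1)^(n+2) * D (n+3)) ∧
    (pp (n+2) * qq (n+3) - pp (n+3) * qq (n+2) = (-1)^(n+3) * D (n+4)) := by
  induction n with
  | zero => simp [pp, qq, D]
  | succ n ih =>
    obtain ⟨h0, h1, h2⟩ := ih
    refine ⟨h1, h2, ?_⟩
    have e1 := pp_rec (n+1)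
    have e2 := qq_rec (n+1)
    have e3 := pp_rec n
    have e4 := qq_rec n
    have e5 := D_recZ (n+2)
    simp only [show n + 1 + 3 = n + 4 from rfl, show n + 1 + 1 = n + 2 from rfl,
      show n + 1 + 2 = n + 3 from rfl, show n + 2 + 3 = n + 5 from rfl] at *
    have h3 : pp (n+1) * qq (n+3) - pp (n+3) * qq (n+1) = pp n * qq (n+1) - pp (n+1) * qq n := by
      rw [e3, e4]; ring
    have h4 : pp (n+3) * qq (n+4) - pp (n+4) * qq (n+3) =
        -(4 * D (n+3)) * (pp (n+2) * qq (n+3) - pp (n+3) * qq (n+2)) +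
          (pp (n+1) * qq (n+3) - pp (n+3) * qq (n+1)) := by
      rw [e1, e2]; ring
    rw [h4, h3, h2, h0]
    have h5 : (D (n+5) : ℤ) = 4 * D (n+3) * D (n+4) - D (n+2) := by linarith
    rw [h5]
    ring

theorem det_pq (n : ℕ) : pp n * qq (n+1) - pp (n+1) * qq n = (-1)^(n+1) * D (n+2) :=
  (det_aux n).1

theorem det_pq2 (n : ℕ) :
    pp (n+1) * qq (n+3) - pp (n+3) * qq (n+1) = (-1)^(n+1) * D (n+2) := by
  rw [← det_pq n, pp_rec, qq_rec]
  ring

theorem gg_rec (a b : ℝ) (n : ℕ) :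
    gg a b (n+3) + gg a b n = 4 * D (n+2) * gg a b (n+1) := by
  unfold gg
  rw [pp_rec, qq_rec]
  push_cast
  ring

end Run7.h405
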