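import Mathlib
import Pool.Agent.Run7.h405.Base
import Pool.Agent.Run7.h405.SeqA
import Pool.Agent.Run7.h305.LC.Trap
import Pool.Agent.Run7.h100.LC.B2
import Pool.Agent.Run7.h483.D3
import Pool.Agent.Run7.h483.E2
import Pool.Agent.Run7.h483.G3

/-!
The independent pieces proved by helper305 (weights), helper100 (exchange polynomials) and
helper483 (the polynomials G, the valuation, the real arcs), restated in one namespace.
-/

namespace Run7.h405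

open MvPolynomial Filter Topology Asymptotics
open scoped ENNReal NNReal

theorem exists_wt : ∃ a b : ℝ, Wt a b := Run7.h305.exists_wt

theorem Wt.lt_one {a b : ℝ} (h : Wt a b) (n : ℕ) : 4 * gg a b n < D n :=
  Run7.h305.Wt.lt_one h n

theorem Wt.indep {a b : ℝ} (h : Wt a b) (l m n : ℤ) (h0 : (l : ℝ) + m * a + n * b = 0) :
    l = 0 ∧ m = 0 ∧ n = 0 := Run7.h305.Wt.indep h l m n h0

theorem Wt.trap {a b : ℝ} (h : Wt a b) (e : ℕ → ℝ)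
    (he : ∀ n, e (n+3) + e n =
      min (min (4 * D (n+2) * e (n+1)) (4 * D (n+1) * e (n+2))) (D (n+1) * D (n+2)))
    (h0 : e 1 + e 2 + e 3 = min 1 (min (4 * e 1) (min (4 * e 2) (4 * e 3))))
    (hge : ∀ n, gg a b n ≤ e n) : e 1 = a ∧ e 2 = b ∧ e 3 = 3 * a - b :=
  Run7.h305.Wt.trap h e he h0 hge

theorem exists_P : ∃ P : ℕ → MP, PSys P := Run7.h100.LC.exists_P

theorem Good.bounds {α β : ℕ} {P : MP} (hα : 0 < α) (hβ : 0 < β) (h : Good α β P) :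
    ∃ c C : ℝ, 0 < c ∧ 0 < C ∧ ∀ l u v : ℝ, 0 ≤ l → 0 ≤ u → 0 ≤ v →
      c * max (max (u ^ β) (v ^ α)) (l ^ (α * β)) ≤ aeval ![l, u, v] P ∧
      aeval ![l, u, v] P ≤ C * max (max (u ^ β) (v ^ α)) (l ^ (α * β)) :=
  Run7.h100.LC.bounds hα hβ h

theorem exists_G (P : ℕ → MP) (hP : PSys P) : ∃ G : ℕ → MP, GSys P G :=
  Run7.h483.exists_G P hP

theorem exists_v0 (k : Type*) [Field k] [CharZero k] (a b : ℝ) (ha : 0 < a) (hab : a < b)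
    (hbc : b < 3 * a - b) (hc : 4 * (3 * a - b) < 1)
    (hind : ∀ l m n : ℤ, (l : ℝ) + m * a + n * b = 0 → l = 0 ∧ m = 0 ∧ n = 0) :
    ∃ v : AddValuation (K3 k) (WithTop ℝ),
      (∀ c : k, c ≠ 0 → v (algebraMap (R3 k) (K3 k) (C c)) = 0) ∧
      v (algebraMap (R3 k) (K3 k) (X 0)) = (a : ℝ) ∧
      v (algebraMap (R3 k) (K3 k) (X 1)) = (b : ℝ) ∧
      v (algebraMap (R3 k) (K3 k) (X 2)) = ((3 * a - b : ℝ) : WithTop ℝ) ∧
      v (algebraMap (R3 k) (K3 k) (lam k)) = (1 : ℝ) ∧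
      (∀ f : R3 k, f ≠ 0 → ∃ l m n : ℤ,
        v (algebraMap (R3 k) (K3 k) f) = (((l : ℝ) + m * a + n * b : ℝ) : WithTop ℝ)) ∧
      (∀ f : Fin 3 → R3 k, jac f ≠ 0 →
        ∑ i, v (algebraMap (R3 k) (K3 k) (f i)) ≤
          v (algebraMap (R3 k) (K3 k) (jac f)) + ((1 : ℝ) : WithTop ℝ)) :=
  Run7.h483.exists_v0 k a b ha hab hbc hc hind

theorem arc_bound {K : Type*} [Field K] [CharZero K] (v : AddValuation K (WithTop ℝ))
    (hQ : ∀ c : ℚ, c ≠ 0 → v (c : K) = 0) (x y z l : K) (a b c : ℝ)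
    (hx : v x = (a : ℝ)) (hy : v y = (b : ℝ)) (hz : v z = (c : ℝ)) (hl : v l = (1 : ℝ))
    (ha : 0 < a) (hb : 0 < b) (hc : a + b < 3 * c)
    (hrel : x * y * z = l + x ^ 4 + y ^ 4 + z ^ 4)
    (hmono : ∀ h : MP, ∀ s ∈ h.support,
      v (aeval ![x, y, l] h) ≤ ((s 0 * a + s 1 * b + s 2 : ℝ) : WithTop ℝ)) :
    ∃ Z : ℝ → ℝ, (∀ᶠ t in 𝓝[>] (0 : ℝ), 0 < Z t ∧
        t ^ a * t ^ b * Z t = t + (t ^ a) ^ 4 + (t ^ b) ^ 4 + (Z t) ^ 4) ∧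
      (Z =Θ[𝓝[>] (0 : ℝ)] fun t => t ^ c) ∧
      ∀ (F : MP) (r : ℝ), ((r : ℝ) : WithTop ℝ) ≤ v (aeval ![x, y, z] F) →
        (fun t : ℝ => aeval ![t ^ a, t ^ b, Z t] F) =O[𝓝[>] (0 : ℝ)] fun t => t ^ r :=
  Run7.h483.arc_bound v hQ x y z l a b c hx hy hz hl ha hb hc hrel hmono

end Run7.h405
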