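import Mathlib

/-! Orders of growth of positive functions at `0+`. -/

namespace Run7.h405

open Filter Topology Asymptotics

/-- `f` is comparable with `t^p` as `t → 0+`. -/
def Ord (f : ℝ → ℝ) (p : ℝ) : Prop :=
  ∃ c C : ℝ, 0 < c ∧ 0 < C ∧ ∀ᶠ t in 𝓝[>] (0 : ℝ), c * t ^ p ≤ f t ∧ f t ≤ C * t ^ p

theorem ev_pos : ∀ᶠ t in 𝓝[>] (0 : ℝ), 0 < t := eventually_mem_nhdsWithin

theorem ev_lt_one : ∀ᶠ t in 𝓝[>] (0 : ℝ), t < 1 :=
  eventually_nhdsWithin_of_eventually_nhds (eventually_lt_nhds one_pos)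

theorem Ord.pos {f : ℝ → ℝ} {p : ℝ} (h : Ord f p) : ∀ᶠ t in 𝓝[>] (0 : ℝ), 0 < f t := by
  obtain ⟨c, C, hc, _, h⟩ := h
  filter_upwards [h, ev_pos] with t ht hp
  exact lt_of_lt_of_le (by positivity) ht.1

theorem Ord.rpow (p : ℝ) : Ord (fun t => t ^ p) p :=
  ⟨1, 1, one_pos, one_pos, Eventually.of_forall fun t => by simp⟩

theorem Ord.id : Ord (fun t => t) 1 :=
  ⟨1, 1, one_pos, one_pos, Eventually.of_forall fun t => by simp⟩

theorem Ord.bounds {f g : ℝ → ℝ} {p : ℝ} (h : Ord g p) {c C : ℝ} (hc : 0 < c) (hC : 0 < C)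
    (hfg : ∀ᶠ t in 𝓝[>] (0 : ℝ), c * g t ≤ f t ∧ f t ≤ C * g t) : Ord f p := by
  obtain ⟨c', C', hc', hC', h⟩ := h
  refine ⟨c * c', C * C', by positivity, by positivity, ?_⟩
  filter_upwards [h, hfg] with t h1 h2
  constructor
  · calc c * c' * t ^ p = c * (c' * t ^ p) := by ring
      _ ≤ c * g t := by gcongr; exact h1.1
      _ ≤ _ := h2.1
  · calc f t ≤ C * g t := h2.2
      _ ≤ C * (C' * t ^ p) := by gcongr; exact h1.2
      _ = _ := by ring

theorem Ord.congr {f g : ℝ → ℝ} {p : ℝ} (h : Ord g p)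
    (hfg : ∀ᶠ t in 𝓝[>] (0 : ℝ), f t = g t) : Ord f p :=
  h.bounds one_pos one_pos (hfg.mono fun t ht => by simp [ht])

theorem Ord.mul {f g : ℝ → ℝ} {p q : ℝ} (hf : Ord f p) (hg : Ord g q) :
    Ord (fun t => f t * g t) (p + q) := by
  have hfp := hf.pos
  have hgp := hg.pos
  obtain ⟨c, C, hc, hC, h⟩ := hf
  obtain ⟨c', C', hc', hC', h'⟩ := hg
  refine ⟨c * c', C * C', by positivity, by positivity, ?_⟩
  filter_upwards [h, h', ev_pos, hfp, hgp] with t h1 h2 h3 h4 h5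
  rw [Real.rpow_add h3]
  constructor
  · calc c * c' * (t ^ p * t ^ q) = (c * t ^ p) * (c' * t ^ q) := by ring
      _ ≤ f t * g t := by
        apply mul_le_mul h1.1 h2.1 (by positivity) h4.le
  · calc f t * g t ≤ (C * t ^ p) * (C' * t ^ q) := by
          apply mul_le_mul h1.2 h2.2 h5.le (by positivity)
      _ = _ := by ring

theorem Ord.div {f g : ℝ → ℝ} {p q : ℝ} (hf : Ord f p) (hg : Ord g q) :
    Ord (fun t => f t / g t) (p - q) := by
  have hfp := hf.pos
  have hgp := hg.pos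
  obtain ⟨c, C, hc, hC, h⟩ := hf
  obtain ⟨c', C', hc', hC', h'⟩ := hg
  refine ⟨c / C', C / c', by positivity, by positivity, ?_⟩
  filter_upwards [h, h', ev_pos, hfp, hgp] with t h1 h2 h3 h4 h5
  rw [Real.rpow_sub h3]
  have hq : 0 < t ^ q := by positivity
  constructor
  · rw [le_div_iff₀ h5]
    calc c / C' * (t ^ p / t ^ q) * g t ≤ c / C' * (t ^ p / t ^ q) * (C' * t ^ q) := by
          gcongr; exact h2.2
      _ = c * t ^ p := by field_simp
      _ ≤ f t := h1.1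
  · rw [div_le_iff₀ h5]
    calc f t ≤ C * t ^ p := h1.2
      _ = C / c' * (t ^ p / t ^ q) * (c' * t ^ q) := by field_simp
      _ ≤ C / c' * (t ^ p / t ^ q) * g t := by
          gcongr; exact h2.1

theorem Ord.pow {f : ℝ → ℝ} {p : ℝ} (hf : Ord f p) (n : ℕ) :
    Ord (fun t => f t ^ n) (n * p) := by
  induction n with
  | zero =>
    simp only [pow_zero, Nat.cast_zero, zero_mul]
    exact (Ord.rpow 0).congr (Eventually.of_forall fun t => by simp)
  | succ n ih =>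
    have := ih.mul hf
    simp only [pow_succ]
    convert this using 1
    push_cast; ring

theorem Ord.max {f g : ℝ → ℝ} {p q : ℝ} (hf : Ord f p) (hg : Ord g q) :
    Ord (fun t => Max.max (f t) (g t)) (min p q) := by
  obtain ⟨c, C, hc, hC, h⟩ := hf
  obtain ⟨c', C', hc', hC', h'⟩ := hg
  refine ⟨min c c', Max.max C C', lt_min hc hc', lt_max_of_lt_left hC, ?_⟩
  filter_upwards [h, h', ev_pos, ev_lt_one] with t h1 h2 h3 h4
  have hp : 0 < t ^ p := by positivity
  have hq : 0 < t ^ q := by positivity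
  have e1 : t ^ p ≤ t ^ (min p q) := Real.rpow_le_rpow_of_exponent_ge h3 h4.le (min_le_left _ _)
  have e2 : t ^ q ≤ t ^ (min p q) := Real.rpow_le_rpow_of_exponent_ge h3 h4.le (min_le_right _ _)
  constructor
  · rcases min_choice p q with h5 | h5
    · rw [h5]
      exact le_max_of_le_left (le_trans (by gcongr; exact min_le_left _ _) h1.1)
    · rw [h5]
      exact le_max_of_le_right (le_trans (by gcongr; exact min_le_right _ _) h2.1)
  · apply max_le
    · exact le_trans h1.2 (mul_le_mul (le_max_left _ _) e1 hp.le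
        (le_trans hC.le (le_max_left _ _)))
    · exact le_trans h2.2 (mul_le_mul (le_max_right _ _) e2 hq.le
        (le_trans hC.le (le_max_left _ _)))

theorem Ord.add {f g : ℝ → ℝ} {p q : ℝ} (hf : Ord f p) (hg : Ord g q) :
    Ord (fun t => f t + g t) (min p q) := by
  apply (hf.max hg).bounds one_pos two_pos
  filter_upwards [hf.pos, hg.pos] with t h1 h2
  constructor
  · rw [one_mul]
    exact max_le (by linarith) (by linarith)
  · linarith [le_max_left (f t) (g t), le_max_right (f t) (g t)]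

theorem Ord.le_of_isBigO {f : ℝ → ℝ} {p r : ℝ} (hf : Ord f p)
    (h : f =O[𝓝[>] (0 : ℝ)] fun t => t ^ r) : r ≤ p := by
  by_contra hlt
  push Not at hlt
  obtain ⟨c, C, hc, hC, h1⟩ := hf
  obtain ⟨K, hK⟩ := h.bound
  have hlim : Tendsto (fun t : ℝ => K * t ^ (r - p)) (𝓝[>] (0 : ℝ)) (𝓝 0) := by
    have h2 : Tendsto (fun t : ℝ => t ^ (r - p)) (𝓝[>] (0 : ℝ)) (𝓝 (0 ^ (r - p))) :=
      ((Real.continuous_rpow_const (by linarith : 0 ≤ r - p)).tendsto 0).mono_left
        nhdsWithin_le_nhds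
    rw [Real.zero_rpow (by linarith : r - p ≠ 0)] at h2
    simpa using h2.const_mul K
  have h3 : ∀ᶠ t in 𝓝[>] (0 : ℝ), K * t ^ (r - p) < c := hlim.eventually (gt_mem_nhds hc)
  obtain ⟨t, h4, h5, h6, h7⟩ := (h1.and (hK.and (h3.and ev_pos))).exists
  have hp : 0 < t ^ p := by positivity
  have h8 : c * t ^ p ≤ K * t ^ r := by
    refine le_trans h4.1 (le_trans (le_abs_self _) ?_)
    rw [Real.norm_eq_abs, Real.norm_eq_abs, abs_of_pos (by positivity : 0 < t ^ r)] at h5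
    exact h5
  have h9 : t ^ r = t ^ (r - p) * t ^ p := by
    rw [← Real.rpow_add h7]; congr 1; ring
  rw [h9, ← mul_assoc] at h8
  have := le_of_mul_le_mul_right h8 hp
  linarith

theorem Ord.unique {f : ℝ → ℝ} {p q : ℝ} (hf : Ord f p) (hg : Ord f q) : p = q := by
  have key : ∀ {p q : ℝ}, Ord f p → Ord f q → q ≤ p := by
    intro p q hf hg
    apply hf.le_of_isBigO
    have hpos := hg.pos
    obtain ⟨c, C, hc, hC, h⟩ := hg
    apply IsBigO.of_bound C
    filter_upwards [h, ev_pos, hpos] with t h1 h2 h3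
    rw [Real.norm_eq_abs, Real.norm_eq_abs, abs_of_pos (by positivity : 0 < t ^ q), abs_of_pos h3]
    exact h1.2
  exact le_antisymm (key hg hf) (key hf hg)

theorem Ord.of_isTheta {f : ℝ → ℝ} {p : ℝ} (h : f =Θ[𝓝[>] (0 : ℝ)] fun t => t ^ p)
    (hpos : ∀ᶠ t in 𝓝[>] (0 : ℝ), 0 < f t) : Ord f p := by
  obtain ⟨C, hC, h1⟩ := h.1.exists_pos
  obtain ⟨c, hc, h2⟩ := h.2.exists_pos
  refine ⟨c⁻¹, C, by positivity, hC, ?_⟩
  filter_upwards [h1.bound, h2.bound, ev_pos, hpos] with t h3 h4 h5 h6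
  rw [Real.norm_eq_abs, Real.norm_eq_abs, abs_of_pos (by positivity : 0 < t ^ p),
    abs_of_pos h6] at h3 h4
  refine ⟨?_, h3⟩
  rw [inv_mul_le_iff₀ hc]
  exact h4

end Run7.h405
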