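import Mathlib
import Pool.Agent.Run7.h405.Base
import Pool.Agent.Run7.h405.Ord

/-! Orders of the `G n` along a real arc. -/

namespace Run7.h405

open MvPolynomial Filter Topology Asymptotics

/-- orders computed by the recursion -/
noncomputable def eo (x y z : ℝ) : ℕ → ℝ
  | 0 => min (min (4 * x) (4 * y)) 1 - z
  | 1 => x
  | 2 => y
  | 3 => z
  | (n+4) => min (min (4 * D (n+3) * eo x y z (n+2)) (4 * D (n+2) * eo x y z (n+3)))
      (D (n+2) * D (n+3)) - eo x y z (n+1)

theorem eo_rec (x y z : ℝ) (n : ℕ) : eo x y z (n+3) + eo x y z n =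
      min (min (4 * D (n+2) * eo x y z (n+1)) (4 * D (n+1) * eo x y z (n+2)))
        (D (n+1) * D (n+2)) := by
  cases n with
  | zero => simp [eo, D]
  | succ n => simp [eo]

/-- the evaluation of a rational polynomial at a real arc -/
noncomputable def ev (A : ℝ → Fin 3 → ℝ) (F : MP) (t : ℝ) : ℝ := aeval (A t) F

theorem ord_P {P : MP} {α β : ℕ}
    (hbd : ∃ c C : ℝ, 0 < c ∧ 0 < C ∧ ∀ l u v : ℝ, 0 ≤ l → 0 ≤ u → 0 ≤ v →
      c * max (max (u ^ β) (v ^ α)) (l ^ (α * β)) ≤ aeval ![l, u, v] P ∧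
      aeval ![l, u, v] P ≤ C * max (max (u ^ β) (v ^ α)) (l ^ (α * β)))
    {f g : ℝ → ℝ} {p q : ℝ} (hf : Ord f p) (hg : Ord g q) :
    Ord (fun t => aeval ![t, f t ^ 4, g t ^ 4] P)
      (min (min (4 * β * p) (4 * α * q)) (α * β)) := by
  obtain ⟨c, C, hc, hC, h⟩ := hbd
  have h1 := ((((hf.pow 4).pow β).max ((hg.pow 4).pow α)).max (Ord.id.pow (α * β))).bounds
    (f := fun t => aeval ![t, f t ^ 4, g t ^ 4] P) hc hC (by
      filter_upwards [ev_pos, hf.pos, hg.pos] with t h1 h2 h3
      exact h t (f t ^ 4) (g t ^ 4) h1.le (by positivity) (by positivity))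
  convert h1 using 2
  · congr 1 <;> push_cast <;> ring
  · push_cast; ring

theorem ord_G {P G : ℕ → MP} (hG : GSys P G)
    (hbd : ∀ n, ∃ c C : ℝ, 0 < c ∧ 0 < C ∧ ∀ l u v : ℝ, 0 ≤ l → 0 ≤ u → 0 ≤ v →
      c * max (max (u ^ (D (n+2))) (v ^ (D (n+1)))) (l ^ (D (n+1) * D (n+2))) ≤
        aeval ![l, u, v] (P n) ∧
      aeval ![l, u, v] (P n) ≤
        C * max (max (u ^ (D (n+2))) (v ^ (D (n+1)))) (l ^ (D (n+1) * D (n+2))))
    (A : ℝ → Fin 3 → ℝ) (ω : Fin 3 → ℝ) (hA : ∀ i, Ord (fun t => A t i) (ω i))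
    (hrel : ∀ᶠ t in 𝓝[>] (0 : ℝ),
      A t 0 * A t 1 * A t 2 = t + A t 0 ^ 4 + A t 1 ^ 4 + A t 2 ^ 4) (n : ℕ) :
    Ord (fun t => ev A (G n) t) (eo (ω 0) (ω 1) (ω 2) n) := by
  have hstep : ∀ n, ∀ᶠ t in 𝓝[>] (0 : ℝ), ev A (G (n+3)) t * ev A (G n) t =
      aeval ![t, ev A (G (n+1)) t ^ 4, ev A (G (n+2)) t ^ 4] (P n) := by
    intro n
    filter_upwards [hrel] with t ht
    have h1 := congrArg (aeval (A t)) (hG.rel n)
    rw [map_mul] at h1
    unfold ev
    rw [h1]
    have h2 : aeval (A t) (aeval ![lam ℚ, G (n+1) ^ 4, G (n+2) ^ 4] (P n)) =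
        aeval (fun i => aeval (A t) ((![lam ℚ, G (n+1) ^ 4, G (n+2) ^ 4] : Fin 3 → MP) i))
          (P n) := by
      rw [← AlgHom.comp_apply, comp_aeval]
    rw [h2]
    congr 2
    ext i
    fin_cases i
    · simp only [lam, Fin.zero_eta, Matrix.cons_val_zero, map_sub, map_mul, map_pow, aeval_X]
      linarith
    · simp
    · simp
  induction n using Nat.strong_induction_on with
  | _ n ih =>
    match n, ih with
    | 0, ih =>
      have h1 := ord_P (hbd 0) (f := fun t => ev A (G 1) t)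
        (g := fun t => ev A (G 2) t) (p := ω 0) (q := ω 1)
        ((hA 0).congr (Eventually.of_forall fun t => by simp [ev, hG.g1]))
        ((hA 1).congr (Eventually.of_forall fun t => by simp [ev, hG.g2]))
      have h3 : Ord (fun t => ev A (G 3) t) (ω 2) :=
        (hA 2).congr (Eventually.of_forall fun t => by simp [ev, hG.g3])
      have h2 := (h1.div h3).congr (f := fun t => ev A (G 0) t) (by
        filter_upwards [hstep 0, h3.pos] with t ht h4
        rw [← ht]
        field_simp)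
      convert h2 using 1
      simp [eo, D]
    | 1, ih =>
      exact (hA 0).congr (Eventually.of_forall fun t => by simp [ev, hG.g1])
    | 2, ih =>
      exact (hA 1).congr (Eventually.of_forall fun t => by simp [ev, hG.g2])
    | 3, ih =>
      exact (hA 2).congr (Eventually.of_forall fun t => by simp [ev, hG.g3])
    | (n+4), ih =>
      have h1 := ord_P (hbd (n+1)) (ih (n+2) (by omega))
        (ih (n+3) (by omega))
      have h3 := ih (n+1) (by omega)
      have h2 := (h1.div h3).congr (f := fun t => ev A (G (n+4)) t) (by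
        filter_upwards [hstep (n+1), h3.pos] with t ht h4
        rw [← ht]
        field_simp)
      convert h2 using 1
      simp only [eo]

end Run7.h405
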