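import Mathlib
import Pool.Agent.Run7.h405.Pieces
import Pool.Agent.Run7.h405.Chart
import Pool.Agent.Run7.h405.ArcG

/-! A maximal valuation has the right weights. -/

namespace Run7.h405

open MvPolynomial Filter Topology Asymptotics

variable {k : Type*} [Field k] [CharZero k]

/-- rational polynomials over `k` -/
noncomputable def toK (k : Type*) [Field k] [CharZero k] (F : MP) : R3 k := aeval X F

theorem toK_eq_map (F : MP) : toK k F = map (algebraMap ℚ k) F := by
  unfold toK
  have : ((aeval (X : Fin 3 → R3 k) : MP →ₐ[ℚ] R3 k) : MP →+* R3 k) =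
      MvPolynomial.map (algebraMap ℚ k) := by
    apply MvPolynomial.ringHom_ext
    · intro c
      rw [map_C]
      simp only [RingHom.coe_coe, aeval_C]
      rfl
    · intro i
      simp
  exact congrArg (fun φ : MP →+* R3 k => φ F) this

theorem toK_ne {F : MP} (h : F ≠ 0) : toK k F ≠ 0 := by
  rw [toK_eq_map]
  intro h0
  apply h
  apply map_injective (algebraMap ℚ k) (algebraMap ℚ k).injective
  rw [h0, map_zero]

/-- index sending the chart coordinates to their positions -/
def sg (l i : Fin 3) : Fin 3 := if i = l then 2 else if i = l + 1 then 0 else 1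

theorem weights_eq (w : Val k) {P G : ℕ → MP} (hP : PSys P) (hG : GSys P G) {a b : ℝ}
    (h : Wt a b)
    (hA : ∀ f : Fin 3 → R3 k, jac f ≠ 0 →
      ∑ i, w.v (al k (f i)) ≤ w.v (al k (jac f)) + w.v (al k (lam k)))
    (hl : w.val (lam k) = 1) (hge : ∀ n, gg a b n ≤ w.val (toK k (G n))) :
    w.val (X 0) = a ∧ w.val (X 1) = b ∧ w.val (X 2) = 3 * a - b := by
  obtain ⟨l, hl'⟩ := chart_exists w
  have hmono := monomial_chart w l hl' hA
  set ω : Fin 3 → ℝ := fun i => w.val (X i) with hω
  obtain ⟨Z, hZ1, hZ2, hZ3⟩ := arc_bound w.v (by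
      intro c hc
      have : (c : K3 k) = al k (C (c : k)) := by
        have h1 := eq_ratCast ((al k).comp ((C : k →+* R3 k).comp (algebraMap ℚ k))) c
        rw [← h1, RingHom.comp_apply, RingHom.comp_apply, eq_ratCast]
      rw [this]
      exact w.triv _ (by exact_mod_cast hc)) (al k (X (l+1))) (al k (X (l+2))) (al k (X l))
    (al k (lam k)) (ω (l+1)) (ω (l+2)) (ω l) (val_spec w (X_ne_zero _))
    (val_spec w (X_ne_zero _)) (val_spec w (X_ne_zero _)) (by rw [val_spec w lam_ne, hl])
    (val_X_pos w _) (val_X_pos w _) hl' (by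
      rw [← map_mul, ← map_mul, ← map_pow, ← map_pow, ← map_pow, ← map_add, ← map_add, ← map_add]
      congr 1
      unfold lam
      fin_cases l
      · simp; ring
      · simp [show (1 : Fin 3) + 1 = 2 from rfl, show (1 : Fin 3) + 2 = 0 from rfl]; ring
      · simp [show (2 : Fin 3) + 1 = 0 from rfl, show (2 : Fin 3) + 2 = 1 from rfl]; ring) (by
      intro p s hs
      have := hmono p s hs
      rw [hl, mul_one] at this
      have e : (fun i => al k (cg k l i)) =
          ![al k (X (l+1)), al k (X (l+2)), al k (lam k)] := by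
        ext i
        fin_cases i <;> rfl
      rw [e] at this
      exact this)
  set A : ℝ → Fin 3 → ℝ := fun t i => (![t ^ ω (l+1), t ^ ω (l+2), Z t] : Fin 3 → ℝ) (sg l i)
    with hAdef
  have hZo : Ord Z (ω l) := Ord.of_isTheta hZ2 (hZ1.mono fun t ht => ht.1)
  have hAo : ∀ i, Ord (fun t => A t i) (ω i) := by
    intro i
    have hcases : i = l ∨ i = l + 1 ∨ i = l + 2 := by
      fin_cases l <;> fin_cases i <;> simp (config := {decide := true})
    rcases hcases with hi | hi | hi
    · subst hi
      simpa [hAdef, sg] using hZo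
    · have : sg l i = 0 := by subst hi; fin_cases l <;> rfl
      simp only [hAdef, this, Matrix.cons_val_zero]
      rw [hi]
      exact Ord.rpow _
    · have : sg l i = 1 := by subst hi; fin_cases l <;> rfl
      simp only [hAdef, this, Matrix.cons_val_one]
      rw [hi]
      exact Ord.rpow _
  have hArel : ∀ᶠ t in 𝓝[>] (0 : ℝ),
      A t 0 * A t 1 * A t 2 = t + A t 0 ^ 4 + A t 1 ^ 4 + A t 2 ^ 4 := by
    filter_upwards [hZ1] with t ht
    have := ht.2
    simp only [hAdef]
    fin_cases l
    · simp [sg] at this ⊢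
      linarith
    · simp [sg] at this ⊢
      linarith
    · simp [sg] at this ⊢
      linarith
  have hord := ord_G hG (fun n => (hP.good n).bounds (D_pos _) (D_pos _)) A ω hAo hArel
  have hbig : ∀ n, w.val (toK k (G n)) ≤ eo (ω 0) (ω 1) (ω 2) n := by
    intro n
    apply (hord n).le_of_isBigO
    have h1 := hZ3 (rename (sg l) (G n)) (w.val (toK k (G n))) (by
      rw [aeval_rename, ← val_spec w (toK_ne (hG.ne n))]
      apply le_of_eq
      congr 1
      unfold toK
      rw [al_aeval]
      congr 2
      ext i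
      fin_cases l <;> fin_cases i <;> rfl)
    refine h1.congr_left ?_
    intro t
    rw [aeval_rename]
    rfl
  have := h.trap (eo (ω 0) (ω 1) (ω 2)) (eo_rec _ _ _) ?_ (fun n => (hge n).trans (hbig n))
  · simpa [eo] using this
  · have h1 := ((hAo 0).mul (hAo 1)).mul (hAo 2)
    have h2 := ((Ord.id.add ((hAo 0).pow 4)).add ((hAo 1).pow 4)).add ((hAo 2).pow 4)
    have h3 := (h2.congr hArel).unique h1
    simp only [eo]
    push_cast at h3
    rw [← h3, min_assoc, min_assoc]

end Run7.h405
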