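import Mathlib
import Pool.Agent.Run7.h405.Pieces
import Pool.Agent.Run7.h405.Extend
import Pool.Agent.Run7.h405.Unique

/-! The values of the `G n`. -/

namespace Run7.h405

open MvPolynomial

theorem v_dom {k : Type*} [Field k] {K : Type*} [Field K] [Algebra k K]
    (v : AddValuation K (WithTop ℝ))
    (hv : ∀ c : k, c ≠ 0 → v (algebraMap k K c) = 0) (x : Fin 3 → K) (ω : Fin 3 → ℝ)
    (hx : ∀ i, v (x i) = (ω i : ℝ))
    {h : R3 k} (s : Fin 3 →₀ ℕ) (hs : s ∈ h.support)
    (hmin : ∀ t ∈ h.support, t ≠ s → mv ω s < mv ω t) :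
    v (aeval x h) = (mv ω s : ℝ) := by
  classical
  have h1 : h = monomial s (coeff s h) + (h - monomial s (coeff s h)) := by ring
  rw [h1, map_add]
  have h2 := v_monomial v hv x ω hx s (mem_support_iff.1 hs)
  rw [← h2]
  apply AddValuation.map_add_eq_of_lt_left
  rw [h2, (h - monomial s (coeff s h)).as_sum, map_sum]
  apply AddValuation.map_lt_sum v (WithTop.coe_ne_top)
  intro t ht
  rw [mem_support_iff] at ht
  rw [v_monomial v hv x ω hx t ht]
  rw [coeff_sub, coeff_monomial] at ht
  have hst : s ≠ t := by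
    rintro rfl
    simp at ht
  rw [if_neg hst, sub_zero] at ht
  exact_mod_cast hmin t (mem_support_iff.2 ht) (Ne.symm hst)

theorem v_good {K : Type*} [Field K] [CharZero K] (v : AddValuation K (WithTop ℝ))
    (hQ : ∀ c : ℚ, c ≠ 0 → v (algebraMap ℚ K c) = 0) {α β : ℕ} {P : MP} (hα : 0 < α)
    (hP : Good α β P) (l u w : K) (U W : ℝ) (hl : v l = (1 : ℝ)) (hu : v u = (U : ℝ))
    (hw : v w = (W : ℝ)) (h1 : U < α) (h2 : β * U < α * W) :
    v (aeval ![l, u, w] P) = ((β * U : ℝ) : WithTop ℝ) := by
  have hs : Finsupp.single 1 β ∈ P.support := by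
    rw [mem_support_iff, hP.c1]
    exact one_ne_zero
  have hx : ∀ i, v ((![l, u, w] : Fin 3 → K) i) = ((![1, U, W] : Fin 3 → ℝ) i : ℝ) := by
    intro i
    fin_cases i
    · exact hl
    · exact hu
    · exact hw
  have hα' : (0 : ℝ) < α := by exact_mod_cast hα
  rw [v_dom v hQ _ _ hx (Finsupp.single 1 β) hs]
  · rw [mv_three]
    simp
  · intro t ht hne
    rw [mv_three, mv_three]
    simp only [Matrix.cons_val_zero, Matrix.cons_val_one, Matrix.cons_val]
    have h3 := hP.hom t ht
    have h3' : (t 0 : ℝ) + α * t 1 + β * t 2 = α * β := by exact_mod_cast h3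
    have e0 : (Finsupp.single (1 : Fin 3) β) 0 = 0 := by
      rw [Finsupp.single_apply, if_neg (by decide)]
    have e1 : (Finsupp.single (1 : Fin 3) β) 1 = β := by
      rw [Finsupp.single_apply, if_pos rfl]
    have e2 : (Finsupp.single (1 : Fin 3) β) 2 = 0 := by
      rw [Finsupp.single_apply, if_neg (by decide)]
    rw [e0, e1, e2]
    have ht0 : (0 : ℝ) ≤ t 0 := Nat.cast_nonneg _
    have ht2 : (0 : ℝ) ≤ t 2 := Nat.cast_nonneg _
    have key : α * ((t 0 : ℝ) * 1 + t 1 * U + t 2 * W - β * U) =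
        t 0 * (α - U) + t 2 * (α * W - β * U) := by
      have : (α : ℝ) * t 1 = α * β - t 0 - β * t 2 := by linarith
      calc α * ((t 0 : ℝ) * 1 + t 1 * U + t 2 * W - β * U) =
          α * t 0 + (α * t 1) * U + α * t 2 * W - α * β * U := by ring
        _ = _ := by rw [this]; ring
    have hpos : 0 < t 0 * (α - U) + t 2 * (α * W - β * U) := by
      by_cases c0 : t 0 = 0
      · by_cases c2 : t 2 = 0
        · exfalso
          apply hne
          have h4 : α * t 1 = α * β := by rw [c0, c2] at h3; simpa using h3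
          have h5 : t 1 = β := Nat.eq_of_mul_eq_mul_left hα h4
          ext i
          fin_cases i
          · simpa [e0] using c0
          · simpa [e1] using h5
          · simpa [e2] using c2
        · have : (0 : ℝ) < t 2 := by exact_mod_cast Nat.pos_of_ne_zero c2
          have h6 : 0 < (t 2 : ℝ) * (α * W - β * U) := mul_pos this (by linarith)
          have h7 : 0 ≤ (t 0 : ℝ) * (α - U) := mul_nonneg ht0 (by linarith)
          linarith
      · have : (0 : ℝ) < t 0 := by exact_mod_cast Nat.pos_of_ne_zero c0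
        have h6 : 0 < (t 0 : ℝ) * (α - U) := mul_pos this (by linarith)
        have h7 : 0 ≤ (t 2 : ℝ) * (α * W - β * U) := mul_nonneg ht2 (by linarith)
        linarith
    rw [← key] at hpos
    have := (mul_pos_iff_of_pos_left hα').1 hpos
    push_cast
    linarith

theorem v_G {k : Type*} [Field k] [CharZero k] {P G : ℕ → MP} (hP : PSys P) (hG : GSys P G)
    {a b : ℝ} (h : Wt a b) (v : AddValuation (K3 k) (WithTop ℝ))
    (triv : ∀ c : k, c ≠ 0 → v (al k (C c)) = 0)
    (hx : v (al k (X 0)) = (a : ℝ)) (hy : v (al k (X 1)) = (b : ℝ))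
    (hz : v (al k (X 2)) = ((3 * a - b : ℝ) : WithTop ℝ))
    (hl : v (al k (lam k)) = (1 : ℝ)) (n : ℕ) :
    v (al k (toK k (G n))) = ((gg a b n : ℝ) : WithTop ℝ) := by
  have hQ : ∀ c : ℚ, c ≠ 0 → v (algebraMap ℚ (K3 k) c) = 0 := by
    intro c hc
    have : algebraMap ℚ (K3 k) c = al k (C (c : k)) := by
      have h1 : (al k).comp ((C : k →+* R3 k).comp (algebraMap ℚ k)) = algebraMap ℚ (K3 k) :=
        RingHom.ext_rat _ _
      rw [← h1, RingHom.comp_apply, RingHom.comp_apply, eq_ratCast]
    rw [this]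
    exact triv _ (by exact_mod_cast hc)
  have g1 : gg a b 1 = a := by simp [gg, pp, qq]
  have g2 : gg a b 2 = b := by simp [gg, pp, qq]
  have g3 : gg a b 3 = 3 * a - b := by simp [gg, pp, qq, D]; ring
  have i1 := h.incr 1
  have i2 := h.incr 2
  rw [g1, g2] at i1
  rw [g2, g3] at i2
  simp [D] at i1 i2
  induction n using Nat.strong_induction_on with
  | _ n ih =>
    match n, ih with
    | 0, ih =>
      have e : toK k (G 0) = X 0 * X 1 - X 2 ^ 3 := by simp [toK, hG.g0]
      rw [e, map_sub, map_mul, map_pow]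
      have h1 : v (al k (X 0) * al k (X 1)) = ((a + b : ℝ) : WithTop ℝ) := by
        rw [AddValuation.map_mul, hx, hy]; norm_cast
      have h2 : v (al k (X 2) ^ 3) = ((3 * (3 * a - b) : ℝ) : WithTop ℝ) := by
        rw [AddValuation.map_pow, hz, ← WithTop.coe_nsmul, nsmul_eq_mul]; norm_cast
      rw [AddValuation.map_sub_eq_of_lt_left, h1]
      · simp [gg, pp, qq]
      · rw [h1, h2]
        norm_cast
        linarith
    | 1, ih => rw [g1, ← hx]; simp [toK, hG.g1]
    | 2, ih => rw [g2, ← hy]; simp [toK, hG.g2]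
    | 3, ih => rw [g3, ← hz]; simp [toK, hG.g3]
    | (n+4), ih =>
      have h1 := ih (n+1) (by omega)
      have h2 := ih (n+2) (by omega)
      have h3 := ih (n+3) (by omega)
      have hrel := congrArg (fun F : MP => al k (toK k F)) (hG.rel (n+1))
      simp only [toK, map_mul] at hrel
      rw [show n + 1 + 3 = n + 4 from rfl, show n + 1 + 1 = n + 2 from rfl,
        show n + 1 + 2 = n + 3 from rfl] at hrel
      have e1 : al k (aeval (X : Fin 3 → R3 k) (aeval ![lam ℚ, G (n+2) ^ 4, G (n+3) ^ 4]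
          (P (n+1)))) = aeval ![al k (lam k), al k (toK k (G (n+2))) ^ 4,
            al k (toK k (G (n+3))) ^ 4] (P (n+1)) := by
        have e2 : aeval (X : Fin 3 → R3 k) (aeval ![lam ℚ, G (n+2) ^ 4, G (n+3) ^ 4]
          (P (n+1))) = aeval (fun i => aeval (X : Fin 3 → R3 k)
            ((![lam ℚ, G (n+2) ^ 4, G (n+3) ^ 4] : Fin 3 → MP) i)) (P (n+1)) := by
          rw [← AlgHom.comp_apply, comp_aeval]
        rw [e2, al_aeval]
        congr 2
        ext i
        fin_cases i
        · simp [lam]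
        · simp [toK]
        · simp [toK]
      rw [e1] at hrel
      have hv := congrArg v hrel
      rw [AddValuation.map_mul] at hv
      have h4 := v_good v hQ (D_pos _) (hP.good (n+1)) (al k (lam k))
        (al k (toK k (G (n+2))) ^ 4) (al k (toK k (G (n+3))) ^ 4) (4 * gg a b (n+2))
        (4 * gg a b (n+3)) hl (by
          rw [AddValuation.map_pow, h2, ← WithTop.coe_nsmul, nsmul_eq_mul]; norm_cast) (by
          rw [AddValuation.map_pow, h3, ← WithTop.coe_nsmul, nsmul_eq_mul]; norm_cast)
        (h.lt_one (n+2)) (by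
          have := h.incr (n+2)
          rw [show n + 2 + 1 = n + 3 from rfl] at this
          rw [show n + 1 + 1 = n + 2 from rfl, show n + 1 + 2 = n + 3 from rfl]
          nlinarith)
      rw [h4] at hv
      have h5 := gg_rec a b (n+1)
      rw [show n + 1 + 3 = n + 4 from rfl, show n + 1 + 1 = n + 2 from rfl,
        show n + 1 + 2 = n + 3 from rfl] at h5
      change v (al k (toK k (G (n+4)))) + v (al k (toK k (G (n+1)))) = _ at hv
      rw [h1] at hv
      obtain ⟨r, hr⟩ := v_real v (al_ne (toK_ne (k := k) (hG.ne (n+4))))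
      rw [hr] at hv ⊢
      rw [show n + 1 + 2 = n + 3 from rfl] at hv
      norm_cast at hv ⊢
      linarith

end Run7.h405
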