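import Mathlib
import Pool.Agent.Run7.h405.Pieces
import Pool.Agent.Run7.h405.Value
import Pool.Agent.Run7.h405.CountD
import Pool.Agent.Run7.h405.Lct

/-! The graded algebra is not finitely generated. -/

namespace Run7.h405

open MvPolynomial

theorem D_ge (n : ℕ) : n + 1 ≤ D (n + 3) := by
  induction n with
  | zero => simp [D]
  | succ n ih =>
    have h1 := D_growth n
    rw [show n + 1 + 3 = n + 4 from rfl]
    omega

theorem D_big (i : ℕ) : D (i+1) * D (i+2) ≤ D (i+3) := by
  have h1 := D_rec i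
  have h2 := (D_aux i).2.2.2.2.2
  have h3 : D (i+2) ≤ D (i+1) * D (i+2) := Nat.le_mul_of_pos_left _ (D_pos _)
  have e : 4 * D (i+1) * D (i+2) = 4 * (D (i+1) * D (i+2)) := by ring
  rw [e] at h1
  omega

variable {k : Type*} [Field k] [CharZero k]

theorem totalDegree_toK (F : MP) : (toK k F).totalDegree ≤ F.totalDegree := by
  rw [toK_eq_map]
  exact Finset.sup_mono (support_map_subset _ _)

theorem not_fg_values {P G : ℕ → MP} (hP : PSys P) (hG : GSys P G) {a b : ℝ} (h : Wt a b)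
    (w₀ : Val k) (hx : w₀.v (al k (X 0)) = (a : ℝ)) (hy : w₀.v (al k (X 1)) = (b : ℝ))
    (hz : w₀.v (al k (X 2)) = ((3 * a - b : ℝ) : WithTop ℝ))
    (hl : w₀.v (al k (lam k)) = (1 : ℝ))
    (hval : ∀ f : R3 k, f ≠ 0 → ∃ l m n : ℤ,
        w₀.v (al k f) = (((l : ℝ) + m * a + n * b : ℝ) : WithTop ℝ))
    (w : Val k) (c : ℝ) (hc : 0 < c) (hw : ∀ f : R3 k, f ≠ 0 → w.val f = c * w₀.val f)
    (S : Finset (R3 k)) (hS : ∀ h ∈ S, h ≠ 0) (hcl : ∀ f : R3 k, f ≠ 0 →
      w.val f ∈ AddSubmonoid.closure (w.val '' (S : Set (R3 k)))) : False := by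
  set N : ℕ := S.sup (fun f => f.totalDegree) + 1 with hN
  have hdeg : ∀ f ∈ S, f.totalDegree ≤ N := fun f hf =>
    le_trans (Finset.le_sup (f := fun f : R3 k => f.totalDegree) hf) (Nat.le_succ _)
  set i : ℕ := N + 2 with hi
  have hDi : N < D (i + 1) := D_ge N
  set σ : ℤ := (-1) ^ (i + 2) with hσ
  have hσ2 : σ * σ = 1 := by
    rw [hσ, ← pow_add, ← two_mul, pow_mul]
    norm_num
  have hvG := v_G hP hG h w₀.v w₀.triv hx hy hz hl
  have hgen : ∀ f ∈ S, ∀ l m n : ℤ,
      w₀.v (al k f) = (((l : ℝ) + m * a + n * b : ℝ) : WithTop ℝ) →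
      0 ≤ σ * (pp (i+1) * n - qq (i+1) * m) := by
    intro f hf l m n hlmn
    by_contra hcon
    push Not at hcon
    have hd1 := det_pq (i+1)
    rw [show i + 1 + 1 = i + 2 from rfl, show i + 1 + 2 = i + 3 from rfl, ← hσ] at hd1
    have hd1' : pp (i+1) * qq (i+2) - qq (i+1) * pp (i+2) = σ * D (i+3) := by
      rw [← hd1]; ring
    have hDpos : (0 : ℤ) < D (i+3) := by exact_mod_cast D_pos (i+3)
    have hdet : (pp (i+1) * qq (i+2) - qq (i+1) * pp (i+2)) *
        (pp (i+1) * n - qq (i+1) * m) < 0 := by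
      rw [hd1']
      nlinarith
    have key := two_cones a b h.indep w₀.v w₀.triv hx hy hl (toK k (G (i+1)))
      (toK k (G (i+2))) f 0 (pp (i+1)) (qq (i+1)) 0 (pp (i+2)) (qq (i+2)) l m n
      (by
        have := hvG (i+1)
        rw [show al k (toK k (G (i+1))) = algebraMap (R3 k) (K3 k) (toK k (G (i+1))) from rfl]
          at this
        rw [this]; simp [gg])
      (by
        have := hvG (i+2)
        rw [show al k (toK k (G (i+2))) = algebraMap (R3 k) (K3 k) (toK k (G (i+2))) from rfl]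
          at this
        rw [this]; simp [gg]) hlmn
      (D (i+1)) (D (i+2)) N (D_pos _) (D_pos _) (Nat.succ_pos _)
      ((totalDegree_toK _).trans (hG.deg _)) ((totalDegree_toK _).trans (hG.deg _))
      (hdeg f hf) hdet
    have habs : |pp (i+1) * qq (i+2) - qq (i+1) * pp (i+2)| = D (i+3) := by
      rw [hd1', abs_mul, abs_of_pos hDpos]
      have : |σ| = 1 := by
        rw [hσ, abs_pow]; simp
      rw [this, one_mul]
    rw [habs] at key
    have hne : (1 : ℤ) ≤ |pp (i+1) * n - qq (i+1) * m| := by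
      apply Int.one_le_abs
      intro h0
      rw [h0, mul_zero] at hcon
      exact lt_irrefl _ hcon
    have h1 := D_recZ i
    have h2 : ((D (i+2) : ℕ) : ℤ) ≤ D i * N := by
      have hD2 : (0 : ℤ) ≤ D (i+2) := Int.natCast_nonneg _
      nlinarith
    have h3 : D (i+2) ≤ D i * N := by exact_mod_cast h2
    have h4 := D_big (i - 1)
    have e1 : i - 1 + 1 = i := by omega
    have e2 : i - 1 + 2 = i + 1 := by omega
    have e3 : i - 1 + 3 = i + 2 := by omega
    rw [e1, e2, e3] at h4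
    have h5 : D i * N < D i * D (i+1) := Nat.mul_lt_mul_of_pos_left hDi (D_pos i)
    omega
  have hQ : ∀ x ∈ AddSubmonoid.closure (w.val '' (S : Set (R3 k))),
      ∃ l m n : ℤ, x = c * ((l : ℝ) + m * a + n * b) ∧
        0 ≤ σ * (pp (i+1) * n - qq (i+1) * m) := by
    intro x hx
    induction hx using AddSubmonoid.closure_induction with
    | mem x hx =>
      obtain ⟨f, hf, rfl⟩ := hx
      have hf0 := hS f hf
      obtain ⟨l, m, n, hlmn⟩ := hval f hf0
      refine ⟨l, m, n, ?_, hgen f hf l m n hlmn⟩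
      rw [hw f hf0]
      rw [val_spec w₀ hf0] at hlmn
      have : w₀.val f = (l : ℝ) + m * a + n * b := by exact_mod_cast hlmn
      rw [this]
    | zero => exact ⟨0, 0, 0, by simp, by simp⟩
    | add x y _ _ hx hy =>
      obtain ⟨l, m, n, e1, e2⟩ := hx
      obtain ⟨l', m', n', e3, e4⟩ := hy
      refine ⟨l + l', m + m', n + n', ?_, ?_⟩
      · rw [e1, e3]; push_cast; ring
      · have : σ * (pp (i+1) * (n + n') - qq (i+1) * (m + m')) =
            σ * (pp (i+1) * n - qq (i+1) * m) + σ * (pp (i+1) * n' - qq (i+1) * m') := by ring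
        rw [this]
        exact add_nonneg e2 e4
  have hGne := toK_ne (k := k) (hG.ne (i+3))
  obtain ⟨l, m, n, e1, e2⟩ := hQ _ (hcl _ hGne)
  rw [hw _ hGne] at e1
  have e3 : w₀.val (toK k (G (i+3))) = gg a b (i+3) := by
    have := hvG (i+3)
    rw [val_spec w₀ hGne] at this
    exact_mod_cast this
  rw [e3] at e1
  have e4 : gg a b (i+3) = (l : ℝ) + m * a + n * b := mul_left_cancel₀ hc.ne' e1
  unfold gg at e4
  have e5 := h.indep l (m - pp (i+3)) (n - qq (i+3)) (by push_cast; linarith)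
  have em : m = pp (i+3) := by omega
  have en : n = qq (i+3) := by omega
  rw [em, en] at e2
  have hd2 := det_pq2 i
  have hd2' : pp (i+1) * qq (i+3) - qq (i+1) * pp (i+3) = -σ * D (i+2) := by
    rw [show pp (i+1) * qq (i+3) - qq (i+1) * pp (i+3) =
      pp (i+1) * qq (i+3) - pp (i+3) * qq (i+1) by ring, hd2, hσ, pow_succ (-1 : ℤ) (i+1)]
    ring
  rw [hd2'] at e2
  have hDpos : (0 : ℤ) < D (i+2) := by exact_mod_cast D_pos (i+2)
  nlinarith

end Run7.h405
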