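import Mathlib
import Pool.Agent.Run7.h405.Pieces
import Pool.Agent.Run7.h405.Nonfg
import Pool.Agent.Run7.h405.GrE

/-! The counterexample. -/

namespace Run7.h405

open MvPolynomial Filter
open scoped ENNReal

variable {k : Type*} [Field k]

/-- scaling a valuation by a positive real -/
noncomputable def scale (w : Val k) (c : ℝ) (hc : 0 < c) : Val k where
  v := w.v.map (AddMonoidHom.withTopMap (AddMonoidHom.mulLeft c⁻¹)) rfl (by
    apply WithTop.monotone_map_iff.2
    intro x y hxy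
    exact mul_le_mul_of_nonneg_left hxy (inv_pos.2 hc).le)
  triv := by
    intro x hx
    have h := w.triv x hx
    change (AddMonoidHom.withTopMap (AddMonoidHom.mulLeft c⁻¹)) (w.v _) = 0
    rw [h, map_zero]
  pos := by
    intro i
    have h := val_spec w (X_ne_zero i)
    change 0 < (AddMonoidHom.withTopMap (AddMonoidHom.mulLeft c⁻¹)) (w.v (al k (X i)))
    rw [h]
    have : (0 : ℝ) < c⁻¹ * w.val (X i) := mul_pos (inv_pos.2 hc) (val_X_pos w i)
    change (0 : WithTop ℝ) < ((c⁻¹ * w.val (X i) : ℝ) : WithTop ℝ)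
    exact_mod_cast this

theorem scale_v (w : Val k) (c : ℝ) (hc : 0 < c) {f : R3 k} (hf : f ≠ 0) :
    (scale w c hc).v (al k f) = ((c⁻¹ * w.val f : ℝ) : WithTop ℝ) := by
  change (AddMonoidHom.withTopMap (AddMonoidHom.mulLeft c⁻¹)) (w.v (al k f)) = _
  rw [val_spec w hf]
  rfl

theorem scale_val (w : Val k) (c : ℝ) (hc : 0 < c) {f : R3 k} (hf : f ≠ 0) :
    (scale w c hc).val f = c⁻¹ * w.val f := by
  have h := scale_v w c hc hf
  rw [val_spec _ hf] at h
  exact_mod_cast h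

theorem ne_zero_of_jac {f : Fin 3 → R3 k} (h : jac f ≠ 0) (i : Fin 3) : f i ≠ 0 := by
  intro h0
  apply h
  unfold jac
  apply Matrix.det_eq_zero_of_row_eq_zero i
  intro j
  simp [h0]

theorem multiple_mem_LCP [CharZero k] (w₀ : Val k) (h : w₀.val (lam k) = 1) (hA : logDisc w₀ ≤ 1) (w : Val k)
    (c : ℝ) (hc : 0 < c) (hw : ∀ f : R3 k, f ≠ 0 → w.val f = c * w₀.val f) :
    w ∈ LCP (vSeq w₀) := by
  have hwl : w.val (lam k) = c := by rw [hw _ lam_ne, h, mul_one]
  have hD : logDisc w ≤ ENNReal.ofReal c := by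
    refine iSup₂_le fun f hf => ENNReal.ofReal_le_ofReal ?_
    have h1 : ENNReal.ofReal ((∑ i, w₀.val (f i)) - w₀.val (jac f)) ≤ ENNReal.ofReal 1 := by
      rw [ENNReal.ofReal_one]
      exact le_trans (le_iSup₂ (f := fun (f : Fin 3 → R3 k) (_ : jac f ≠ 0) =>
        ENNReal.ofReal ((∑ i, w₀.val (f i)) - w₀.val (jac f))) f hf) hA
    rw [ENNReal.ofReal_le_ofReal_iff zero_le_one] at h1
    rw [hw _ hf, Finset.sum_congr rfl (fun i _ => hw (f i) (ne_zero_of_jac hf i)),
      ← Finset.mul_sum, ← mul_sub]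
    nlinarith
  have hS : c ≤ w.seq (vSeq w₀) := by
    rw [seq_eq]
    apply ge_of_tendsto ((idl_subadd w w₀).tendsto_lim (idl_div_bdd w w₀))
    filter_upwards [eventually_gt_atTop 0] with n hn
    have hn' : (0 : ℝ) < n := by exact_mod_cast hn
    rw [le_div_iff₀ hn']
    apply le_idl
    intro f hf hf0
    rw [mem_vIdeal, val_spec w₀ hf0] at hf
    have h2 : (n : ℝ) ≤ w₀.val f := by exact_mod_cast hf
    rw [hw f hf0]
    exact mul_le_mul_of_nonneg_left h2 hc.le
  change lct (vSeq w₀) = _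
  rw [lct_eq w₀ h hA]
  apply le_antisymm (one_le_ratio w w₀ h)
  have hS0 : ENNReal.ofReal (w.seq (vSeq w₀)) ≠ 0 :=
    (ENNReal.ofReal_pos.2 (lt_of_lt_of_le hc hS)).ne'
  rw [ENNReal.div_le_iff hS0 ENNReal.ofReal_ne_top, one_mul]
  exact le_trans hD (ENNReal.ofReal_le_ofReal hS)

theorem main_full (k : Type*) [Field k] [CharZero k] :
    ∃ (a : GradedSeq k) (w₀ : Val k), lct a ≠ ⊤ ∧
      (∀ w : Val k, (∃ c : ℝ, 0 < c ∧ ∀ f : R3 k, f ≠ 0 → w.val f = c * w₀.val f) → w ∈ LCP a) ∧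
      (∃ f : Fin 3 → R3 k, (∀ i, f i ≠ 0) ∧ LinearIndependent ℚ (fun i => w₀.val (f i))) ∧
      ∀ w ∈ LCP a, (∃ c : ℝ, 0 < c ∧ ∀ f : R3 k, f ≠ 0 → w.val f = c * w₀.val f) ∧
        ¬ ∃ S : Finset (R3 k), (∀ h ∈ S, h ≠ 0) ∧ ∀ f : R3 k, f ≠ 0 →
          w.val f ∈ AddSubmonoid.closure (w.val '' (S : Set (R3 k))) := by
  obtain ⟨a, b, h⟩ := exists_wt
  obtain ⟨P, hP⟩ := exists_P
  obtain ⟨G, hG⟩ := exists_G P hP
  have g1 : gg a b 1 = a := by simp [gg, pp, qq]
  have g2 : gg a b 2 = b := by simp [gg, pp, qq]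
  have g3 : gg a b 3 = 3 * a - b := by simp [gg, pp, qq, D]; ring
  have i1 := h.incr 1
  have i2 := h.incr 2
  have i3 := h.lt_one 3
  rw [g1, g2] at i1
  rw [g2, g3] at i2
  rw [g3] at i3
  simp [D] at i1 i2 i3
  obtain ⟨v₀, triv, hx, hy, hz, hl, hval, hA⟩ := exists_v0 k a b h.apos (by linarith)
    (by linarith) (by linarith) h.indep
  have hp : 0 < 3 * a - b := by linarith [h.apos, h.bpos]
  let w₀ : Val k := ⟨v₀, triv, by
    intro i
    fin_cases i
    · change 0 < v₀ (algebraMap (R3 k) (K3 k) (X 0))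
      rw [hx]; exact_mod_cast h.apos
    · change 0 < v₀ (algebraMap (R3 k) (K3 k) (X 1))
      rw [hy]; exact_mod_cast h.bpos
    · change 0 < v₀ (algebraMap (R3 k) (K3 k) (X 2))
      rw [hz]; exact_mod_cast hp⟩
  have hlv : w₀.val (lam k) = 1 := by
    have h1 := val_spec w₀ lam_ne
    rw [show w₀.v (al k (lam k)) = ((1 : ℝ) : WithTop ℝ) from hl] at h1
    exact_mod_cast h1.symm
  have hA0 : logDisc w₀ ≤ 1 := by
    refine iSup₂_le fun f hf => ?_
    rw [← ENNReal.ofReal_one]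
    apply ENNReal.ofReal_le_ofReal
    have h1 := hA f hf
    have h2 : ∀ i, v₀ (algebraMap (R3 k) (K3 k) (f i)) = ((w₀.val (f i) : ℝ) : WithTop ℝ) :=
      fun i => val_spec w₀ (ne_zero_of_jac hf i)
    rw [Finset.sum_congr rfl (fun i _ => h2 i), show v₀ (algebraMap (R3 k) (K3 k) (jac f)) =
      ((w₀.val (jac f) : ℝ) : WithTop ℝ) from val_spec w₀ hf] at h1
    have h3 : ∑ i, w₀.val (f i) ≤ w₀.val (jac f) + 1 := by exact_mod_cast h1
    linarith
  refine ⟨vSeq w₀, w₀, ?_, ?_, ?_, ?_⟩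
  · rw [lct_eq w₀ hlv hA0]
    exact ENNReal.one_ne_top
  · rintro w ⟨c, hc, hw⟩
    exact multiple_mem_LCP w₀ hlv hA0 w c hc hw
  · refine ⟨![X 0, X 1, lam k], ?_, ?_⟩
    · intro i
      fin_cases i
      · exact X_ne_zero 0
      · exact X_ne_zero 1
      · exact lam_ne
    · have e0 : w₀.val (X 0) = a := by
        have h1 := val_spec w₀ (X_ne_zero 0)
        rw [show w₀.v (al k (X 0)) = ((a : ℝ) : WithTop ℝ) from hx] at h1
        exact_mod_cast h1.symm
      have e1 : w₀.val (X 1) = b := by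
        have h1 := val_spec w₀ (X_ne_zero 1)
        rw [show w₀.v (al k (X 1)) = ((b : ℝ) : WithTop ℝ) from hy] at h1
        exact_mod_cast h1.symm
      rw [← LinearIndependent.iff_fractionRing ℤ ℚ, Fintype.linearIndependent_iff]
      intro g hg
      rw [Fin.sum_univ_three] at hg
      have hg' : (g 2 : ℝ) + g 0 * a + g 1 * b = 0 := by
        have e : g 0 • w₀.val (X 0) + g 1 • w₀.val (X 1) + g 2 • w₀.val (lam k) = 0 := hg
        rw [e0, e1, hlv, zsmul_eq_mul, zsmul_eq_mul, zsmul_eq_mul] at e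
        linarith
      obtain ⟨q2, q0, q1⟩ := h.indep _ _ _ hg'
      intro i
      fin_cases i
      · exact q0
      · exact q1
      · exact q2
  intro w hw
  obtain ⟨hc, hge, hAw⟩ := LCP_char w₀ hlv hA0 w hw
  set c := w.val (lam k) with hcdef
  have hlw : (scale w c hc).val (lam k) = 1 := by
    rw [scale_val w c hc lam_ne, ← hcdef, inv_mul_cancel₀ hc.ne']
  have hAs : ∀ f : Fin 3 → R3 k, jac f ≠ 0 →
      ∑ i, (scale w c hc).v (al k (f i)) ≤
        (scale w c hc).v (al k (jac f)) + (scale w c hc).v (al k (lam k)) := by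
    intro f hf
    have h1 : ENNReal.ofReal (∑ i, w.val (f i) - w.val (jac f)) ≤ ENNReal.ofReal c :=
      le_trans (le_iSup₂ (f := fun (f : Fin 3 → R3 k) (_ : jac f ≠ 0) =>
        ENNReal.ofReal (∑ i, w.val (f i) - w.val (jac f))) f hf) hAw
    rw [ENNReal.ofReal_le_ofReal_iff hc.le] at h1
    rw [Finset.sum_congr rfl (fun i _ => scale_v w c hc (ne_zero_of_jac hf i)),
      scale_v w c hc hf, scale_v w c hc lam_ne]
    have h2 : ∑ i, c⁻¹ * w.val (f i) ≤ c⁻¹ * w.val (jac f) + c⁻¹ * w.val (lam k) := by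
      rw [← Finset.mul_sum, ← mul_add]
      apply mul_le_mul_of_nonneg_left _ (inv_pos.2 hc).le
      rw [← hcdef]
      linarith
    exact_mod_cast h2
  have hges : ∀ f : R3 k, f ≠ 0 → w₀.val f ≤ (scale w c hc).val f := by
    intro f hf
    rw [scale_val w c hc hf, ← div_eq_inv_mul, le_div_iff₀ hc]
    linarith [hge f hf]
  have hvG := v_G hP hG h w₀.v w₀.triv hx hy hz hl
  have hW := weights_eq (scale w c hc) hP hG h hAs hlw (by
    intro n
    have hne := toK_ne (k := k) (hG.ne n)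
    have h1 := hvG n
    rw [val_spec w₀ hne] at h1
    have h2 : w₀.val (toK k (G n)) = gg a b n := by exact_mod_cast h1
    rw [← h2]
    exact hges _ hne)
  have hev : ∀ f : R3 k, f ≠ 0 → w.val f = c * w₀.val f := by
    intro f hf
    have h1 := eq_of_weights w₀.v (scale w c hc).v w₀.triv (scale w c hc).triv ![a, b, 1]
      (by
        intro i
        fin_cases i
        · exact hx
        · exact hy
        · exact hl)
      (by
        intro i
        fin_cases i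
        · exact (val_spec (scale w c hc) (X_ne_zero 0)).trans (by rw [hW.1]; rfl)
        · exact (val_spec (scale w c hc) (X_ne_zero 1)).trans (by rw [hW.2.1]; rfl)
        · exact (val_spec (scale w c hc) lam_ne).trans (by rw [hlw]; rfl))
      (mv_indep h.indep)
      (by
        intro g
        by_cases hg : g = 0
        · rw [hg, map_zero, AddValuation.map_zero, AddValuation.map_zero]
        · rw [val_spec w₀ hg, val_spec (scale w c hc) hg]
          exact_mod_cast hges g hg) f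
    rw [val_spec w₀ hf, val_spec (scale w c hc) hf, scale_val w c hc hf] at h1
    have h2 : c⁻¹ * w.val f = w₀.val f := by exact_mod_cast h1
    rw [← h2, mul_inv_cancel_left₀ hc.ne']
  refine ⟨⟨c, hc, hev⟩, ?_⟩
  rintro ⟨S, hS, hcl⟩
  exact not_fg_values hP hG h w₀ hx hy hz hl hval w c hc hev S hS hcl

theorem main_values (k : Type*) [Field k] [CharZero k] :
    ∃ a : GradedSeq k, lct a ≠ ⊤ ∧ (LCP a).Nonempty ∧
      ∀ w ∈ LCP a, ¬ ∃ S : Finset (R3 k), (∀ h ∈ S, h ≠ 0) ∧ ∀ f : R3 k, f ≠ 0 →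
        w.val f ∈ AddSubmonoid.closure (w.val '' (S : Set (R3 k))) := by
  obtain ⟨a, w₀, h1, h2, -, h4⟩ := main_full k
  exact ⟨a, h1, ⟨w₀, h2 w₀ ⟨1, one_pos, fun f _ => (one_mul _).symm⟩⟩, fun w hw => (h4 w hw).2⟩

theorem main (k : Type*) [Field k] [CharZero k] :
    ∃ a : E.GradedSeq k, E.lct a ≠ ⊤ ∧ (E.LCP a).Nonempty ∧
      ∀ w ∈ E.LCP a, ¬ Algebra.FiniteType k (E.Gr w) := by
  obtain ⟨a, h1, ⟨u, hu⟩, h3⟩ := main_values k
  refine ⟨seqOf a, ?_, ⟨ofOld u, ((same_ofOld u).mem_LCP a).2 hu⟩, ?_⟩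
  · rw [lct_seqOf]
    exact h1
  intro w hw hft
  obtain ⟨S, hS, hcl⟩ := gr_valuesE w hft
  have him : w.v '' (S : Set (R3 k)) = (toOld w).val '' (S : Set (R3 k)) :=
    Set.image_congr (fun f hf => same_toOld w f (hS f hf))
  refine h3 (toOld w) (((same_toOld w).mem_LCP a).1 hw) ⟨S, hS, fun f hf => ?_⟩
  rw [← same_toOld w f hf, ← him]
  exact hcl f hf

/-- The structure of the set of valuations computing the threshold: it is one ray, spanned by a
valuation of rational rank three. -/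
theorem main_ray (k : Type*) [Field k] [CharZero k] :
    ∃ (a : E.GradedSeq k) (v : E.Val k), E.lct a ≠ ⊤ ∧
      (∀ w : E.Val k, w ∈ E.LCP a ↔ ∃ c : ℝ, 0 < c ∧ ∀ f, f ≠ 0 → w.v f = c * v.v f) ∧
      (∃ f : Fin 3 → MvPolynomial (Fin 3) k, (∀ i, f i ≠ 0) ∧
        LinearIndependent ℚ (fun i => v.v (f i))) ∧
      ∀ w ∈ E.LCP a, ¬ Algebra.FiniteType k (E.Gr w) := by
  obtain ⟨a, w₀, h1, h2, ⟨f, hf0, hfi⟩, h4⟩ := main_full k
  refine ⟨seqOf a, ofOld w₀, ?_, ?_, ⟨f, hf0, hfi⟩, ?_⟩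
  · rw [lct_seqOf]
    exact h1
  · intro w
    rw [(same_toOld w).mem_LCP a]
    constructor
    · intro hw
      obtain ⟨c, hc, hcw⟩ := (h4 _ hw).1
      exact ⟨c, hc, fun f hf => (same_toOld w f hf).trans (hcw f hf)⟩
    · rintro ⟨c, hc, hcw⟩
      exact h2 _ ⟨c, hc, fun f hf => (same_toOld w f hf).symm.trans (hcw f hf)⟩
  · intro w hw hft
    obtain ⟨S, hS, hcl⟩ := gr_valuesE w hft
    have him : w.v '' (S : Set (R3 k)) = (toOld w).val '' (S : Set (R3 k)) :=
      Set.image_congr (fun f hf => same_toOld w f (hS f hf))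
    refine (h4 (toOld w) (((same_toOld w).mem_LCP a).1 hw)).2 ⟨S, hS, fun f hf => ?_⟩
    rw [← same_toOld w f hf, ← him]
    exact hcl f hf

end Run7.h405
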